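import Mathlib

set_option autoImplicit false

/-! Consequences of the detailed balance identity. -/

namespace Pool.Agent.V7H29.FE

open Finset

/-- the detailed balance identity for a weight `w`, with numbers `A`, `B` of short and long good tiles
and length `l` -/
structure Bal {Ω : Type*} (C : Finset Ω) (w : Ω → ℝ) (A B l : Ω → ℕ) (x : ℝ) : Prop where
  pos : 0 < x
  nn : ∀ ω ∈ C, 0 ≤ w ω
  bal : ∀ K : ℕ → ℕ → ℕ → ℝ,
    x ^ 2 * ∑ ω ∈ C, w ω * ((A ω : ℝ) * K (A ω + B ω) (B ω + 1) (l ω + 2)) =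
      ∑ ω ∈ C, w ω * ((B ω : ℝ) * K (A ω + B ω) (B ω) (l ω))

variable {Ω : Type*} {C : Finset Ω} {w : Ω → ℝ} {A B l : Ω → ℕ} {x : ℝ}

theorem Bal.first (h : Bal C w A B l x) (ψ : ℕ → ℝ) :
    (1 + x ^ 2) * ∑ ω ∈ C, w ω * (ψ (A ω + B ω) * B ω) =
      x ^ 2 * ∑ ω ∈ C, w ω * (ψ (A ω + B ω) * ((A ω : ℝ) + B ω)) := by
  have h1 := h.bal (fun g _ _ => ψ g)
  have e1 : ∑ ω ∈ C, w ω * (ψ (A ω + B ω) * ((A ω : ℝ) + B ω)) =
      ∑ ω ∈ C, w ω * ((A ω : ℝ) * ψ (A ω + B ω)) + ∑ ω ∈ C, w ω * ((B ω : ℝ) * ψ (A ω + B ω)) := by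
    rw [← Finset.sum_add_distrib]
    exact Finset.sum_congr rfl fun ω _ => by ring
  have e2 : ∑ ω ∈ C, w ω * (ψ (A ω + B ω) * B ω) =
      ∑ ω ∈ C, w ω * ((B ω : ℝ) * ψ (A ω + B ω)) :=
    Finset.sum_congr rfl fun ω _ => by ring
  rw [e1, e2]
  linear_combination (-1 : ℝ) * h1

theorem Bal.second (h : Bal C w A B l x) (ψ : ℕ → ℝ) :
    (1 + x ^ 2) * ∑ ω ∈ C, w ω * (ψ (A ω + B ω) * (B ω : ℝ) ^ 2) =
      x ^ 2 * ∑ ω ∈ C, w ω * (ψ (A ω + B ω) * (((A ω : ℝ) + B ω) * B ω + ((A ω : ℝ) + B ω) -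
        B ω)) := by
  have h1 := h.bal (fun g k _ => ψ g * k)
  have e1 : ∑ ω ∈ C, w ω * (ψ (A ω + B ω) * (((A ω : ℝ) + B ω) * B ω + ((A ω : ℝ) + B ω) -
        B ω)) = ∑ ω ∈ C, w ω * ((A ω : ℝ) * (ψ (A ω + B ω) * ((B ω + 1 : ℕ) : ℝ))) +
      ∑ ω ∈ C, w ω * (ψ (A ω + B ω) * (B ω : ℝ) ^ 2) := by
    rw [← Finset.sum_add_distrib]
    refine Finset.sum_congr rfl fun ω _ => ?_
    push_cast
    ring
  have e2 : ∑ ω ∈ C, w ω * ((B ω : ℝ) * (ψ (A ω + B ω) * (B ω : ℝ))) =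
      ∑ ω ∈ C, w ω * (ψ (A ω + B ω) * (B ω : ℝ) ^ 2) :=
    Finset.sum_congr rfl fun ω _ => by ring
  rw [e2] at h1
  rw [e1]
  linear_combination (-1 : ℝ) * h1

/-- the second moment -/
theorem Bal.moment (h : Bal C w A B l x) (ψ : ℕ → ℝ) :
    (1 + x ^ 2) ^ 2 * ∑ ω ∈ C, w ω * (ψ (A ω + B ω) *
        ((B ω : ℝ) - x ^ 2 / (1 + x ^ 2) * ((A ω : ℝ) + B ω)) ^ 2) =
      x ^ 2 * ∑ ω ∈ C, w ω * (ψ (A ω + B ω) * ((A ω : ℝ) + B ω)) := by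
  have hx : (1 + x ^ 2) ≠ 0 := by positivity
  have h2 := h.second ψ
  have h1 := h.first ψ
  have h3 := h.first (fun g => ψ g * g)
  have e3 : ∑ ω ∈ C, w ω * ((fun g : ℕ => ψ g * (g : ℝ)) (A ω + B ω) * (B ω : ℝ)) =
      ∑ ω ∈ C, w ω * (ψ (A ω + B ω) * (((A ω : ℝ) + B ω) * B ω)) := by
    refine Finset.sum_congr rfl fun ω _ => ?_
    push_cast
    ring
  have e4 : ∑ ω ∈ C, w ω * ((fun g : ℕ => ψ g * (g : ℝ)) (A ω + B ω) * ((A ω : ℝ) + B ω)) =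
      ∑ ω ∈ C, w ω * (ψ (A ω + B ω) * ((A ω : ℝ) + B ω) ^ 2) := by
    refine Finset.sum_congr rfl fun ω _ => ?_
    push_cast
    ring
  rw [e3, e4] at h3
  have e5 : ∑ ω ∈ C, w ω * (ψ (A ω + B ω) * (((A ω : ℝ) + B ω) * B ω + ((A ω : ℝ) + B ω) -
        B ω)) = ∑ ω ∈ C, w ω * (ψ (A ω + B ω) * (((A ω : ℝ) + B ω) * B ω)) +
      ∑ ω ∈ C, w ω * (ψ (A ω + B ω) * ((A ω : ℝ) + B ω)) -
      ∑ ω ∈ C, w ω * (ψ (A ω + B ω) * B ω) := by
    rw [← Finset.sum_add_distrib, ← Finset.sum_sub_distrib]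
    exact Finset.sum_congr rfl fun ω _ => by ring
  have e6 : ∑ ω ∈ C, w ω * (ψ (A ω + B ω) *
        ((B ω : ℝ) - x ^ 2 / (1 + x ^ 2) * ((A ω : ℝ) + B ω)) ^ 2) =
      ∑ ω ∈ C, w ω * (ψ (A ω + B ω) * (B ω : ℝ) ^ 2) -
      2 * (x ^ 2 / (1 + x ^ 2)) * ∑ ω ∈ C, w ω * (ψ (A ω + B ω) * (((A ω : ℝ) + B ω) * B ω)) +
      (x ^ 2 / (1 + x ^ 2)) ^ 2 * ∑ ω ∈ C, w ω * (ψ (A ω + B ω) * ((A ω : ℝ) + B ω) ^ 2) := by
    rw [Finset.mul_sum, Finset.mul_sum, ← Finset.sum_sub_distrib, ← Finset.sum_add_distrib]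
    exact Finset.sum_congr rfl fun ω _ => by ring
  rw [e5] at h2
  rw [e6]
  generalize ∑ ω ∈ C, w ω * (ψ (A ω + B ω) * (B ω : ℝ) ^ 2) = S2 at *
  generalize ∑ ω ∈ C, w ω * (ψ (A ω + B ω) * (((A ω : ℝ) + B ω) * B ω)) = SG at *
  generalize ∑ ω ∈ C, w ω * (ψ (A ω + B ω) * ((A ω : ℝ) + B ω) ^ 2) = GG at *
  generalize ∑ ω ∈ C, w ω * (ψ (A ω + B ω) * ((A ω : ℝ) + B ω)) = G1 at *
  generalize ∑ ω ∈ C, w ω * (ψ (A ω + B ω) * (B ω : ℝ)) = S1 at *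
  have hp : x ^ 2 / (1 + x ^ 2) * (1 + x ^ 2) = x ^ 2 := by field_simp
  generalize x ^ 2 / (1 + x ^ 2) = p at *
  generalize x ^ 2 = y at *
  have hS1 : S1 = p * G1 := by
    apply mul_left_cancel₀ hx
    linear_combination h1 - G1 * hp
  have hSG : SG = p * GG := by
    apply mul_left_cancel₀ hx
    linear_combination h3 - GG * hp
  have hS2 : S2 = p * (SG + G1 - S1) := by
    apply mul_left_cancel₀ hx
    linear_combination h2 - (SG + G1 - S1) * hp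
  rw [hS2, hSG, hS1]
  linear_combination (1 + y - p * (1 + y) - y) * G1 * hp

/-- lower bound for the fluctuations of the length -/
theorem Bal.var (h : Bal C w A B l x) (t : ℝ) :
    4 * x ^ 2 * ∑ ω ∈ C, w ω * ((A ω : ℝ) + B ω) ≤
      (1 + x ^ 2) ^ 2 * ∑ ω ∈ C, w ω * ((l ω : ℝ) - t) ^ 2 := by
  have hx : 0 < 1 + x ^ 2 := by have := h.pos; positivity
  have hx2 : 0 < x ^ 2 := by have := h.pos; positivity
  have h0 := h.moment (fun _ => 1)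
  have h1 := h.bal (fun _ _ m => (m : ℝ) - t)
  have h2 := h.first (fun _ => 1)
  simp only [one_mul] at h0 h2
  set d : Ω → ℝ := fun ω => (B ω : ℝ) - x ^ 2 / (1 + x ^ 2) * ((A ω : ℝ) + B ω) with hd
  have hp : x ^ 2 / (1 + x ^ 2) * (1 + x ^ 2) = x ^ 2 := by field_simp
  have hcov : (1 + x ^ 2) ^ 2 * ∑ ω ∈ C, w ω * (d ω * ((l ω : ℝ) - t)) =
      2 * x ^ 2 * ∑ ω ∈ C, w ω * ((A ω : ℝ) + B ω) := by
    have e1 : ∑ ω ∈ C, w ω * ((A ω : ℝ) * (((l ω + 2 : ℕ) : ℝ) - t)) =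
        ∑ ω ∈ C, w ω * ((A ω : ℝ) * ((l ω : ℝ) - t)) + 2 * ∑ ω ∈ C, w ω * (A ω : ℝ) := by
      rw [Finset.mul_sum, ← Finset.sum_add_distrib]
      refine Finset.sum_congr rfl fun ω _ => ?_
      push_cast
      ring
    have e2 : (1 + x ^ 2) * ∑ ω ∈ C, w ω * (d ω * ((l ω : ℝ) - t)) =
        ∑ ω ∈ C, w ω * ((B ω : ℝ) * ((l ω : ℝ) - t)) -
          x ^ 2 * ∑ ω ∈ C, w ω * ((A ω : ℝ) * ((l ω : ℝ) - t)) := by
      rw [Finset.mul_sum, Finset.mul_sum, ← Finset.sum_sub_distrib]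
      refine Finset.sum_congr rfl fun ω _ => ?_
      rw [hd]
      simp only
      linear_combination (-(w ω * ((A ω : ℝ) + B ω) * ((l ω : ℝ) - t))) * hp
    have e3 : ∑ ω ∈ C, w ω * ((A ω : ℝ) + B ω) =
        ∑ ω ∈ C, w ω * (A ω : ℝ) + ∑ ω ∈ C, w ω * (B ω : ℝ) := by
      rw [← Finset.sum_add_distrib]
      exact Finset.sum_congr rfl fun ω _ => by ring
    rw [e1] at h1
    rw [e3] at h2 ⊢
    generalize ∑ ω ∈ C, w ω * (A ω : ℝ) = SA at *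
    generalize ∑ ω ∈ C, w ω * (B ω : ℝ) = SB at *
    linear_combination (1 + x ^ 2) * e2 - (1 + x ^ 2) * h1 - 2 * x ^ 2 * h2
  have hcs := Finset.sum_mul_sq_le_sq_mul_sq C (fun ω => Real.sqrt (w ω) * d ω)
    (fun ω => Real.sqrt (w ω) * ((l ω : ℝ) - t))
  have f1 : ∑ ω ∈ C, (Real.sqrt (w ω) * d ω) * (Real.sqrt (w ω) * ((l ω : ℝ) - t)) =
      ∑ ω ∈ C, w ω * (d ω * ((l ω : ℝ) - t)) := by
    refine Finset.sum_congr rfl fun ω hω => ?_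
    have := Real.mul_self_sqrt (h.nn ω hω)
    linear_combination (d ω * ((l ω : ℝ) - t)) * this
  have f2 : ∑ ω ∈ C, (Real.sqrt (w ω) * d ω) ^ 2 = ∑ ω ∈ C, w ω * d ω ^ 2 := by
    refine Finset.sum_congr rfl fun ω hω => ?_
    rw [mul_pow, Real.sq_sqrt (h.nn ω hω)]
  have f3 : ∑ ω ∈ C, (Real.sqrt (w ω) * ((l ω : ℝ) - t)) ^ 2 =
      ∑ ω ∈ C, w ω * ((l ω : ℝ) - t) ^ 2 := by
    refine Finset.sum_congr rfl fun ω hω => ?_
    rw [mul_pow, Real.sq_sqrt (h.nn ω hω)]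
  rw [f1, f2, f3] at hcs
  have hG : 0 ≤ ∑ ω ∈ C, w ω * ((A ω : ℝ) + B ω) := by
    apply Finset.sum_nonneg
    intro ω hω
    have := h.nn ω hω
    positivity
  have hL : 0 ≤ ∑ ω ∈ C, w ω * ((l ω : ℝ) - t) ^ 2 := by
    apply Finset.sum_nonneg
    intro ω hω
    have := h.nn ω hω
    positivity
  generalize ∑ ω ∈ C, w ω * ((A ω : ℝ) + B ω) = G at *
  generalize ∑ ω ∈ C, w ω * ((l ω : ℝ) - t) ^ 2 = L at *
  generalize ∑ ω ∈ C, w ω * (d ω * ((l ω : ℝ) - t)) = S at *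
  generalize ∑ ω ∈ C, w ω * d ω ^ 2 = Q at *
  rcases eq_or_lt_of_le hG with hG0 | hG0
  · rw [← hG0]
    have : 0 ≤ (1 + x ^ 2) ^ 2 * L := by positivity
    linarith
  · have h3 : ((1 + x ^ 2) ^ 2 * S) ^ 2 ≤ (1 + x ^ 2) ^ 2 * ((1 + x ^ 2) ^ 2 * Q) * L := by
      have := mul_le_mul_of_nonneg_left hcs (by positivity : 0 ≤ ((1 + x ^ 2) ^ 2) ^ 2)
      linarith
    rw [hcov, h0] at h3
    have h4 : x ^ 2 * G * (4 * x ^ 2 * G) ≤ x ^ 2 * G * ((1 + x ^ 2) ^ 2 * L) := by linarith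
    exact le_of_mul_le_mul_left h4 (by positivity)

/-- comparison of the laws of `l` and `l + 2` -/
theorem Bal.shift (h : Bal C w A B l x) (η : ℝ) (F : Ω → ℝ) (f : ℕ → ℝ)
    (hF : ∀ ω ∈ C, 0 ≤ F ω ∧ F ω ≤ 1) (hf : ∀ k, 0 ≤ f k ∧ f k ≤ 1)
    (hb : |x ^ 2 * ∑ ω ∈ C, w ω * ((A ω : ℝ) / ((A ω : ℝ) + B ω + 1) * (F ω * f (l ω + 2))) -
        ∑ ω ∈ C, w ω * ((B ω : ℝ) / ((A ω : ℝ) + B ω + 1) * (F ω * f (l ω)))| ≤
      x ^ 2 * η * ∑ ω ∈ C, w ω) :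
    x ^ 2 * |∑ ω ∈ C, w ω * (F ω * f (l ω + 2)) - ∑ ω ∈ C, w ω * (F ω * f (l ω))| ≤
      2 * (1 + x ^ 2) ^ 2 * ∑ ω ∈ C, w ω * (1 / Real.sqrt ((A ω : ℝ) + B ω + 1)) +
        x ^ 2 * (1 + x ^ 2) * η * ∑ ω ∈ C, w ω := by
  have hx : 0 < 1 + x ^ 2 := by have := h.pos; positivity
  have hx2 : 0 < x ^ 2 := by have := h.pos; positivity
  have hp : x ^ 2 / (1 + x ^ 2) * (1 + x ^ 2) = x ^ 2 := by field_simp
  set d : Ω → ℝ := fun ω => (B ω : ℝ) - x ^ 2 / (1 + x ^ 2) * ((A ω : ℝ) + B ω) with hd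
  -- the fluctuation
  have hfl : ∑ ω ∈ C, w ω * (|d ω| / ((A ω : ℝ) + B ω + 1)) ≤
      ∑ ω ∈ C, w ω * (1 / Real.sqrt ((A ω : ℝ) + B ω + 1)) := by
    have hm := h.moment (fun g => 1 / ((g : ℝ) + 1) ^ (3 / 2 : ℝ))
    have h1 : ∀ ω ∈ C, w ω * (|d ω| / ((A ω : ℝ) + B ω + 1)) ≤
        1 / 2 * (w ω * (1 / (((A ω + B ω : ℕ) : ℝ) + 1) ^ (3 / 2 : ℝ) * d ω ^ 2)) +
        1 / 2 * (w ω * (1 / Real.sqrt ((A ω : ℝ) + B ω + 1))) := by
      intro ω hω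
      have hG : (0 : ℝ) < (A ω : ℝ) + B ω + 1 := by positivity
      have hs : 0 < Real.sqrt ((A ω : ℝ) + B ω + 1) := Real.sqrt_pos.2 hG
      have hss := Real.mul_self_sqrt hG.le
      have e1 : (((A ω + B ω : ℕ) : ℝ) + 1) ^ (3 / 2 : ℝ) =
          Real.sqrt ((A ω : ℝ) + B ω + 1) ^ 3 := by
        push_cast
        rw [Real.sqrt_eq_rpow, ← Real.rpow_natCast, ← Real.rpow_mul hG.le]
        norm_num
      rw [e1]
      have h2 : |d ω| / ((A ω : ℝ) + B ω + 1) ≤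
          1 / 2 * (1 / Real.sqrt ((A ω : ℝ) + B ω + 1) ^ 3 * d ω ^ 2) +
            1 / 2 * (1 / Real.sqrt ((A ω : ℝ) + B ω + 1)) := by
        rw [← sq_abs (d ω)]
        generalize Real.sqrt ((A ω : ℝ) + B ω + 1) = s at *
        rw [← hss]
        have h3 : 1 / 2 * (1 / s ^ 3 * |d ω| ^ 2) + 1 / 2 * (1 / s) - |d ω| / (s * s) =
            1 / 2 * (1 / s ^ 3) * (|d ω| - s) ^ 2 := by
          field_simp
          ring
        have h4 : 0 ≤ 1 / 2 * (1 / s ^ 3) * (|d ω| - s) ^ 2 := by positivity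
        linarith
      have h5 := mul_le_mul_of_nonneg_left h2 (h.nn ω hω)
      linarith
    have h2 := Finset.sum_le_sum h1
    rw [Finset.sum_add_distrib, ← Finset.mul_sum, ← Finset.mul_sum] at h2
    have h3 : ∑ ω ∈ C, w ω * (1 / (((A ω + B ω : ℕ) : ℝ) + 1) ^ (3 / 2 : ℝ) *
        ((A ω : ℝ) + B ω)) ≤ ∑ ω ∈ C, w ω * (1 / Real.sqrt ((A ω : ℝ) + B ω + 1)) := by
      refine Finset.sum_le_sum fun ω hω => ?_
      apply mul_le_mul_of_nonneg_left _ (h.nn ω hω)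
      have hG : (0 : ℝ) < (A ω : ℝ) + B ω + 1 := by positivity
      have hs : 0 < Real.sqrt ((A ω : ℝ) + B ω + 1) := Real.sqrt_pos.2 hG
      have hss := Real.mul_self_sqrt hG.le
      have e1 : (((A ω + B ω : ℕ) : ℝ) + 1) ^ (3 / 2 : ℝ) =
          Real.sqrt ((A ω : ℝ) + B ω + 1) ^ 3 := by
        push_cast
        rw [Real.sqrt_eq_rpow, ← Real.rpow_natCast, ← Real.rpow_mul hG.le]
        norm_num
      rw [e1]
      have h6 : (A ω : ℝ) + B ω ≤ Real.sqrt ((A ω : ℝ) + B ω + 1) ^ 2 := by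
        rw [sq, hss]; linarith
      generalize Real.sqrt ((A ω : ℝ) + B ω + 1) = s at *
      calc 1 / s ^ 3 * ((A ω : ℝ) + B ω) ≤ 1 / s ^ 3 * s ^ 2 := by gcongr
        _ = 1 / s := by field_simp
    have h4 : ∑ ω ∈ C, w ω * (1 / (((A ω + B ω : ℕ) : ℝ) + 1) ^ (3 / 2 : ℝ) * d ω ^ 2) ≤
        ∑ ω ∈ C, w ω * (1 / Real.sqrt ((A ω : ℝ) + B ω + 1)) := by
      have h5 : (1 + x ^ 2) ^ 2 *
          ∑ ω ∈ C, w ω * (1 / (((A ω + B ω : ℕ) : ℝ) + 1) ^ (3 / 2 : ℝ) * d ω ^ 2) ≤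
          (1 + x ^ 2) ^ 2 * ∑ ω ∈ C, w ω * (1 / Real.sqrt ((A ω : ℝ) + B ω + 1)) := by
        rw [hm]
        have h6 : x ^ 2 ≤ (1 + x ^ 2) ^ 2 := by nlinarith
        have h7 : 0 ≤ ∑ ω ∈ C, w ω * (1 / Real.sqrt ((A ω : ℝ) + B ω + 1)) := by
          apply Finset.sum_nonneg
          intro ω hω
          have := h.nn ω hω
          positivity
        calc x ^ 2 * _ ≤ x ^ 2 * ∑ ω ∈ C, w ω * (1 / Real.sqrt ((A ω : ℝ) + B ω + 1)) := by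
              gcongr
          _ ≤ _ := by gcongr
      exact le_of_mul_le_mul_left h5 (by positivity)
    linarith
  -- the identity
  have hid : x ^ 2 * (∑ ω ∈ C, w ω * (F ω * f (l ω + 2)) - ∑ ω ∈ C, w ω * (F ω * f (l ω))) =
      (1 + x ^ 2) * (x ^ 2 * ∑ ω ∈ C, w ω * ((A ω : ℝ) / ((A ω : ℝ) + B ω + 1) *
          (F ω * f (l ω + 2))) -
        ∑ ω ∈ C, w ω * ((B ω : ℝ) / ((A ω : ℝ) + B ω + 1) * (F ω * f (l ω)))) +
      ∑ ω ∈ C, w ω * (x ^ 2 / ((A ω : ℝ) + B ω + 1) * (F ω * f (l ω + 2) - F ω * f (l ω)) +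
        (1 + x ^ 2) * (d ω / ((A ω : ℝ) + B ω + 1)) *
          (x ^ 2 * (F ω * f (l ω + 2)) + F ω * f (l ω))) := by
    simp only [mul_sub, Finset.mul_sum, ← Finset.sum_sub_distrib, ← Finset.sum_add_distrib]
    refine Finset.sum_congr rfl fun ω _ => ?_
    have hG : (A ω : ℝ) + B ω + 1 ≠ 0 := by positivity
    rw [hd]
    simp only
    field_simp
    ring
  have hbd : |∑ ω ∈ C, w ω * (x ^ 2 / ((A ω : ℝ) + B ω + 1) *
        (F ω * f (l ω + 2) - F ω * f (l ω)) +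
        (1 + x ^ 2) * (d ω / ((A ω : ℝ) + B ω + 1)) *
          (x ^ 2 * (F ω * f (l ω + 2)) + F ω * f (l ω)))| ≤
      x ^ 2 * ∑ ω ∈ C, w ω * (1 / Real.sqrt ((A ω : ℝ) + B ω + 1)) +
        (1 + x ^ 2) ^ 2 * ∑ ω ∈ C, w ω * (|d ω| / ((A ω : ℝ) + B ω + 1)) := by
    refine (Finset.abs_sum_le_sum_abs _ _).trans ?_
    rw [Finset.mul_sum, Finset.mul_sum, ← Finset.sum_add_distrib]
    refine Finset.sum_le_sum fun ω hω => ?_
    have hw := h.nn ω hω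
    obtain ⟨F0, F1⟩ := hF ω hω
    obtain ⟨f0, f1⟩ := hf (l ω + 2)
    obtain ⟨g0, g1⟩ := hf (l ω)
    have hG : (0 : ℝ) < (A ω : ℝ) + B ω + 1 := by positivity
    have hG1 : (1 : ℝ) ≤ (A ω : ℝ) + B ω + 1 := by
      have : (0 : ℝ) ≤ (A ω : ℝ) + B ω := by positivity
      linarith
    have a0 : 0 ≤ F ω * f (l ω + 2) := by positivity
    have a1 : F ω * f (l ω + 2) ≤ 1 := by nlinarith
    have b0 : 0 ≤ F ω * f (l ω) := by positivity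
    have b1 : F ω * f (l ω) ≤ 1 := by nlinarith
    generalize F ω * f (l ω + 2) = u at *
    generalize F ω * f (l ω) = v at *
    rw [abs_mul, abs_of_nonneg hw]
    have k1 : |x ^ 2 / ((A ω : ℝ) + B ω + 1) * (u - v)| ≤
        x ^ 2 * (1 / Real.sqrt ((A ω : ℝ) + B ω + 1)) := by
      rw [abs_mul, abs_of_nonneg (by positivity)]
      have hs : 0 < Real.sqrt ((A ω : ℝ) + B ω + 1) := Real.sqrt_pos.2 hG
      have hs1 : Real.sqrt ((A ω : ℝ) + B ω + 1) ≤ (A ω : ℝ) + B ω + 1 := by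
        rw [Real.sqrt_le_left (by positivity)]
        nlinarith
      have huv : |u - v| ≤ 1 := by
        rw [abs_le]
        constructor <;> linarith
      calc x ^ 2 / ((A ω : ℝ) + B ω + 1) * |u - v|
          ≤ x ^ 2 / ((A ω : ℝ) + B ω + 1) * 1 := by gcongr
        _ = x ^ 2 * (1 / ((A ω : ℝ) + B ω + 1)) := by ring
        _ ≤ x ^ 2 * (1 / Real.sqrt ((A ω : ℝ) + B ω + 1)) := by gcongr
    have k2 : |(1 + x ^ 2) * (d ω / ((A ω : ℝ) + B ω + 1)) * (x ^ 2 * u + v)| ≤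
        (1 + x ^ 2) ^ 2 * (|d ω| / ((A ω : ℝ) + B ω + 1)) := by
      rw [abs_mul, abs_mul, abs_div, abs_of_pos hx, abs_of_pos hG,
        abs_of_nonneg (by positivity : 0 ≤ x ^ 2 * u + v)]
      have : x ^ 2 * u + v ≤ 1 + x ^ 2 := by nlinarith
      calc (1 + x ^ 2) * (|d ω| / ((A ω : ℝ) + B ω + 1)) * (x ^ 2 * u + v)
          ≤ (1 + x ^ 2) * (|d ω| / ((A ω : ℝ) + B ω + 1)) * (1 + x ^ 2) := by gcongr
        _ = _ := by ring
    have k3 := abs_add_le (x ^ 2 / ((A ω : ℝ) + B ω + 1) * (u - v))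
      ((1 + x ^ 2) * (d ω / ((A ω : ℝ) + B ω + 1)) * (x ^ 2 * u + v))
    have k4 := mul_le_mul_of_nonneg_left (k3.trans (add_le_add k1 k2)) hw
    linarith
  have e1 : x ^ 2 * |∑ ω ∈ C, w ω * (F ω * f (l ω + 2)) - ∑ ω ∈ C, w ω * (F ω * f (l ω))| =
      |x ^ 2 * (∑ ω ∈ C, w ω * (F ω * f (l ω + 2)) - ∑ ω ∈ C, w ω * (F ω * f (l ω)))| := by
    rw [abs_mul, abs_of_pos hx2]
  rw [e1, hid]
  have h7 : 0 ≤ ∑ ω ∈ C, w ω * (1 / Real.sqrt ((A ω : ℝ) + B ω + 1)) := by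
    apply Finset.sum_nonneg
    intro ω hω
    have := h.nn ω hω
    positivity
  refine (abs_add_le _ _).trans ?_
  rw [abs_mul, abs_of_pos hx]
  have h8 := mul_le_mul_of_nonneg_left hb hx.le
  have h9 := mul_le_mul_of_nonneg_left hfl (by positivity : 0 ≤ (1 + x ^ 2) ^ 2)
  have h10 : x ^ 2 * ∑ ω ∈ C, w ω * (1 / Real.sqrt ((A ω : ℝ) + B ω + 1)) ≤
      (1 + x ^ 2) ^ 2 * ∑ ω ∈ C, w ω * (1 / Real.sqrt ((A ω : ℝ) + B ω + 1)) := by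
    have : x ^ 2 ≤ (1 + x ^ 2) ^ 2 := by nlinarith
    gcongr
  linarith

/-- the joint weight of the number of good tiles, of `l - 2 B` and of `B` -/
noncomputable def Wt (C : Finset Ω) (w : Ω → ℝ) (A B l : Ω → ℕ) (g : ℕ) (l0 : ℤ) (j : ℕ) : ℝ :=
  ∑ ω ∈ C, w ω * (if A ω + B ω = g ∧ (l ω : ℤ) - 2 * B ω = l0 ∧ B ω = j then 1 else 0)

theorem Bal.step (h : Bal C w A B l x) (g : ℕ) (l0 : ℤ) (j : ℕ) :
    ((j : ℝ) + 1) * Wt C w A B l g l0 (j + 1) = x ^ 2 * (((g : ℝ) - j) * Wt C w A B l g l0 j) := by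
  have h1 := h.bal (fun G k m => if G = g ∧ (m : ℤ) - 2 * k = l0 ∧ k = j + 1 then 1 else 0)
  have e1 : ∑ ω ∈ C, w ω * ((A ω : ℝ) * (if A ω + B ω = g ∧
      ((l ω + 2 : ℕ) : ℤ) - 2 * ((B ω + 1 : ℕ) : ℤ) = l0 ∧ B ω + 1 = j + 1 then 1 else 0)) =
      ((g : ℝ) - j) * Wt C w A B l g l0 j := by
    unfold Wt
    rw [Finset.mul_sum]
    refine Finset.sum_congr rfl fun ω _ => ?_
    by_cases hc : A ω + B ω = g ∧ (l ω : ℤ) - 2 * B ω = l0 ∧ B ω = j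
    · rw [if_pos hc, if_pos ⟨hc.1, by push_cast; linarith [hc.2.1], by rw [hc.2.2]⟩]
      obtain ⟨h2, _, h3⟩ := hc
      have : (A ω : ℝ) = (g : ℝ) - j := by
        rw [← h2, ← h3]
        push_cast
        ring
      rw [this]
      ring
    · rw [if_neg hc, if_neg]
      · ring
      · rintro ⟨h2, h3, h4⟩
        apply hc
        refine ⟨h2, ?_, by omega⟩
        push_cast at h3
        linarith
  have e2 : ∑ ω ∈ C, w ω * ((B ω : ℝ) * (if A ω + B ω = g ∧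
      (l ω : ℤ) - 2 * (B ω : ℤ) = l0 ∧ B ω = j + 1 then 1 else 0)) =
      ((j : ℝ) + 1) * Wt C w A B l g l0 (j + 1) := by
    unfold Wt
    rw [Finset.mul_sum]
    refine Finset.sum_congr rfl fun ω _ => ?_
    by_cases hc : A ω + B ω = g ∧ (l ω : ℤ) - 2 * B ω = l0 ∧ B ω = j + 1
    · rw [if_pos hc, hc.2.2]
      push_cast
      ring
    · rw [if_neg hc]
      ring
  rw [e1, e2] at h1
  exact h1.symm

theorem Bal.binom (h : Bal C w A B l x) (g : ℕ) (l0 : ℤ) (j : ℕ) :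
    Wt C w A B l g l0 j = (g.choose j : ℝ) * (x ^ 2) ^ j * Wt C w A B l g l0 0 := by
  induction j with
  | zero => simp
  | succ j ih =>
    have h1 := h.step g l0 j
    rw [ih] at h1
    have hj : ((j : ℝ) + 1) ≠ 0 := by positivity
    apply mul_left_cancel₀ hj
    rw [h1]
    have h2 : ((g.choose (j + 1) : ℕ) : ℝ) * ((j : ℝ) + 1) = (g.choose j : ℝ) * ((g : ℝ) - j) := by
      rcases le_or_gt j g with hjg | hjg
      · have := Nat.choose_succ_right_eq g j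
        have h3 : ((g.choose (j + 1) * (j + 1) : ℕ) : ℝ) = ((g.choose j * (g - j) : ℕ) : ℝ) := by
          exact_mod_cast this
        push_cast [Nat.cast_sub hjg] at h3
        exact h3
      · rw [Nat.choose_eq_zero_of_lt hjg, Nat.choose_eq_zero_of_lt (by omega)]
        simp
    linear_combination (-(x ^ 2) ^ (j + 1) * Wt C w A B l g l0 0) * h2

theorem Bal.total (h : Bal C w A B l x) (g : ℕ) (l0 : ℤ) :
    ∑ ω ∈ C, w ω * (if A ω + B ω = g ∧ (l ω : ℤ) - 2 * B ω = l0 then 1 else 0) =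
      (1 + x ^ 2) ^ g * Wt C w A B l g l0 0 := by
  have h1 : ∑ ω ∈ C, w ω * (if A ω + B ω = g ∧ (l ω : ℤ) - 2 * B ω = l0 then 1 else 0) =
      ∑ j ∈ Finset.range (g + 1), Wt C w A B l g l0 j := by
    unfold Wt
    rw [Finset.sum_comm]
    refine Finset.sum_congr rfl fun ω _ => ?_
    rw [← Finset.mul_sum]
    congr 1
    by_cases hc : A ω + B ω = g ∧ (l ω : ℤ) - 2 * B ω = l0
    · rw [if_pos hc, Finset.sum_eq_single (B ω)]
      · rw [if_pos ⟨hc.1, hc.2, rfl⟩]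
      · intro j _ hj
        rw [if_neg]
        exact fun h => hj h.2.2.symm
      · intro hB
        exfalso
        apply hB
        rw [Finset.mem_range]
        omega
    · rw [if_neg hc]
      symm
      apply Finset.sum_eq_zero
      intro j _
      rw [if_neg]
      exact fun h => hc ⟨h.1, h.2.1⟩
  rw [h1]
  have h2 : ∀ j ∈ Finset.range (g + 1), Wt C w A B l g l0 j =
      ((x ^ 2) ^ j * 1 ^ (g - j) * (g.choose j : ℝ)) * Wt C w A B l g l0 0 := by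
    intro j _
    rw [h.binom g l0 j]
    ring
  rw [Finset.sum_congr rfl h2, ← Finset.sum_mul, ← add_pow, add_comm (x ^ 2) 1]

/-- the mixture of binomial laws -/
theorem Bal.mixture (h : Bal C w A B l x) (g : ℕ) (l0 : ℤ) (j : ℕ) :
    ∑ ω ∈ C, w ω * (if A ω + B ω = g ∧ (l ω : ℤ) - 2 * B ω = l0 ∧
        (l ω : ℤ) = l0 + 2 * j then 1 else 0) =
      (∑ ω ∈ C, w ω * (if A ω + B ω = g ∧ (l ω : ℤ) - 2 * B ω = l0 then 1 else 0)) *
        ((g.choose j : ℝ) * (x ^ 2 / (1 + x ^ 2)) ^ j * (1 / (1 + x ^ 2)) ^ (g - j)) := by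
  have hx : 0 < 1 + x ^ 2 := by have := h.pos; positivity
  have e1 : ∑ ω ∈ C, w ω * (if A ω + B ω = g ∧ (l ω : ℤ) - 2 * B ω = l0 ∧
        (l ω : ℤ) = l0 + 2 * j then 1 else 0) = Wt C w A B l g l0 j := by
    unfold Wt
    refine Finset.sum_congr rfl fun ω _ => ?_
    congr 1
    by_cases hc : A ω + B ω = g ∧ (l ω : ℤ) - 2 * B ω = l0 ∧ B ω = j
    · rw [if_pos hc, if_pos ⟨hc.1, hc.2.1, by have := hc.2.1; have := hc.2.2; omega⟩]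
    · rw [if_neg hc, if_neg]
      rintro ⟨h2, h3, h4⟩
      exact hc ⟨h2, h3, by omega⟩
  rw [e1, h.total, h.binom]
  rcases le_or_gt j g with hj | hj
  · have h2 : (1 + x ^ 2) ^ g = (1 + x ^ 2) ^ j * (1 + x ^ 2) ^ (g - j) := by
      rw [← pow_add]
      congr 1
      omega
    rw [h2, div_pow, div_pow, one_pow]
    field_simp
  · rw [Nat.choose_eq_zero_of_lt hj]
    simp

end Pool.Agent.V7H29.FE
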