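import Mathlib

set_option autoImplicit false

/-! Configurations of the O(n) model with a path: degrees and flips. -/

namespace Pool.Agent.V7H29.FE

open Finset

abbrev V := ℤ × ℤ

/-- adjacency of the honeycomb lattice in brick-wall coordinates -/
def Adj (p q : V) : Prop :=
  q - p = (1, 0) ∨ q - p = (-1, 0) ∨
  (q - p = (0, 1) ∧ Even (p.1 + p.2)) ∨
  (q - p = (0, -1) ∧ Even (q.1 + q.2))

instance : DecidableRel Adj := fun p q => by unfold Adj; infer_instance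

theorem adj_iff (p q : V) : Adj p q ↔
    (q.1 - p.1 = 1 ∧ q.2 - p.2 = 0) ∨ (q.1 - p.1 = -1 ∧ q.2 - p.2 = 0) ∨
    (q.1 - p.1 = 0 ∧ q.2 - p.2 = 1 ∧ (p.1 + p.2) % 2 = 0) ∨
    (q.1 - p.1 = 0 ∧ q.2 - p.2 = -1 ∧ (q.1 + q.2) % 2 = 0) := by
  unfold Adj
  rw [Prod.ext_iff, Prod.ext_iff, Prod.ext_iff, Prod.ext_iff, Int.even_iff, Int.even_iff]
  simp only [Prod.fst_sub, Prod.snd_sub]
  tauto

theorem adj_symm {p q : V} (h : Adj p q) : Adj q p := by
  rw [adj_iff] at *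
  omega

theorem adj_ne {p q : V} (h : Adj p q) : p ≠ q := by
  rw [adj_iff] at h
  rintro rfl
  omega

/-- the edges of the domain -/
def ED (D : Finset V) : Finset (Sym2 V) :=
  ((D ×ˢ D).filter (fun p => Adj p.1 p.2)).image (fun p => s(p.1, p.2))

theorem mem_ED {D : Finset V} {u v : V} : s(u, v) ∈ ED D ↔ u ∈ D ∧ v ∈ D ∧ Adj u v := by
  unfold ED
  rw [Finset.mem_image]
  constructor
  · rintro ⟨⟨p, q⟩, h1, h2⟩
    rw [Finset.mem_filter, Finset.mem_product] at h1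
    simp only at h1 h2
    rw [Sym2.eq_iff] at h2
    rcases h2 with ⟨rfl, rfl⟩ | ⟨rfl, rfl⟩
    · exact ⟨h1.1.1, h1.1.2, h1.2⟩
    · exact ⟨h1.1.2, h1.1.1, adj_symm h1.2⟩
  · rintro ⟨h1, h2, h3⟩
    exact ⟨(u, v), by rw [Finset.mem_filter, Finset.mem_product]; exact ⟨⟨h1, h2⟩, h3⟩, rfl⟩

/-- the degree -/
def deg (ω : Finset (Sym2 V)) (v : V) : ℕ := (ω.filter (fun e => v ∈ e)).card

/-- the configurations -/
def Configs (D : Finset V) (a b : V) : Finset (Finset (Sym2 V)) :=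
  (ED D).powerset.filter (fun ω =>
    (∀ v ∈ D, v ≠ a → v ≠ b → deg ω v = 0 ∨ deg ω v = 2) ∧ deg ω a = 1 ∧ deg ω b = 1)

theorem mem_Configs {D : Finset V} {a b : V} {ω : Finset (Sym2 V)} : ω ∈ Configs D a b ↔
    ω ⊆ ED D ∧ (∀ v ∈ D, v ≠ a → v ≠ b → deg ω v = 0 ∨ deg ω v = 2) ∧
      deg ω a = 1 ∧ deg ω b = 1 := by
  unfold Configs
  rw [Finset.mem_filter, Finset.mem_powerset]

/-- the third neighbour -/
def tn (v : V) : V := if (v.1 + v.2) % 2 = 0 then (v.1, v.2 + 1) else (v.1, v.2 - 1)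

def eR (v : V) : Sym2 V := s(v, (v.1 + 1, v.2))

def eL (v : V) : Sym2 V := s(v, (v.1 - 1, v.2))

def eT (v : V) : Sym2 V := s(v, tn v)

theorem adj_tn (v : V) : Adj v (tn v) := by
  unfold tn
  rw [adj_iff]
  split_ifs with h <;> simp only <;> omega

theorem nbr_three {v w : V} (h : Adj v w) : w = (v.1 + 1, v.2) ∨ w = (v.1 - 1, v.2) ∨ w = tn v := by
  rw [adj_iff] at h
  unfold tn
  obtain ⟨a, b⟩ := v
  obtain ⟨c, d⟩ := w
  simp only at *
  split_ifs with h2 <;> simp only [Prod.mk.injEq] <;> omega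

theorem edge_three {D : Finset V} {e : Sym2 V} (he : e ∈ ED D) {v : V} (hv : v ∈ e) :
    e = eR v ∨ e = eL v ∨ e = eT v := by
  obtain ⟨w, rfl⟩ := Sym2.mem_iff_exists.1 hv
  rw [mem_ED] at he
  rcases nbr_three he.2.2 with h | h | h
  · left; rw [eR, ← h]
  · right; left; rw [eL, ← h]
  · right; right; rw [eT, ← h]

theorem mem_eR (v : V) : v ∈ eR v := Sym2.mem_mk_left _ _

theorem mem_eL (v : V) : v ∈ eL v := Sym2.mem_mk_left _ _

theorem mem_eT (v : V) : v ∈ eT v := Sym2.mem_mk_left _ _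

theorem eR_ne_eL (v : V) : eR v ≠ eL v := by
  unfold eR eL
  intro h
  rw [Sym2.congr_right, Prod.mk.injEq] at h
  omega

theorem eR_ne_eT (v : V) : eR v ≠ eT v := by
  unfold eR eT tn
  intro h
  rw [Sym2.congr_right] at h
  split_ifs at h <;> rw [Prod.mk.injEq] at h <;> omega

theorem eL_ne_eT (v : V) : eL v ≠ eT v := by
  unfold eL eT tn
  intro h
  rw [Sym2.congr_right] at h
  split_ifs at h <;> rw [Prod.mk.injEq] at h <;> omega

theorem deg_three {D : Finset V} {ω : Finset (Sym2 V)} (hω : ω ⊆ ED D) (v : V) :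
    deg ω v = (if eR v ∈ ω then 1 else 0) + ((if eL v ∈ ω then 1 else 0) +
      (if eT v ∈ ω then 1 else 0)) := by
  unfold deg
  have h : ω.filter (fun e => v ∈ e) =
      ({eR v, eL v, eT v} : Finset (Sym2 V)).filter (fun e => e ∈ ω) := by
    ext e
    simp only [Finset.mem_filter, Finset.mem_insert, Finset.mem_singleton]
    constructor
    · rintro ⟨h1, h2⟩
      exact ⟨edge_three (hω h1) h2, h1⟩
    · rintro ⟨h1, h2⟩
      refine ⟨h2, ?_⟩
      rcases h1 with rfl | rfl | rfl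
      · exact mem_eR v
      · exact mem_eL v
      · exact mem_eT v
  rw [h, Finset.card_filter, Finset.sum_insert, Finset.sum_insert, Finset.sum_singleton]
  · rw [Finset.mem_singleton]
    exact eL_ne_eT v
  · rw [Finset.mem_insert, Finset.mem_singleton]
    rintro (h | h)
    · exact eR_ne_eL v h
    · exact eR_ne_eT v h

/-- the parity of the degree -/
def pr (ω : Finset (Sym2 V)) (v : V) : Bool :=
  xor (decide (eR v ∈ ω)) (xor (decide (eL v ∈ ω)) (decide (eT v ∈ ω)))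

theorem pr_symm (ω η : Finset (Sym2 V)) (v : V) : pr (symmDiff ω η) v = xor (pr ω v) (pr η v) := by
  unfold pr
  simp only [Finset.mem_symmDiff]
  by_cases h1 : eR v ∈ ω <;> by_cases h2 : eR v ∈ η <;> by_cases h3 : eL v ∈ ω <;>
    by_cases h4 : eL v ∈ η <;> by_cases h5 : eT v ∈ ω <;> by_cases h6 : eT v ∈ η <;>
    simp [h1, h2, h3, h4, h5, h6]

theorem deg_pr {D : Finset V} {ω : Finset (Sym2 V)} (hω : ω ⊆ ED D) (v : V) :
    (deg ω v = 0 ∨ deg ω v = 2) ↔ pr ω v = false := by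
  rw [deg_three hω]
  unfold pr
  by_cases h1 : eR v ∈ ω <;> by_cases h3 : eL v ∈ ω <;> by_cases h5 : eT v ∈ ω <;>
    simp [h1, h3, h5]

/-- flips which preserve the configurations -/
theorem flip_config {D : Finset V} {a b : V} {ω η : Finset (Sym2 V)} (hω : ω ∈ Configs D a b)
    (hη : η ⊆ ED D) (hp : ∀ v, pr η v = false) (hab : ∀ e ∈ η, a ∉ e ∧ b ∉ e) :
    symmDiff ω η ∈ Configs D a b := by
  rw [mem_Configs] at *
  obtain ⟨h1, h2, h3, h4⟩ := hω
  have hs : symmDiff ω η ⊆ ED D := by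
    intro e he
    rw [Finset.mem_symmDiff] at he
    rcases he with he | he
    · exact h1 he.1
    · exact hη he.1
  have hdeg : ∀ v, (∀ e ∈ η, v ∉ e) → deg (symmDiff ω η) v = deg ω v := by
    intro v hv
    have m1 : ∀ e, v ∈ e → (e ∈ symmDiff ω η ↔ e ∈ ω) := by
      intro e he
      rw [Finset.mem_symmDiff]
      have : e ∉ η := fun h => hv e h he
      tauto
    unfold deg
    congr 1
    ext e
    simp only [Finset.mem_filter]
    constructor
    · rintro ⟨h5, h6⟩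
      exact ⟨(m1 e h6).1 h5, h6⟩
    · rintro ⟨h5, h6⟩
      exact ⟨(m1 e h6).2 h5, h6⟩
  refine ⟨hs, ?_, ?_, ?_⟩
  · intro v hv ha hb
    rw [deg_pr hs, pr_symm, hp v, (deg_pr h1 v).1 (h2 v hv ha hb)]
    rfl
  · rw [hdeg a (fun e he => (hab e he).1), h3]
  · rw [hdeg b (fun e he => (hab e he).2), h4]

end Pool.Agent.V7H29.FE
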