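import Pool.Agent.V7H29.FE.Ind

set_option autoImplicit false

/-! The exponential inequality. -/

namespace Pool.Agent.V7H29.FE

open Finset

def Good (ω : Finset (Sym2 V)) (a c : V) : Prop := Short ω a c ∨ Long ω a c

theorem Good.vis {ω : Finset (Sym2 V)} {a c : V} (h : Good ω a c) : Vis ω a c := by
  rcases h with ⟨k, _, h⟩ | ⟨k, _, h⟩ <;> exact ⟨_, add_mem_tile (u_TV k), h⟩

open scoped Classical in
/-- the factor of a tile -/
noncomputable def fa (μ : ℝ) (ω : Finset (Sym2 V)) (a c : V) : ℝ :=
  if Vis ω a c then μ * (if Good ω a c then 1 / 2 else 1) else 1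

/-- the product over the tiles of `U` -/
noncomputable def PF (μ : ℝ) (U : Finset V) (a : V) (ω : Finset (Sym2 V)) : ℝ :=
  ∏ c ∈ U, fa μ ω a c

theorem fa_nonneg {μ : ℝ} (hμ : 0 ≤ μ) (ω : Finset (Sym2 V)) (a c : V) : 0 ≤ fa μ ω a c := by
  unfold fa
  split_ifs <;> positivity

theorem PF_nonneg {μ : ℝ} (hμ : 0 ≤ μ) (U : Finset V) (a : V) (ω : Finset (Sym2 V)) :
    0 ≤ PF μ U a ω := Finset.prod_nonneg fun c _ => fa_nonneg hμ ω a c

/-- the constant -/
noncomputable def KK (n x : ℝ) : ℝ := 128 * K0 n x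

noncomputable def mu (n x : ℝ) : ℝ := 1 / (1 - 1 / (2 * KK n x))

theorem KK_pos {n x : ℝ} (hn : 0 < n) (hx : 0 < x) : 128 ≤ KK n x := by
  unfold KK
  have := one_le_K0 hn hx
  linarith

theorem mu_gt {n x : ℝ} (hn : 0 < n) (hx : 0 < x) : 1 < mu n x := by
  have h := KK_pos hn hx
  unfold mu
  have h1 : 0 < 1 / (2 * KK n x) := by positivity
  have h2 : 1 / (2 * KK n x) < 1 := by
    rw [div_lt_one (by positivity)]
    linarith
  rw [lt_div_iff₀ (by linarith)]
  linarith

theorem mu_eq {n x : ℝ} (hn : 0 < n) (hx : 0 < x) (S : ℝ) :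
    mu n x * (S - 1 / 2 * (S / KK n x)) = S := by
  have h := KK_pos hn hx
  unfold mu
  have h2 : 1 / (2 * KK n x) < 1 := by
    rw [div_lt_one (by positivity)]
    linarith
  have h3 : 1 - 1 / (2 * KK n x) ≠ 0 := by linarith
  have h4 : KK n x ≠ 0 := by linarith
  have h5 : S - 1 / 2 * (S / KK n x) = S * (1 - 1 / (2 * KK n x)) := by
    field_simp
  rw [h5]
  generalize 1 - 1 / (2 * KK n x) = d at *
  field_simp

/-- the sum over the configurations with the pattern -/
theorem star_sum {D : Finset V} {a b c : V} (hI : Ins D a b c) {n x : ℝ} (hn : 0 < n)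
    (hx : 0 < x) {U : Finset V} (hc : c ∈ U) (i : Fin 12) (f : Finset (Sym2 V) → ℝ)
    (hf0 : ∀ ω, 0 ≤ f ω)
    (hf : ∀ ω ∈ Configs D a b, ∀ ω' ∈ Configs D a b, AgrU U ω ω' → f ω = f ω')
    (S : Finset (Finset (Sym2 V))) (hS : ∀ ω, ω ∈ S ↔ ω ∈ Configs D a b ∧ Star ω c i) :
    ∑ ω ∈ Configs D a b, wt n x a ω * f ω ≤ KK n x * ∑ ω ∈ S, wt n x a ω * f ω := by
  have hK := one_le_K0 hn hx
  have h1 : ∀ ω ∈ Configs D a b, wt n x a ω * f ω ≤
      K0 n x * (wt n x a (st ω c i) * f (st ω c i)) := by
    intro ω hω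
    rw [← hf ω hω _ (st_config hI hω i) (st_AgrU hI hc ω i), ← mul_assoc]
    exact mul_le_mul_of_nonneg_right (wt_ratio hI hn hx ω i) (hf0 ω)
  have hmap : ∀ ω ∈ Configs D a b, st ω c i ∈ S := by
    intro ω hω
    rw [hS]
    exact ⟨st_config hI hω i, st_star ω c i⟩
  calc ∑ ω ∈ Configs D a b, wt n x a ω * f ω
      ≤ ∑ ω ∈ Configs D a b, K0 n x * (wt n x a (st ω c i) * f (st ω c i)) :=
        Finset.sum_le_sum h1
    _ = K0 n x * ∑ ω ∈ Configs D a b, wt n x a (st ω c i) * f (st ω c i) := by
        rw [Finset.mul_sum]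
    _ = K0 n x * ∑ ω' ∈ S, ∑ ω ∈ (Configs D a b).filter (fun ω => st ω c i = ω'),
          wt n x a (st ω c i) * f (st ω c i) := by
        rw [Finset.sum_fiberwise_of_maps_to hmap]
    _ = K0 n x * ∑ ω' ∈ S, ((Configs D a b).filter (fun ω => st ω c i = ω')).card *
          (wt n x a ω' * f ω') := by
        congr 1
        refine Finset.sum_congr rfl fun ω' _ => ?_
        rw [← nsmul_eq_mul, ← Finset.sum_const]
        refine Finset.sum_congr rfl fun ω hω => ?_
        rw [(Finset.mem_filter.1 hω).2]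
    _ ≤ K0 n x * ∑ ω' ∈ S, 128 * (wt n x a ω' * f ω') := by
        apply mul_le_mul_of_nonneg_left _ (by linarith)
        refine Finset.sum_le_sum fun ω' _ => ?_
        apply mul_le_mul_of_nonneg_right
        · exact_mod_cast st_fiber (Configs D a b) c i ω'
        · have := (wt_pos hn hx a ω').le
          have := hf0 ω'
          positivity
    _ = KK n x * ∑ ω ∈ S, wt n x a ω * f ω := by
        rw [← Finset.mul_sum]
        unfold KK
        ring

/-- the inductive statement -/
def Claim (D : Finset V) (a b : V) (n x : ℝ) (U : Finset V) : Prop :=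
  ∀ f : Finset (Sym2 V) → ℝ, (∀ ω, 0 ≤ f ω) →
    (∀ ω ∈ Configs D a b, ∀ ω' ∈ Configs D a b, AgrU U ω ω' → f ω = f ω') →
    ∑ ω ∈ Configs D a b, wt n x a ω * (f ω * PF (mu n x) U a ω) ≤
      ∑ ω ∈ Configs D a b, wt n x a ω * f ω

/-- one step of the exploration -/
theorem step {D : Finset V} {a b : V} {n x : ℝ} (hn : 0 < n) (hx : 0 < x) {U : Finset V}
    (hU : ∀ c ∈ U, Ins D a b c) {c : V} (hc : c ∈ U) (i : Fin 12)
    (ih : Claim D a b n x (U.erase c)) (f : Finset (Sym2 V) → ℝ) (hf0 : ∀ ω, 0 ≤ f ω)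
    (hf : ∀ ω ∈ Configs D a b, ∀ ω' ∈ Configs D a b, AgrU U ω ω' → f ω = f ω')
    (hr : ∀ ω ∈ Configs D a b, f ω ≠ 0 → Reach ω a (att i + c)) :
    ∑ ω ∈ Configs D a b, wt n x a ω * (f ω * PF (mu n x) U a ω) ≤
      ∑ ω ∈ Configs D a b, wt n x a ω * f ω := by
  classical
  have hI := hU c hc
  have hμ := mu_gt hn hx
  have hK := KK_pos hn hx
  have hC : ∀ c ∈ U, IsC c := fun c hc => (hU c hc).1
  set f' : Finset (Sym2 V) → ℝ := fun ω => f ω * (if Star ω c i then 1 / 2 else 1) with hf'
  have h1 : ∀ ω ∈ Configs D a b, wt n x a ω * (f ω * PF (mu n x) U a ω) ≤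
      mu n x * (wt n x a ω * (f' ω * PF (mu n x) (U.erase c) a ω)) := by
    intro ω hω
    by_cases h0 : f ω = 0
    · rw [hf']
      simp only [h0]
      simp
    · have hreach := hr ω hω h0
      have hV : Vis ω a c := ⟨_, att_mem i c, hreach⟩
      have hP : PF (mu n x) U a ω = fa (mu n x) ω a c * PF (mu n x) (U.erase c) a ω := by
        unfold PF
        rw [Finset.mul_prod_erase U _ hc]
      have hfa : fa (mu n x) ω a c ≤ mu n x * (if Star ω c i then 1 / 2 else 1) := by
        unfold fa
        rw [if_pos hV]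
        by_cases hs : Star ω c i
        · have hg : Good ω a c := Or.inl (star_short hI hω i hs.1 hs.2 hreach)
          rw [if_pos hg, if_pos hs]
        · rw [if_neg hs]
          split_ifs <;> linarith
      rw [hP, hf']
      have hw := (wt_pos hn hx a ω).le
      have hPn := PF_nonneg (by linarith : 0 ≤ mu n x) (U.erase c) a ω
      have hfn := hf0 ω
      calc wt n x a ω * (f ω * (fa (mu n x) ω a c * PF (mu n x) (U.erase c) a ω))
          ≤ wt n x a ω * (f ω * ((mu n x * (if Star ω c i then 1 / 2 else 1)) *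
              PF (mu n x) (U.erase c) a ω)) := by gcongr
        _ = _ := by ring
  have h2 := ih f' (fun ω => by rw [hf']; have := hf0 ω; simp only; split_ifs <;> positivity)
    (fun ω hω ω' hω' hA => by
      rw [hf']
      simp only
      rw [hf ω hω ω' hω' (hA.mono (Finset.erase_subset _ _))]
      congr 1
      have := Star.congr hC hI.1 hA i
      by_cases hs : Star ω c i
      · rw [if_pos hs, if_pos (this.1 hs)]
      · rw [if_neg hs, if_neg (fun h => hs (this.2 h))])
  have h3 : ∑ ω ∈ Configs D a b, wt n x a ω * f' ω =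
      ∑ ω ∈ Configs D a b, wt n x a ω * f ω -
        1 / 2 * ∑ ω ∈ (Configs D a b).filter (fun ω => Star ω c i), wt n x a ω * f ω := by
    rw [Finset.sum_filter, Finset.mul_sum, ← Finset.sum_sub_distrib]
    refine Finset.sum_congr rfl fun ω _ => ?_
    rw [hf']
    simp only
    split_ifs <;> ring
  have h4 := star_sum hI hn hx hc i f hf0 hf ((Configs D a b).filter (fun ω => Star ω c i))
    (fun ω => Finset.mem_filter)
  calc ∑ ω ∈ Configs D a b, wt n x a ω * (f ω * PF (mu n x) U a ω)
      ≤ ∑ ω ∈ Configs D a b, mu n x * (wt n x a ω * (f' ω * PF (mu n x) (U.erase c) a ω)) :=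
        Finset.sum_le_sum h1
    _ = mu n x * ∑ ω ∈ Configs D a b, wt n x a ω * (f' ω * PF (mu n x) (U.erase c) a ω) := by
        rw [Finset.mul_sum]
    _ ≤ mu n x * ∑ ω ∈ Configs D a b, wt n x a ω * f' ω := by gcongr
    _ ≤ mu n x * (∑ ω ∈ Configs D a b, wt n x a ω * f ω -
          1 / 2 * ((∑ ω ∈ Configs D a b, wt n x a ω * f ω) / KK n x)) := by
        rw [h3]
        have h5 : (∑ ω ∈ Configs D a b, wt n x a ω * f ω) / KK n x ≤
            ∑ ω ∈ (Configs D a b).filter (fun ω => Star ω c i), wt n x a ω * f ω := by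
          rw [div_le_iff₀ (by linarith)]
          linarith
        gcongr
    _ = ∑ ω ∈ Configs D a b, wt n x a ω * f ω := mu_eq hn hx _

open scoped Classical in
/-- the entrances -/
noncomputable def Ent (U : Finset V) (a : V) (ω : Finset (Sym2 V)) : Finset (V × Fin 12) :=
  (U ×ˢ Finset.univ).filter (fun p => RU U ω a (att p.2 + p.1))

theorem Ent.congr {U : Finset V} {a : V} {ω ω' : Finset (Sym2 V)} (h : AgrU U ω ω') :
    Ent U a ω = Ent U a ω' := by
  classical
  unfold Ent
  refine Finset.filter_congr fun p _ => ?_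
  exact ⟨fun h1 => h1.congr h, fun h1 => h1.congr h.symm⟩

open scoped Classical in
/-- the chosen entrance -/
noncomputable def ch (U : Finset V) (a : V) (ω : Finset (Sym2 V)) : Option (V × Fin 12) :=
  if h : (Ent U a ω).Nonempty then some h.choose else none

theorem ch.congr {U : Finset V} {a : V} {ω ω' : Finset (Sym2 V)} (h : AgrU U ω ω') :
    ch U a ω = ch U a ω' := by
  unfold ch
  rw [Ent.congr h]

theorem ch_some {U : Finset V} {a : V} {ω : Finset (Sym2 V)} {p : V × Fin 12}
    (h : ch U a ω = some p) : p.1 ∈ U ∧ RU U ω a (att p.2 + p.1) := by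
  classical
  unfold ch at h
  split_ifs at h with h1
  have h2 := h1.choose_spec
  rw [Option.some.injEq] at h
  rw [h] at h2
  unfold Ent at h2
  rw [Finset.mem_filter, Finset.mem_product] at h2
  exact ⟨h2.1.1, h2.2⟩

theorem ch_none {D : Finset V} {a b : V} {U : Finset V} (hU : ∀ c ∈ U, Ins D a b c)
    {ω : Finset (Sym2 V)} (hω : ω ∈ Configs D a b) (h : ch U a ω = none) :
    ∀ c ∈ U, ¬ Vis ω a c := by
  classical
  intro c hc hV
  obtain ⟨c', hc', v, hv, hr⟩ := vis_RU hc hV
  obtain ⟨i, rfl⟩ := RU_att hU hω hc' hv hr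
  unfold ch at h
  split_ifs at h with h1
  apply h1
  refine ⟨(c', i), ?_⟩
  unfold Ent
  rw [Finset.mem_filter, Finset.mem_product]
  exact ⟨⟨hc', Finset.mem_univ _⟩, hr⟩

/-- the exponential inequality -/
theorem claim {D : Finset V} {a b : V} {n x : ℝ} (hn : 0 < n) (hx : 0 < x) :
    ∀ (N : ℕ) (U : Finset V), U.card = N → (∀ c ∈ U, Ins D a b c) → Claim D a b n x U := by
  classical
  intro N
  induction N with
  | zero =>
    intro U hU _ f hf0 hf
    rw [Finset.card_eq_zero] at hU
    subst hU
    apply le_of_eq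
    refine Finset.sum_congr rfl fun ω _ => ?_
    unfold PF
    simp
  | succ N ih =>
    intro U hcard hU f hf0 hf
    rw [← Finset.sum_fiberwise_of_maps_to (t := (Configs D a b).image (ch U a))
        (g := ch U a) (fun ω hω => Finset.mem_image_of_mem _ hω),
      ← Finset.sum_fiberwise_of_maps_to (s := Configs D a b)
        (t := (Configs D a b).image (ch U a))
        (g := ch U a) (fun ω hω => Finset.mem_image_of_mem _ hω)]
    refine Finset.sum_le_sum fun o _ => ?_
    match o with
    | none =>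
      apply le_of_eq
      refine Finset.sum_congr rfl fun ω hω => ?_
      rw [Finset.mem_filter] at hω
      have h1 := ch_none hU hω.1 hω.2
      have h2 : PF (mu n x) U a ω = 1 := by
        unfold PF
        apply Finset.prod_eq_one
        intro c hc
        unfold fa
        rw [if_neg (h1 c hc)]
      rw [h2, mul_one]
    | some p =>
      by_cases hp : p.1 ∈ U
      · have h1 := step hn hx hU hp p.2
          (ih (U.erase p.1) (by rw [Finset.card_erase_of_mem hp, hcard]; rfl)
            (fun c hc => hU c (Finset.mem_of_mem_erase hc)))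
          (fun ω => if ch U a ω = some p then f ω else 0)
          (fun ω => by split_ifs; exact hf0 ω; exact le_refl _)
          (fun ω hω ω' hω' hA => by
            rw [ch.congr hA, hf ω hω ω' hω' hA])
          (fun ω hω h => by
            split_ifs at h with h2
            · exact (ch_some h2).2.reach
            · exact absurd rfl h)
        rw [Finset.sum_filter, Finset.sum_filter]
        have e1 : (∑ ω ∈ Configs D a b, if ch U a ω = some p then
            wt n x a ω * (f ω * PF (mu n x) U a ω) else 0) =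
            ∑ ω ∈ Configs D a b, wt n x a ω * ((if ch U a ω = some p then f ω else 0) *
              PF (mu n x) U a ω) := by
          refine Finset.sum_congr rfl fun ω _ => ?_
          split_ifs <;> simp
        have e2 : (∑ ω ∈ Configs D a b, if ch U a ω = some p then
            wt n x a ω * f ω else 0) =
            ∑ ω ∈ Configs D a b, wt n x a ω * (if ch U a ω = some p then f ω else 0) := by
          refine Finset.sum_congr rfl fun ω _ => ?_
          split_ifs <;> simp
        rw [e1, e2]
        exact h1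
      · have h1 : (Configs D a b).filter (fun ω => ch U a ω = some p) = ∅ := by
          rw [Finset.filter_eq_empty_iff]
          intro ω _ h
          exact hp (ch_some h).1
        rw [h1]
        simp

end Pool.Agent.V7H29.FE
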