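import Pool.Agent.V7H29.FE.Exp
import Pool.Agent.V7H29.FE.Abs

set_option autoImplicit false

/-! Assembly. -/

namespace Pool.Agent.V7H29.FE

open Finset

open scoped Classical in
/-- the centres of the tiles inside the domain -/
noncomputable def TT (D : Finset V) (a b : V) : Finset V :=
  (D.image ctr).filter (fun c => Ins D a b c)

theorem mem_TT {D : Finset V} {a b c : V} : c ∈ TT D a b ↔ Ins D a b c := by
  classical
  unfold TT
  rw [Finset.mem_filter]
  constructor
  · exact fun h => h.2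
  · intro h
    refine ⟨?_, h⟩
    rw [Finset.mem_image]
    exact ⟨u 0 + c, h.2.1 _ (add_mem_tile (u_TV 0)), ctr_unique h.1 (add_mem_tile (u_TV 0))⟩

open scoped Classical in
noncomputable def nM (D : Finset V) (a b : V) (ω : Finset (Sym2 V)) : ℕ :=
  ((TT D a b).filter (fun c => Vis ω a c)).card

open scoped Classical in
noncomputable def nA (D : Finset V) (a b : V) (ω : Finset (Sym2 V)) : ℕ :=
  ((TT D a b).filter (fun c => Short ω a c)).card

open scoped Classical in
noncomputable def nB (D : Finset V) (a b : V) (ω : Finset (Sym2 V)) : ℕ :=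
  ((TT D a b).filter (fun c => Long ω a c)).card

theorem nAB (D : Finset V) (a b : V) (ω : Finset (Sym2 V)) [DecidablePred (fun c => Good ω a c)] :
    nA D a b ω + nB D a b ω = ((TT D a b).filter (fun c => Good ω a c)).card := by
  classical
  unfold nA nB
  rw [← Finset.card_union_of_disjoint, ← Finset.filter_or]
  · congr 1
    ext c
    simp only [Finset.mem_filter]
    rfl
  · rw [Finset.disjoint_filter]
    intro c _ h1 h2
    exact not_both h1 h2

theorem PF_eq (μ : ℝ) (D : Finset V) (a b : V) (ω : Finset (Sym2 V)) :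
    PF μ (TT D a b) a ω = μ ^ nM D a b ω * (1 / 2) ^ (nA D a b ω + nB D a b ω) := by
  classical
  unfold PF
  have h : ∀ c ∈ TT D a b, fa μ ω a c =
      (if Vis ω a c then μ else 1) * (if Good ω a c then 1 / 2 else 1) := by
    intro c _
    unfold fa
    by_cases hV : Vis ω a c
    · rw [if_pos hV, if_pos hV]
    · rw [if_neg hV, if_neg hV, if_neg (fun h => hV h.vis), one_mul]
  rw [Finset.prod_congr rfl h, Finset.prod_mul_distrib, Finset.prod_ite, Finset.prod_ite, nAB]
  simp only [Finset.prod_const, one_pow, mul_one]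
  rfl

theorem exp_ineq {D : Finset V} {a b : V} {n x : ℝ} (hn : 0 < n) (hx : 0 < x) :
    ∑ ω ∈ Configs D a b, wt n x a ω *
        (mu n x ^ nM D a b ω * (1 / 2) ^ (nA D a b ω + nB D a b ω)) ≤
      ∑ ω ∈ Configs D a b, wt n x a ω := by
  have h := claim hn hx _ (TT D a b) rfl (fun c hc => mem_TT.1 hc) (fun _ => 1)
    (fun _ => zero_le_one) (fun _ _ _ _ _ => rfl)
  simp only [one_mul, mul_one, PF_eq] at h
  exact h

theorem counts_fl {D : Finset V} {a b c : V} (hc : c ∈ TT D a b) {ω : Finset (Sym2 V)}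
    (hω : ω ∈ Configs D a b) (h : Short ω a c) :
    nA D a b (fl ω c) + 1 = nA D a b ω ∧ nB D a b (fl ω c) = nB D a b ω + 1 := by
  classical
  have hI := mem_TT.1 hc
  obtain ⟨h1, h2, h3, h4, h5⟩ := flip_short hI hω h
  have key : ∀ c' ∈ TT D a b, c' ≠ c → (Short (fl ω c) a c' ↔ Short ω a c') ∧
      (Long (fl ω c) a c' ↔ Long ω a c') := by
    intro c' hc' hne
    exact other_same hI.1 (mem_TT.1 hc').1 hne h5
  unfold nA nB
  constructor
  · have e : (TT D a b).filter (fun c' => Short ω a c') =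
        insert c ((TT D a b).filter (fun c' => Short (fl ω c) a c')) := by
      ext c'
      rw [Finset.mem_insert, Finset.mem_filter, Finset.mem_filter]
      by_cases he : c' = c
      · subst he
        simp [hc, h]
      · constructor
        · rintro ⟨h6, h7⟩
          exact Or.inr ⟨h6, ((key c' h6 he).1).2 h7⟩
        · rintro (h6 | ⟨h6, h7⟩)
          · exact absurd h6 he
          · exact ⟨h6, ((key c' h6 he).1).1 h7⟩
    rw [e, Finset.card_insert_of_notMem]
    intro h6
    exact not_both (Finset.mem_filter.1 h6).2 h1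
  · have e : (TT D a b).filter (fun c' => Long (fl ω c) a c') =
        insert c ((TT D a b).filter (fun c' => Long ω a c')) := by
      ext c'
      rw [Finset.mem_insert, Finset.mem_filter, Finset.mem_filter]
      by_cases he : c' = c
      · subst he
        simp [hc, h1]
      · constructor
        · rintro ⟨h6, h7⟩
          exact Or.inr ⟨h6, ((key c' h6 he).2).1 h7⟩
        · rintro (h6 | ⟨h6, h7⟩)
          · exact absurd h6 he
          · exact ⟨h6, ((key c' h6 he).2).2 h7⟩
    rw [e, Finset.card_insert_of_notMem]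
    intro h6
    exact not_both h (Finset.mem_filter.1 h6).2

open scoped Classical in
/-- detailed balance -/
theorem balance (D : Finset V) (a b : V) (n x : ℝ) (Φ : Finset (Sym2 V) → ℝ) :
    x ^ 2 * ∑ ω ∈ Configs D a b, wt n x a ω *
        ∑ c ∈ (TT D a b).filter (fun c => Short ω a c), Φ (fl ω c) =
      ∑ ω ∈ Configs D a b, wt n x a ω * ((nB D a b ω : ℝ) * Φ ω) := by
  have h : ∀ c ∈ TT D a b,
      x ^ 2 * ∑ ω ∈ (Configs D a b).filter (fun ω => Short ω a c), wt n x a ω * Φ (fl ω c) =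
        ∑ ω ∈ (Configs D a b).filter (fun ω => Long ω a c), wt n x a ω * Φ ω := by
    intro c hc
    exact balance_one (mem_TT.1 hc) n x Φ _ _ (fun ω => Finset.mem_filter)
      (fun ω => Finset.mem_filter)
  have e1 : ∑ ω ∈ Configs D a b, wt n x a ω *
        ∑ c ∈ (TT D a b).filter (fun c => Short ω a c), Φ (fl ω c) =
      ∑ c ∈ TT D a b, ∑ ω ∈ (Configs D a b).filter (fun ω => Short ω a c),
        wt n x a ω * Φ (fl ω c) := by
    simp only [Finset.sum_filter, Finset.mul_sum]
    rw [Finset.sum_comm]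
    refine Finset.sum_congr rfl fun c _ => Finset.sum_congr rfl fun ω _ => ?_
    split_ifs <;> simp
  have e2 : ∑ ω ∈ Configs D a b, wt n x a ω * ((nB D a b ω : ℝ) * Φ ω) =
      ∑ c ∈ TT D a b, ∑ ω ∈ (Configs D a b).filter (fun ω => Long ω a c),
        wt n x a ω * Φ ω := by
    simp only [Finset.sum_filter]
    rw [Finset.sum_comm]
    refine Finset.sum_congr rfl fun ω _ => ?_
    rw [← Finset.sum_filter, Finset.sum_const, nsmul_eq_mul]
    unfold nB
    ring
  rw [e1, e2, Finset.mul_sum]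
  exact Finset.sum_congr rfl h

theorem bal {D : Finset V} {a b : V} {n x : ℝ} (hn : 0 < n) (hx : 0 < x) :
    Bal (Configs D a b) (wt n x a) (nA D a b) (nB D a b) (fun ω => len ω a) x := by
  classical
  refine ⟨hx, fun ω _ => (wt_pos hn hx a ω).le, fun K => ?_⟩
  have h := balance D a b n x
    (fun ω => K (nA D a b ω + nB D a b ω) (nB D a b ω) (len ω a))
  rw [← h]
  congr 1
  refine Finset.sum_congr rfl fun ω hω => ?_
  congr 1
  have h1 : ∀ c ∈ (TT D a b).filter (fun c => Short ω a c),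
      K (nA D a b (fl ω c) + nB D a b (fl ω c)) (nB D a b (fl ω c)) (len (fl ω c) a) =
        K (nA D a b ω + nB D a b ω) (nB D a b ω + 1) (len ω a + 2) := by
    intro c hc
    rw [Finset.mem_filter] at hc
    obtain ⟨h2, h3⟩ := counts_fl hc.1 hω hc.2
    have h4 := (flip_short (mem_TT.1 hc.1) hω hc.2).2.2.2.1
    rw [h3, h4]
    congr 1
    omega
  rw [Finset.sum_congr rfl h1, Finset.sum_const, nsmul_eq_mul]
  rfl

/-- the functional form -/
theorem bal_F {D : Finset V} {a b : V} {n x : ℝ} (hn : 0 < n) (hx : 0 < x) (η : ℝ) (hη : 0 ≤ η)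
    (F : Finset (Sym2 V) → ℝ) (f : ℕ → ℝ) (hf : ∀ k, 0 ≤ f k ∧ f k ≤ 1)
    (hF : ∀ ω ∈ Configs D a b, ∀ c ∈ TT D a b, Short ω a c → |F (fl ω c) - F ω| ≤ η) :
    |x ^ 2 * ∑ ω ∈ Configs D a b, wt n x a ω *
          ((nA D a b ω : ℝ) / ((nA D a b ω : ℝ) + nB D a b ω + 1) * (F ω * f (len ω a + 2))) -
        ∑ ω ∈ Configs D a b, wt n x a ω *
          ((nB D a b ω : ℝ) / ((nA D a b ω : ℝ) + nB D a b ω + 1) * (F ω * f (len ω a)))| ≤
      x ^ 2 * η * ∑ ω ∈ Configs D a b, wt n x a ω := by
  classical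
  have h := balance D a b n x
    (fun ω => 1 / ((nA D a b ω : ℝ) + nB D a b ω + 1) * (F ω * f (len ω a)))
  have e2 : ∑ ω ∈ Configs D a b, wt n x a ω *
          ((nB D a b ω : ℝ) / ((nA D a b ω : ℝ) + nB D a b ω + 1) * (F ω * f (len ω a))) =
      ∑ ω ∈ Configs D a b, wt n x a ω * ((nB D a b ω : ℝ) *
        (1 / ((nA D a b ω : ℝ) + nB D a b ω + 1) * (F ω * f (len ω a)))) :=
    Finset.sum_congr rfl fun ω _ => by ring
  rw [e2, ← h, ← mul_sub, abs_mul, abs_of_pos (by positivity : 0 < x ^ 2), mul_assoc]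
  apply mul_le_mul_of_nonneg_left _ (by positivity)
  rw [← Finset.sum_sub_distrib]
  refine (Finset.abs_sum_le_sum_abs _ _).trans ?_
  rw [Finset.mul_sum]
  refine Finset.sum_le_sum fun ω hω => ?_
  have hw := (wt_pos hn hx a ω).le
  have hG : (0 : ℝ) < (nA D a b ω : ℝ) + nB D a b ω + 1 := by positivity
  rw [← mul_sub, abs_mul, abs_of_nonneg hw, mul_comm η]
  apply mul_le_mul_of_nonneg_left _ hw
  have h1 : ∀ c ∈ (TT D a b).filter (fun c => Short ω a c),
      1 / ((nA D a b (fl ω c) : ℝ) + nB D a b (fl ω c) + 1) *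
          (F (fl ω c) * f (len (fl ω c) a)) =
        1 / ((nA D a b ω : ℝ) + nB D a b ω + 1) * (F (fl ω c) * f (len ω a + 2)) := by
    intro c hc
    rw [Finset.mem_filter] at hc
    obtain ⟨h2, h3⟩ := counts_fl hc.1 hω hc.2
    have h4 := (flip_short (mem_TT.1 hc.1) hω hc.2).2.2.2.1
    have h5 : (nA D a b (fl ω c) : ℝ) + nB D a b (fl ω c) = (nA D a b ω : ℝ) + nB D a b ω := by
      have : nA D a b (fl ω c) + nB D a b (fl ω c) = nA D a b ω + nB D a b ω := by omega
      exact_mod_cast this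
    rw [h5, h4]
  rw [Finset.sum_congr rfl h1]
  have h2 : (nA D a b ω : ℝ) / ((nA D a b ω : ℝ) + nB D a b ω + 1) * (F ω * f (len ω a + 2)) -
      ∑ c ∈ (TT D a b).filter (fun c => Short ω a c),
        1 / ((nA D a b ω : ℝ) + nB D a b ω + 1) * (F (fl ω c) * f (len ω a + 2)) =
      ∑ c ∈ (TT D a b).filter (fun c => Short ω a c),
        1 / ((nA D a b ω : ℝ) + nB D a b ω + 1) * ((F ω - F (fl ω c)) * f (len ω a + 2)) := by
    have h3 : (nA D a b ω : ℝ) / ((nA D a b ω : ℝ) + nB D a b ω + 1) *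
        (F ω * f (len ω a + 2)) = ∑ c ∈ (TT D a b).filter (fun c => Short ω a c),
          1 / ((nA D a b ω : ℝ) + nB D a b ω + 1) * (F ω * f (len ω a + 2)) := by
      rw [Finset.sum_const, nsmul_eq_mul]
      have : (((TT D a b).filter (fun c => Short ω a c)).card : ℝ) = nA D a b ω := rfl
      rw [this]
      ring
    rw [h3, ← Finset.sum_sub_distrib]
    exact Finset.sum_congr rfl fun c _ => by ring
  rw [h2]
  refine (Finset.abs_sum_le_sum_abs _ _).trans ?_
  have h3 : ∀ c ∈ (TT D a b).filter (fun c => Short ω a c),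
      |1 / ((nA D a b ω : ℝ) + nB D a b ω + 1) * ((F ω - F (fl ω c)) * f (len ω a + 2))| ≤
        1 / ((nA D a b ω : ℝ) + nB D a b ω + 1) * η := by
    intro c hc
    rw [Finset.mem_filter] at hc
    obtain ⟨f0, f1⟩ := hf (len ω a + 2)
    rw [abs_mul, abs_of_pos (by positivity)]
    apply mul_le_mul_of_nonneg_left _ (by positivity)
    rw [abs_mul, abs_of_nonneg f0, abs_sub_comm]
    calc |F (fl ω c) - F ω| * f (len ω a + 2) ≤ η * 1 := by
          have := hF ω hω c hc.1 hc.2
          gcongr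
      _ = η := mul_one _
  refine (Finset.sum_le_sum h3).trans ?_
  rw [Finset.sum_const, nsmul_eq_mul]
  have h4 : (((TT D a b).filter (fun c => Short ω a c)).card : ℝ) = nA D a b ω := rfl
  rw [h4]
  have h5 : (nA D a b ω : ℝ) * (1 / ((nA D a b ω : ℝ) + nB D a b ω + 1)) ≤ 1 := by
    rw [mul_one_div, div_le_one hG]
    have : (0 : ℝ) ≤ nB D a b ω := by positivity
    linarith
  calc (nA D a b ω : ℝ) * (1 / ((nA D a b ω : ℝ) + nB D a b ω + 1) * η)
      = ((nA D a b ω : ℝ) * (1 / ((nA D a b ω : ℝ) + nB D a b ω + 1))) * η := by ring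
    _ ≤ 1 * η := by gcongr
    _ = η := one_mul _

end Pool.Agent.V7H29.FE
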