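import Pool.Agent.V7H29.FE.Good

set_option autoImplicit false

/-! Flips: weights, lengths, and the detailed balance identity. -/

namespace Pool.Agent.V7H29.FE

open Finset

theorem flip_core {ω ω' : Finset (Sym2 V)} {a c : V} {k : Fin 6}
    (hag : Agree (HW c : Set V) ω ω') (ha : a ∉ HW c)
    (hc1 : ∀ j, (∃ e ∈ ω, u j + c ∈ e) → Reach ω (u k + c) (u j + c))
    (hc2 : ∀ j, (∃ e ∈ ω', u j + c ∈ e) → Reach ω' (u k + c) (u j + c))
    (hr : Reach ω a (u k + c)) :
    Reach ω' a (u k + c) ∧ OnPath (HW c : Set V) ω a ∧ OnPath (HW c : Set V) ω' a := by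
  have h1 : Reach ω' a (u k + c) := by
    obtain ⟨w, hw, h2, h3⟩ := still hag (by exact_mod_cast ha)
      (by exact_mod_cast mem_HW.2 ⟨k, rfl⟩) hr
    rw [Finset.mem_coe, mem_HW] at hw
    obtain ⟨j, rfl⟩ := hw
    exact h2.trans (hc2 j h3).symm
  refine ⟨h1, ?_, ?_⟩
  · intro w hw hinc
    rw [Finset.mem_coe, mem_HW] at hw
    obtain ⟨j, rfl⟩ := hw
    exact hr.trans (hc1 j hinc)
  · intro w hw hinc
    rw [Finset.mem_coe, mem_HW] at hw
    obtain ⟨j, rfl⟩ := hw
    exact h1.trans (hc2 j hinc)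

theorem g_inj : ∀ k k' : Fin 6, g k = g k' → k = k' := by decide +kernel

theorem card_two : ∀ k : Fin 6, (Finset.univ.filter (fun k' => k' = k ∨ k' = k + 1)).card = 2 := by
  decide

theorem card_four : ∀ k : Fin 6,
    (Finset.univ.filter (fun k' => ¬ (k' = k ∨ k' = k + 1))).card = 4 := by
  decide

theorem card_part {ω : Finset (Sym2 V)} {c : V} (p : Fin 6 → Prop) [DecidablePred p]
    (h : ∀ k', tr c (g k') ∈ ω ↔ p k') :
    (trS c H ∩ ω).card = (Finset.univ.filter p).card ∧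
      (trS c H \ ω).card = (Finset.univ.filter (fun k => ¬ p k)).card := by
  have hinj : Function.Injective (fun k : Fin 6 => tr c (g k)) := by
    intro k k' hk
    exact g_inj _ _ (tr_inj c hk)
  have e0 : trS c H = Finset.univ.image (fun k : Fin 6 => tr c (g k)) := by
    unfold trS H
    rw [Finset.image_image]
    rfl
  constructor
  · have e1 : trS c H ∩ ω = (Finset.univ.filter p).image (fun k : Fin 6 => tr c (g k)) := by
      ext e
      rw [e0, Finset.mem_inter, Finset.mem_image, Finset.mem_image]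
      constructor
      · rintro ⟨⟨k, _, rfl⟩, h2⟩
        exact ⟨k, Finset.mem_filter.2 ⟨Finset.mem_univ _, (h k).1 h2⟩, rfl⟩
      · rintro ⟨k, h1, rfl⟩
        exact ⟨⟨k, Finset.mem_univ _, rfl⟩, (h k).2 (Finset.mem_filter.1 h1).2⟩
    rw [e1, Finset.card_image_of_injective _ hinj]
  · have e1 : trS c H \ ω =
        (Finset.univ.filter (fun k => ¬ p k)).image (fun k : Fin 6 => tr c (g k)) := by
      ext e
      rw [e0, Finset.mem_sdiff, Finset.mem_image, Finset.mem_image]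
      constructor
      · rintro ⟨⟨k, _, rfl⟩, h2⟩
        exact ⟨k, Finset.mem_filter.2 ⟨Finset.mem_univ _, fun h3 => h2 ((h k).2 h3)⟩, rfl⟩
      · rintro ⟨k, h1, rfl⟩
        exact ⟨⟨k, Finset.mem_univ _, rfl⟩, fun h3 => (Finset.mem_filter.1 h1).2 ((h k).1 h3)⟩
    rw [e1, Finset.card_image_of_injective _ hinj]

theorem card_fl (ω : Finset (Sym2 V)) (c : V) :
    (fl ω c).card + (trS c H ∩ ω).card = ω.card + (trS c H \ ω).card := by
  have e1 : fl ω c = (ω \ (trS c H ∩ ω)) ∪ (trS c H \ ω) := by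
    unfold fl
    ext e
    rw [Finset.mem_symmDiff, Finset.mem_union, Finset.mem_sdiff, Finset.mem_sdiff,
      Finset.mem_inter]
    tauto
  have hd : Disjoint (ω \ (trS c H ∩ ω)) (trS c H \ ω) := by
    rw [Finset.disjoint_left]
    intro e h1 h2
    exact (Finset.mem_sdiff.1 h2).2 (Finset.mem_sdiff.1 h1).1
  have h1 := Finset.card_sdiff_add_card_eq_card (s := trS c H ∩ ω) (t := ω)
    Finset.inter_subset_right
  rw [e1, Finset.card_union_of_disjoint hd]
  omega

theorem tr_other {c c' : V} (hc : IsC c) (hc' : IsC c') (hne : c' ≠ c) (k : Fin 6) :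
    tr c' (g k) ∉ trS c H := by
  intro h
  unfold trS at h
  rw [Finset.mem_image] at h
  obtain ⟨e, h1, h2⟩ := h
  obtain ⟨j, rfl⟩ := H_mem h1
  have h3 : u k + c' ∈ tr c (g j) := by
    rw [h2]
    exact Sym2.mem_mk_left _ _
  have h4 : u k + c' ∈ tile c := by
    unfold g at h3
    rw [tr_mk, Sym2.mem_iff] at h3
    rcases h3 with h3 | h3
    · rw [h3]; exact add_mem_tile (u_TV _)
    · rw [h3]; exact add_mem_tile (u_TV _)
  have h5 : u k + c' ∈ tile c' := add_mem_tile (u_TV _)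
  exact hne (by rw [← ctr_unique hc' h5, ctr_unique hc h4])

theorem fl_other (ω : Finset (Sym2 V)) {c c' : V} (hc : IsC c) (hc' : IsC c') (hne : c' ≠ c)
    (k : Fin 6) : tr c' (g k) ∈ fl ω c ↔ tr c' (g k) ∈ ω := by
  unfold fl
  rw [Finset.mem_symmDiff]
  have := tr_other hc hc' hne k
  tauto

theorem pe_iff {ω ω' : Finset (Sym2 V)} {a : V} (h : ω \ pe ω a = ω' \ pe ω' a) {e : Sym2 V}
    (h1 : e ∈ ω) (h2 : e ∈ ω') : e ∈ pe ω a ↔ e ∈ pe ω' a := by
  by_contra hc
  have h3 : e ∈ ω \ pe ω a ↔ e ∈ ω' \ pe ω' a := by rw [h]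
  rw [Finset.mem_sdiff, Finset.mem_sdiff] at h3
  tauto

theorem g_last (c : V) (k : Fin 6) : u k + c ∈ tr c (g (k + 5)) := by
  have h : k + 5 + 1 = k := (fin_facts k).2.2.2.2.2.2.2.2.2.1
  unfold g
  rw [tr_mk, h]
  exact Sym2.mem_mk_right _ _

theorem g_first (c : V) (k : Fin 6) : u k + c ∈ tr c (g k) := by
  unfold g
  rw [tr_mk]
  exact Sym2.mem_mk_left _ _

/-- what is the same after a flip elsewhere -/
theorem other_same {ω : Finset (Sym2 V)} {a c c' : V} (hc : IsC c) (hc' : IsC c')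
    (hne : c' ≠ c) (h : ω \ pe ω a = fl ω c \ pe (fl ω c) a) :
    (Short (fl ω c) a c' ↔ Short ω a c') ∧ (Long (fl ω c) a c' ↔ Long ω a c') := by
  have hm := fun k => fl_other ω hc hc' hne k
  have hS : ∀ k, Sh (fl ω c) c' k ↔ Sh ω c' k := by
    intro k
    unfold Sh
    simp only [hm]
  have hL : ∀ k, Lg (fl ω c) c' k ↔ Lg ω c' k := by
    intro k
    unfold Lg
    simp only [hm]
  constructor
  · unfold Short
    refine exists_congr fun k => ?_
    rw [hS]
    refine and_congr_right fun h1 => ?_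
    have e1 : tr c' (g k) ∈ ω := (h1 k).2 (Or.inl rfl)
    have e2 : tr c' (g k) ∈ fl ω c := (hm k).2 e1
    rw [reach_pe e2 (g_first c' k), reach_pe e1 (g_first c' k)]
    exact (pe_iff h e1 e2).symm
  · unfold Long
    refine exists_congr fun k => ?_
    rw [hL]
    refine and_congr_right fun h1 => ?_
    have hf := fin_facts k
    have e1 : tr c' (g (k + 5)) ∈ ω := (h1 _).2 (not_or.2 ⟨hf.1, hf.2.1⟩)
    have e2 : tr c' (g (k + 5)) ∈ fl ω c := (hm _).2 e1
    rw [reach_pe e2 (g_last c' k), reach_pe e1 (g_last c' k)]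
    exact (pe_iff h e1 e2).symm

theorem flip_short {D : Finset V} {a b c : V} (hI : Ins D a b c) {ω : Finset (Sym2 V)}
    (hω : ω ∈ Configs D a b) (h : Short ω a c) :
    Long (fl ω c) a c ∧ loops (fl ω c) a = loops ω a ∧ (fl ω c).card = ω.card + 2 ∧
      len (fl ω c) a = len ω a + 2 ∧ ω \ pe ω a = fl ω c \ pe (fl ω c) a := by
  obtain ⟨k, hk, hr⟩ := h
  have ha : a ∉ HW c := fun h => hI.2.2.1 (HW_tile h)
  have hω' := fl_config hI hω
  obtain ⟨h1, h2, h3⟩ := flip_core (fl_agree ω c) ha (fun j hj => conn_sh hI hω hk hj)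
    (fun j hj => conn_lg hI hω' (sh_fl hk) hj) hr
  have h4 := nonpath_eq (fl_agree ω c) h2 h3
  have h5 : (fl ω c).card = ω.card + 2 := by
    have c1 := card_fl ω c
    obtain ⟨c2, c3⟩ := card_part (fun k' => k' = k ∨ k' = k + 1) hk
    rw [card_two k] at c2
    rw [card_four k] at c3
    omega
  refine ⟨⟨k, sh_fl hk, h1⟩, (loops_eq (fl_agree ω c) h2 h3).symm, h5, ?_, h4⟩
  have := len_card h4
  omega

theorem flip_long {D : Finset V} {a b c : V} (hI : Ins D a b c) {ω : Finset (Sym2 V)}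
    (hω : ω ∈ Configs D a b) (h : Long ω a c) : Short (fl ω c) a c := by
  obtain ⟨k, hk, hr⟩ := h
  have ha : a ∉ HW c := fun h => hI.2.2.1 (HW_tile h)
  have hω' := fl_config hI hω
  obtain ⟨h1, h2, h3⟩ := flip_core (fl_agree ω c) ha (fun j hj => conn_lg hI hω hk hj)
    (fun j hj => conn_sh hI hω' (lg_fl hk) hj) hr
  exact ⟨k, lg_fl hk, h1⟩

theorem not_both {ω : Finset (Sym2 V)} {a c : V} (h1 : Short ω a c) (h2 : Long ω a c) : False := by
  obtain ⟨k, hk, _⟩ := h1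
  obtain ⟨k', hk', _⟩ := h2
  obtain ⟨c2, _⟩ := card_part (fun j => j = k ∨ j = k + 1) hk
  obtain ⟨c3, _⟩ := card_part (fun j => ¬ (j = k' ∨ j = k' + 1)) hk'
  rw [card_two k] at c2
  rw [card_four k'] at c3
  omega

theorem wt_fl {n x : ℝ} {ω ω' : Finset (Sym2 V)} {a : V} (h1 : loops ω' a = loops ω a)
    (h2 : ω'.card = ω.card + 2) : wt n x a ω' = x ^ 2 * wt n x a ω := by
  unfold wt
  rw [h1, h2, pow_add]
  ring

/-- detailed balance at one tile -/
theorem balance_one {D : Finset V} {a b c : V} (hI : Ins D a b c) (n x : ℝ)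
    (Φ : Finset (Sym2 V) → ℝ) (S L : Finset (Finset (Sym2 V)))
    (hS : ∀ ω, ω ∈ S ↔ ω ∈ Configs D a b ∧ Short ω a c)
    (hL : ∀ ω, ω ∈ L ↔ ω ∈ Configs D a b ∧ Long ω a c) :
    x ^ 2 * ∑ ω ∈ S, wt n x a ω * Φ (fl ω c) = ∑ ω ∈ L, wt n x a ω * Φ ω := by
  rw [Finset.mul_sum]
  refine Finset.sum_bij' (fun ω _ => fl ω c) (fun ω _ => fl ω c) ?_ ?_ ?_ ?_ ?_
  · intro ω hω
    rw [hS] at hω
    rw [hL]
    exact ⟨fl_config hI hω.1, (flip_short hI hω.1 hω.2).1⟩
  · intro ω hω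
    rw [hL] at hω
    rw [hS]
    exact ⟨fl_config hI hω.1, flip_long hI hω.1 hω.2⟩
  · intro ω _
    exact fl_fl ω c
  · intro ω _
    exact fl_fl ω c
  · intro ω hω
    rw [hS] at hω
    obtain ⟨_, h2, h3, _, _⟩ := flip_short hI hω.1 hω.2
    rw [wt_fl h2 h3]
    ring

end Pool.Agent.V7H29.FE
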