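import Pool.Agent.V7H29.FE.Star

set_option autoImplicit false

/-! Good tiles and their flips. -/

namespace Pool.Agent.V7H29.FE

open Finset

/-- the pattern of two consecutive edges -/
def Sh (ω : Finset (Sym2 V)) (c : V) (k : Fin 6) : Prop :=
  ∀ k', tr c (g k') ∈ ω ↔ (k' = k ∨ k' = k + 1)

/-- the complementary pattern of four consecutive edges -/
def Lg (ω : Finset (Sym2 V)) (c : V) (k : Fin 6) : Prop :=
  ∀ k', tr c (g k') ∈ ω ↔ ¬ (k' = k ∨ k' = k + 1)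

def Short (ω : Finset (Sym2 V)) (a c : V) : Prop := ∃ k, Sh ω c k ∧ Reach ω a (u k + c)

def Long (ω : Finset (Sym2 V)) (a c : V) : Prop := ∃ k, Lg ω c k ∧ Reach ω a (u k + c)

theorem fin_facts : ∀ k : Fin 6, k + 5 ≠ k ∧ k + 5 ≠ k + 1 ∧ k + 1 ≠ k ∧
    k + 2 ≠ k ∧ k + 2 ≠ k + 1 ∧ k + 3 ≠ k ∧ k + 3 ≠ k + 1 ∧ k + 4 ≠ k ∧ k + 4 ≠ k + 1 ∧
    k + 5 + 1 = k ∧ k + 1 + 5 = k ∧ k + 2 + 5 = k + 1 ∧ k + 3 + 5 = k + 2 ∧ k + 4 + 5 = k + 3 ∧
    k + 5 + 5 = k + 4 := by decide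

theorem fin_cases6 : ∀ k j : Fin 6, j = k ∨ j = k + 1 ∨ j = k + 2 ∨ j = k + 3 ∨ j = k + 4 ∨
    j = k + 5 := by decide

theorem star_short {D : Finset V} {a b c : V} (hI : Ins D a b c) {ω : Finset (Sym2 V)}
    (hω : ω ∈ Configs D a b) (i : Fin 12) (h1 : ∀ k, tr c (g k) ∈ ω ↔ k = ks i ∨ k = ks i + 1)
    (h2 : tr c (ep i) ∈ ω) (h3 : Reach ω a (att i + c)) : Short ω a c := by
  refine ⟨ks i, h1, ?_⟩
  have h4 := pr_conf hI hω (add_mem_tile (c := c) (u_TV (ks i)))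
  rw [pr_u hI.1.even] at h4
  have h5 : tr c (g (ks i)) ∈ ω := (h1 _).2 (Or.inl rfl)
  have h6 : tr c (g (ks i + 5)) ∉ ω := by
    rw [h1]
    have := fin_facts (ks i)
    tauto
  have h7 : tr c (spk (ks i)) ∈ ω := by
    by_contra h7
    simp [h5, h6, h7] at h4
  have h8 : Reach ω (att i + c) (sp (ks i) + c) := Reach.edge h2
  have h9 : Reach ω (u (ks i) + c) (sp (ks i) + c) := Reach.edge h7
  exact (h3.trans h8).trans h9.symm

/-- the vertices of the central hexagon -/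
def HW (c : V) : Finset V := Finset.univ.image (fun k => u k + c)

theorem mem_HW {c v : V} : v ∈ HW c ↔ ∃ k, v = u k + c := by
  unfold HW
  rw [Finset.mem_image]
  exact ⟨fun ⟨k, _, h⟩ => ⟨k, h.symm⟩, fun ⟨k, h⟩ => ⟨k, Finset.mem_univ _, h.symm⟩⟩

theorem HW_tile {c v : V} (h : v ∈ HW c) : v ∈ tile c := by
  obtain ⟨k, rfl⟩ := mem_HW.1 h
  exact add_mem_tile (u_TV k)

/-- the flipped configuration -/
def fl (ω : Finset (Sym2 V)) (c : V) : Finset (Sym2 V) := symmDiff ω (trS c H)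

theorem g_mem_H (k : Fin 6) : g k ∈ H := by
  unfold H
  exact Finset.mem_image_of_mem _ (Finset.mem_univ _)

theorem fl_g (ω : Finset (Sym2 V)) (c : V) (k : Fin 6) :
    tr c (g k) ∈ fl ω c ↔ tr c (g k) ∉ ω := by
  unfold fl
  rw [Finset.mem_symmDiff, mem_trS]
  have := g_mem_H k
  tauto

theorem fl_fl (ω : Finset (Sym2 V)) (c : V) : fl (fl ω c) c = ω := by
  unfold fl
  rw [symmDiff_assoc, symmDiff_self]
  simp

theorem u_adj : ∀ k : Fin 6, Adj (u k) (u (k + 1)) := by decide +kernel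

theorem H_mem {e : Sym2 V} (h : e ∈ H) : ∃ k, e = g k := by
  unfold H at h
  rw [Finset.mem_image] at h
  obtain ⟨k, _, h⟩ := h
  exact ⟨k, h.symm⟩

theorem H_mem' {e : Sym2 V} (h : e ∈ H) :
    ∃ p q, e = s(p, q) ∧ p ∈ TV ∧ q ∈ TV ∧ Adj p q := by
  obtain ⟨k, rfl⟩ := H_mem h
  exact ⟨u k, u (k + 1), rfl, u_TV _, u_TV _, u_adj k⟩

theorem pr_H (v : V) : pr H v = false := by
  by_cases h : v ∈ TV
  · exact H_pr v h
  · have h1 : ∀ e, v ∈ e → e ∉ H := by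
      intro e he hE
      obtain ⟨p, q, rfl, hp, hq, _⟩ := H_mem' hE
      rw [Sym2.mem_iff] at he
      rcases he with rfl | rfl
      · exact h hp
      · exact h hq
    unfold pr
    simp [h1 _ (mem_eR v), h1 _ (mem_eL v), h1 _ (mem_eT v)]

theorem fl_config {D : Finset V} {a b c : V} (hI : Ins D a b c) {ω : Finset (Sym2 V)}
    (hω : ω ∈ Configs D a b) : fl ω c ∈ Configs D a b := by
  obtain ⟨h1, h2, _⟩ := trS_sub hI (S := H) (fun e he => H_mem' he)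
  refine flip_config hω h1 (fun v => ?_) h2
  rw [pr_trS c hI.1.even, pr_H]

theorem fl_agree (ω : Finset (Sym2 V)) (c : V) : Agree (HW c : Set V) ω (fl ω c) := by
  apply agree_symm
  intro e he v hv
  unfold trS at he
  rw [Finset.mem_image] at he
  obtain ⟨e', h1, rfl⟩ := he
  obtain ⟨k, rfl⟩ := H_mem h1
  unfold g at hv
  rw [tr_mk, Sym2.mem_iff] at hv
  rw [Finset.mem_coe, mem_HW]
  rcases hv with rfl | rfl
  · exact ⟨k, rfl⟩
  · exact ⟨k + 1, rfl⟩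

theorem sh_fl {ω : Finset (Sym2 V)} {c : V} {k : Fin 6} (h : Sh ω c k) : Lg (fl ω c) c k := by
  intro k'
  rw [fl_g, h k']

theorem lg_fl {ω : Finset (Sym2 V)} {c : V} {k : Fin 6} (h : Lg ω c k) : Sh (fl ω c) c k := by
  intro k'
  rw [fl_g, h k', not_not]

theorem edge_u {D : Finset V} {c : V} (hc : (c.1 + c.2) % 2 = 0) {e : Sym2 V} (he : e ∈ ED D)
    {j : Fin 6} (hv : u j + c ∈ e) :
    e = tr c (g j) ∨ e = tr c (g (j + 5)) ∨ e = tr c (spk j) := by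
  have h := edge_three he hv
  rw [eR_add, eL_add, eT_add _ _ hc] at h
  rcases perm j with h1 | h1 | h1 | h1 | h1 | h1 <;> rw [h1.1, h1.2.1, h1.2.2] at h <;> tauto

/-- vertices of the hexagon on `ω` have an edge of the hexagon -/
theorem inc_u {D : Finset V} {a b c : V} (hI : Ins D a b c) {ω : Finset (Sym2 V)}
    (hω : ω ∈ Configs D a b) {j : Fin 6} (h1 : tr c (g j) ∉ ω) (h2 : tr c (g (j + 5)) ∉ ω)
    (h : ∃ e ∈ ω, u j + c ∈ e) : False := by
  obtain ⟨e, he, hv⟩ := h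
  have h4 := pr_conf hI hω (add_mem_tile (c := c) (u_TV j))
  rw [pr_u hI.1.even] at h4
  have h5 : tr c (spk j) ∉ ω := by
    intro h5
    simp [h1, h2, h5] at h4
  rcases edge_u hI.1.even ((mem_Configs.1 hω).1 he) hv with rfl | rfl | rfl
  · exact h1 he
  · exact h2 he
  · exact h5 he

theorem reach_g {ω : Finset (Sym2 V)} {c : V} {k : Fin 6} (h : tr c (g k) ∈ ω) :
    Reach ω (u k + c) (u (k + 1) + c) := Reach.edge h

theorem conn_sh {D : Finset V} {a b c : V} (hI : Ins D a b c) {ω : Finset (Sym2 V)}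
    (hω : ω ∈ Configs D a b) {k : Fin 6} (hk : Sh ω c k) {j : Fin 6}
    (h : ∃ e ∈ ω, u j + c ∈ e) : Reach ω (u k + c) (u j + c) := by
  obtain ⟨f1, f2, f3, f4, f5, f6, f7, f8, f9, f10, f11, f12, f13, f14, f15⟩ := fin_facts k
  have r1 : Reach ω (u k + c) (u (k + 1) + c) := reach_g ((hk k).2 (Or.inl rfl))
  have r2 : Reach ω (u (k + 1) + c) (u (k + 1 + 1) + c) :=
    reach_g ((hk (k + 1)).2 (Or.inr rfl))
  have e2 : k + 1 + 1 = k + 2 := by rw [add_assoc]; rfl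
  rw [e2] at r2
  rcases fin_cases6 k j with rfl | rfl | rfl | rfl | rfl | rfl
  · exact Reach.refl _ _
  · exact r1
  · exact r1.trans r2
  · exfalso
    refine inc_u hI hω ?_ ?_ h
    · rw [hk]
      exact not_or.2 ⟨f6, f7⟩
    · rw [hk, f13]
      exact not_or.2 ⟨f4, f5⟩
  · exfalso
    refine inc_u hI hω ?_ ?_ h
    · rw [hk]
      exact not_or.2 ⟨f8, f9⟩
    · rw [hk, f14]
      exact not_or.2 ⟨f6, f7⟩
  · exfalso
    refine inc_u hI hω ?_ ?_ h
    · rw [hk]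
      exact not_or.2 ⟨f1, f2⟩
    · rw [hk, f15]
      exact not_or.2 ⟨f8, f9⟩

theorem conn_lg {D : Finset V} {a b c : V} (hI : Ins D a b c) {ω : Finset (Sym2 V)}
    (hω : ω ∈ Configs D a b) {k : Fin 6} (hk : Lg ω c k) {j : Fin 6}
    (h : ∃ e ∈ ω, u j + c ∈ e) : Reach ω (u k + c) (u j + c) := by
  obtain ⟨f1, f2, f3, f4, f5, f6, f7, f8, f9, f10, f11, f12, f13, f14, f15⟩ := fin_facts k
  have e5 : k + 4 + 1 = k + 5 := by rw [add_assoc]; rfl
  have e4 : k + 3 + 1 = k + 4 := by rw [add_assoc]; rfl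
  have e3 : k + 2 + 1 = k + 3 := by rw [add_assoc]; rfl
  have r5 : Reach ω (u (k + 5) + c) (u (k + 5 + 1) + c) :=
    reach_g ((hk (k + 5)).2 (not_or.2 ⟨f1, f2⟩))
  have r4 : Reach ω (u (k + 4) + c) (u (k + 4 + 1) + c) :=
    reach_g ((hk (k + 4)).2 (not_or.2 ⟨f8, f9⟩))
  have r3 : Reach ω (u (k + 3) + c) (u (k + 3 + 1) + c) :=
    reach_g ((hk (k + 3)).2 (not_or.2 ⟨f6, f7⟩))
  have r2 : Reach ω (u (k + 2) + c) (u (k + 2 + 1) + c) :=
    reach_g ((hk (k + 2)).2 (not_or.2 ⟨f4, f5⟩))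
  rw [f10] at r5
  rw [e5] at r4
  rw [e4] at r3
  rw [e3] at r2
  have q5 := r5.symm
  have q4 := q5.trans r4.symm
  have q3 := q4.trans r3.symm
  have q2 := q3.trans r2.symm
  rcases fin_cases6 k j with rfl | rfl | rfl | rfl | rfl | rfl
  · exact Reach.refl _ _
  · exfalso
    refine inc_u hI hω ?_ ?_ h
    · rw [hk]
      exact fun h => h (Or.inr rfl)
    · rw [hk, f11]
      exact fun h => h (Or.inl rfl)
  · exact q2
  · exact q3
  · exact q4
  · exact q5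

theorem inc_of_reach {ω : Finset (Sym2 V)} {a w : V} (h : Reach ω a w) (hne : a ≠ w) :
    ∃ e ∈ ω, w ∈ e := by
  unfold Reach at h
  rcases Relation.ReflTransGen.cases_tail h with h | ⟨c, _, h⟩
  · exact absurd h.symm hne
  · exact ⟨_, h, Sym2.mem_mk_right _ _⟩

/-- the path still reaches the changed region -/
theorem still {W : Set V} {ω ω' : Finset (Sym2 V)} {a w : V} (h : Agree W ω ω') (ha : a ∉ W)
    (hw : w ∈ W) (hr : Reach ω a w) : ∃ w' ∈ W, Reach ω' a w' ∧ ∃ e ∈ ω', w' ∈ e := by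
  have key : ∀ v, Relation.ReflTransGen (fun u v => s(u, v) ∈ ω) a v →
      Reach ω' a v ∨ ∃ w' ∈ W, Reach ω' a w' ∧ ∃ e ∈ ω', w' ∈ e := by
    clear hr hw
    intro v hv
    induction hv with
    | refl => exact Or.inl (Reach.refl _ _)
    | @tail b' c' _ h2 ih =>
      rcases ih with ih | ih
      · by_cases hb : b' ∈ W
        · right
          exact ⟨b', hb, ih, inc_of_reach ih (fun h => ha (h ▸ hb))⟩
        · left
          exact ih.trans (Reach.edge ((h _ ⟨b', Sym2.mem_mk_left _ _, hb⟩).1 h2))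
      · exact Or.inr ih
  rcases key w hr with h1 | h1
  · exact ⟨w, hw, h1, inc_of_reach h1 (fun h => ha (h ▸ hw))⟩
  · exact h1

theorem reach_pe {ω : Finset (Sym2 V)} {a v : V} {e : Sym2 V} (he : e ∈ ω) (hv : v ∈ e) :
    Reach ω a v ↔ e ∈ pe ω a := by
  rw [mem_pe]
  constructor
  · exact fun h => ⟨he, v, hv, h⟩
  · rintro ⟨_, w, hw, hr⟩
    obtain ⟨z, rfl⟩ := Sym2.mem_iff_exists.1 hv
    rw [Sym2.mem_iff] at hw
    rcases hw with rfl | rfl
    · exact hr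
    · exact hr.trans (Reach.edge he).symm

end Pool.Agent.V7H29.FE
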