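import Pool.Agent.V7H29.FE.Flip

set_option autoImplicit false

/-! Exploration: many good tiles along the path. -/

namespace Pool.Agent.V7H29.FE

open Finset

/-- the edge is inside one of the tiles of `U` -/
def inT (U : Finset V) (e : Sym2 V) : Prop := ∃ c ∈ U, ∀ v ∈ e, v ∈ tile c

/-- `ω` and `ω'` agree outside the tiles of `U` -/
def AgrU (U : Finset V) (ω ω' : Finset (Sym2 V)) : Prop := ∀ e, ¬ inT U e → (e ∈ ω ↔ e ∈ ω')

theorem AgrU.symm {U : Finset V} {ω ω' : Finset (Sym2 V)} (h : AgrU U ω ω') : AgrU U ω' ω :=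
  fun e he => (h e he).symm

theorem AgrU.mono {U U' : Finset V} (hU : U' ⊆ U) {ω ω' : Finset (Sym2 V)}
    (h : AgrU U' ω ω') : AgrU U ω ω' := by
  intro e he
  apply h
  rintro ⟨c, hc, hv⟩
  exact he ⟨c, hU hc, hv⟩

/-- reached from `a` by edges outside the tiles of `U` -/
def RU (U : Finset V) (ω : Finset (Sym2 V)) (a v : V) : Prop :=
  Relation.ReflTransGen (fun p q => s(p, q) ∈ ω ∧ ¬ inT U s(p, q)) a v

theorem RU.reach {U : Finset V} {ω : Finset (Sym2 V)} {a v : V} (h : RU U ω a v) :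
    Reach ω a v := by
  unfold RU at h
  induction h with
  | refl => exact Reach.refl _ _
  | tail _ h2 ih => exact ih.trans (Reach.edge h2.1)

theorem RU.congr {U : Finset V} {ω ω' : Finset (Sym2 V)} (hA : AgrU U ω ω') {a v : V}
    (h : RU U ω a v) : RU U ω' a v := by
  unfold RU at *
  induction h with
  | refl => exact Relation.ReflTransGen.refl
  | tail _ h2 ih => exact Relation.ReflTransGen.tail ih ⟨(hA _ h2.2).1 h2.1, h2.2⟩

/-- the path visits the tile -/
def Vis (ω : Finset (Sym2 V)) (a c : V) : Prop := ∃ v ∈ tile c, Reach ω a v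

theorem vis_RU {U : Finset V} {ω : Finset (Sym2 V)} {a c : V} (hc : c ∈ U) (h : Vis ω a c) :
    ∃ c' ∈ U, ∃ v ∈ tile c', RU U ω a v := by
  obtain ⟨w, hw, hr⟩ := h
  have key : ∀ v, Relation.ReflTransGen (fun u v => s(u, v) ∈ ω) a v →
      RU U ω a v ∨ ∃ c' ∈ U, ∃ v ∈ tile c', RU U ω a v := by
    intro v hv
    induction hv with
    | refl => exact Or.inl Relation.ReflTransGen.refl
    | @tail b' c' _ h2 ih =>
      rcases ih with ih | ih
      · by_cases hin : inT U s(b', c')
        · right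
          obtain ⟨c0, hc0, hv0⟩ := hin
          exact ⟨c0, hc0, b', hv0 b' (Sym2.mem_mk_left _ _), ih⟩
        · left
          exact Relation.ReflTransGen.tail ih ⟨h2, hin⟩
      · exact Or.inr ih
  rcases key w hr with h1 | h1
  · exact ⟨c, hc, w, hw, h1⟩
  · exact h1

/-- the path enters at one of the twelve vertices -/
theorem RU_att {D : Finset V} {a b : V} {U : Finset V} (hU : ∀ c ∈ U, Ins D a b c)
    {ω : Finset (Sym2 V)} (hω : ω ∈ Configs D a b) {c v : V} (hc : c ∈ U) (hv : v ∈ tile c)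
    (h : RU U ω a v) : ∃ i, v = att i + c := by
  have hne : a ≠ v := by
    rintro rfl
    exact (hU c hc).2.2.1 hv
  unfold RU at h
  rcases Relation.ReflTransGen.cases_tail h with h | ⟨p, _, hp, hin⟩
  · exact absurd h.symm hne
  · have hpt : p ∉ tile c := by
      intro hpt
      apply hin
      refine ⟨c, hc, ?_⟩
      intro w hw
      rw [Sym2.mem_iff] at hw
      rcases hw with rfl | rfl
      · exact hpt
      · exact hv
    have hadj : Adj p v := (mem_ED.1 ((mem_Configs.1 hω).1 hp)).2.2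
    rw [mem_tile] at hv hpt
    have hadj2 : Adj (v - c) (p - c) := by
      rw [← adj_add (hU c hc).1.even]
      simpa using adj_symm hadj
    obtain ⟨i, hi⟩ := att_out (v - c) hv (p - c) (nbr_three hadj2) hpt
    exact ⟨i, by rw [← hi]; simp⟩

theorem att_mem (i : Fin 12) (c : V) : att i + c ∈ tile c := add_mem_tile (att_TV i)

theorem sp_TV : ∀ k : Fin 6, sp k ∈ TV := by decide +kernel

/-- the star pattern -/
def Star (ω : Finset (Sym2 V)) (c : V) (i : Fin 12) : Prop :=
  (∀ k, tr c (g k) ∈ ω ↔ k = ks i ∨ k = ks i + 1) ∧ tr c (ep i) ∈ ω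

theorem not_inT {U : Finset V} (hU : ∀ c ∈ U, IsC c) {c : V} (hc : IsC c) {p q : V}
    (hp : p ∈ TV) : ¬ inT (U.erase c) (tr c s(p, q)) := by
  rintro ⟨c', hc', h⟩
  rw [Finset.mem_erase] at hc'
  have h1 := h (p + c) (by rw [tr_mk]; exact Sym2.mem_mk_left _ _)
  have h2 := ctr_unique (hU c' hc'.2) h1
  have h3 := ctr_unique hc (add_mem_tile (c := c) hp)
  exact hc'.1 (h2.symm.trans h3)

theorem Star.congr {U : Finset V} (hU : ∀ c ∈ U, IsC c) {c : V} (hc : IsC c)
    {ω ω' : Finset (Sym2 V)} (h : AgrU (U.erase c) ω ω') (i : Fin 12) :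
    Star ω c i ↔ Star ω' c i := by
  have h1 : ∀ k, (tr c (g k) ∈ ω ↔ tr c (g k) ∈ ω') := fun k =>
    h _ (not_inT hU hc (u_TV k))
  have h2 : tr c (ep i) ∈ ω ↔ tr c (ep i) ∈ ω' := h _ (not_inT hU hc (att_TV i))
  unfold Star
  simp only [h1, h2]

theorem st_star (ω : Finset (Sym2 V)) (c : V) (i : Fin 12) : Star (st ω c i) c i :=
  ⟨st_g ω c i, st_ep ω c i⟩

theorem st_AgrU {D : Finset V} {a b c : V} (hI : Ins D a b c) {U : Finset V} (hc : c ∈ U)
    (ω : Finset (Sym2 V)) (i : Fin 12) : AgrU U ω (st ω c i) := by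
  intro e he
  apply st_agree hI ω i
  by_contra h
  push Not at h
  exact he ⟨c, hc, fun v hv => by exact_mod_cast h v hv⟩

theorem pow_ratio {x : ℝ} (hx : 0 < x) {m m' N : ℕ} (h1 : m ≤ m' + N) (h2 : m' ≤ m + N) :
    x ^ m ≤ (max x x⁻¹) ^ N * x ^ m' := by
  rcases le_total 1 x with h | h
  · have : x ≤ max x x⁻¹ := le_max_left _ _
    calc x ^ m ≤ x ^ (m' + N) := pow_le_pow_right₀ h h1
      _ = x ^ N * x ^ m' := by rw [pow_add]; ring
      _ ≤ (max x x⁻¹) ^ N * x ^ m' := by gcongr
  · have h3 : x⁻¹ ≤ max x x⁻¹ := le_max_right _ _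
    have h4 : x ^ (m + N) ≤ x ^ m' := pow_le_pow_of_le_one hx.le h h2
    calc x ^ m = (x⁻¹) ^ N * x ^ (m + N) := by
          rw [pow_add, inv_pow]
          field_simp
      _ ≤ (x⁻¹) ^ N * x ^ m' := by gcongr
      _ ≤ (max x x⁻¹) ^ N * x ^ m' := by gcongr

theorem card_E : ∀ k : Fin 7, (E k).card ≤ 18 := by decide +kernel

theorem card_symm (s t : Finset (Sym2 V)) : (symmDiff s t).card ≤ s.card + t.card := by
  have : symmDiff s t ⊆ s ∪ t := by
    intro e he
    rw [Finset.mem_symmDiff] at he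
    rw [Finset.mem_union]
    tauto
  exact (Finset.card_le_card this).trans (Finset.card_union_le _ _)

theorem card_X (A : Fin 7 → Bool) : (X A).card ≤ 126 := by
  have h : ∀ (b : Bool) (k : Fin 7), (if b then E k else ∅ : Finset (Sym2 V)).card ≤ 18 := by
    intro b k
    cases b
    · simp
    · exact card_E k
  unfold X
  have h0 := h (A 0) 0
  have h1 := h (A 1) 1
  have h2 := h (A 2) 2
  have h3 := h (A 3) 3
  have h4 := h (A 4) 4
  have h5 := h (A 5) 5
  have h6 := h (A 6) 6
  refine (card_symm _ _).trans ?_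
  refine (Nat.add_le_add_left (card_symm _ _) _).trans ?_
  refine (Nat.add_le_add_left (Nat.add_le_add_left (card_symm _ _) _) _).trans ?_
  refine (Nat.add_le_add_left (Nat.add_le_add_left (Nat.add_le_add_left
    (card_symm _ _) _) _) _).trans ?_
  refine (Nat.add_le_add_left (Nat.add_le_add_left (Nat.add_le_add_left (Nat.add_le_add_left
    (card_symm _ _) _) _) _) _).trans ?_
  refine (Nat.add_le_add_left (Nat.add_le_add_left (Nat.add_le_add_left (Nat.add_le_add_left
    (Nat.add_le_add_left (card_symm _ _) _) _) _) _) _).trans ?_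
  omega

theorem card_tile (c : V) : (tile c).card ≤ 24 := by
  unfold tile
  exact Finset.card_image_le.trans card_TV.le

/-- the constant of the finite energy property -/
noncomputable def K0 (n x : ℝ) : ℝ := (max x x⁻¹) ^ 126 * (max n n⁻¹) ^ 24

theorem one_le_max {x : ℝ} (hx : 0 < x) : 1 ≤ max x x⁻¹ := by
  rcases le_total 1 x with h | h
  · exact h.trans (le_max_left _ _)
  · exact (one_le_inv₀ hx).2 h |>.trans (le_max_right _ _)

theorem one_le_K0 {n x : ℝ} (hn : 0 < n) (hx : 0 < x) : 1 ≤ K0 n x := by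
  unfold K0
  have h1 : 1 ≤ (max x x⁻¹) ^ 126 := one_le_pow₀ (one_le_max hx)
  have h2 : 1 ≤ (max n n⁻¹) ^ 24 := one_le_pow₀ (one_le_max hn)
  nlinarith

/-- finite energy -/
theorem wt_ratio {D : Finset V} {a b c : V} (hI : Ins D a b c) {n x : ℝ} (hn : 0 < n)
    (hx : 0 < x) (ω : Finset (Sym2 V)) (i : Fin 12) :
    wt n x a ω ≤ K0 n x * wt n x a (st ω c i) := by
  have hc : (trS c (X (Af ω c i))).card ≤ 126 := by
    unfold trS
    exact Finset.card_image_le.trans (card_X _)
  have e1 : ω = symmDiff (st ω c i) (trS c (X (Af ω c i))) := by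
    unfold st
    rw [symmDiff_assoc, symmDiff_self, symmDiff_bot]
  have h1 : ω.card ≤ (st ω c i).card + 126 := by
    conv_lhs => rw [e1]
    exact (card_symm _ _).trans (by omega)
  have h2 : (st ω c i).card ≤ ω.card + 126 := by
    unfold st
    exact (card_symm _ _).trans (by omega)
  have ha := st_agree hI ω i
  have h3 : loops ω a ≤ loops (st ω c i) a + 24 :=
    (loops_le ha a).trans (Nat.add_le_add_left (card_tile c) _)
  have h4 : loops (st ω c i) a ≤ loops ω a + 24 :=
    (loops_le ha.symm a).trans (Nat.add_le_add_left (card_tile c) _)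
  have r1 := pow_ratio hx h1 h2
  have r2 := pow_ratio hn h3 h4
  unfold wt K0
  calc x ^ ω.card * n ^ loops ω a
      ≤ ((max x x⁻¹) ^ 126 * x ^ (st ω c i).card) *
          ((max n n⁻¹) ^ 24 * n ^ loops (st ω c i) a) := by gcongr
    _ = _ := by ring

end Pool.Agent.V7H29.FE
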