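import Pool.Agent.V7H29.FE.Fin

set_option autoImplicit false

/-! Length of the path and number of visited tiles. -/

namespace Pool.Agent.V7H29.FE

open Finset

/-- the domain is a union of tiles -/
def UT (D : Finset V) : Prop := ∀ v ∈ D, ∀ w ∈ tile (ctr v), w ∈ D

theorem ins_of {D : Finset V} (hD : UT D) {a b v : V} (hv : v ∈ D) (ha : ctr v ≠ ctr a)
    (hb : ctr v ≠ ctr b) : Ins D a b (ctr v) := by
  refine ⟨ctr_isC v, hD v hv, ?_, ?_⟩
  · intro h
    exact ha (ctr_unique (ctr_isC v) h).symm
  · intro h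
    exact hb (ctr_unique (ctr_isC v) h).symm

theorem card_inc {D : Finset V} {ω : Finset (Sym2 V)} (hω : ω ⊆ ED D) (v : V) :
    (ω.filter (fun e => v ∈ e)).card ≤ 3 := by
  have h := deg_three hω v
  unfold deg at h
  rw [h]
  split_ifs <;> norm_num

theorem len_le {D : Finset V} (hD : UT D) {a b : V} {ω : Finset (Sym2 V)}
    (hω : ω ∈ Configs D a b) : len ω a ≤ 72 * (nM D a b ω + 2) := by
  classical
  have hsub := (mem_Configs.1 hω).1
  set S : Finset V := (TT D a b).filter (fun c => Vis ω a c) ∪ {ctr a, ctr b} with hS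
  have hcov : pe ω a ⊆ S.biUnion (fun c => (tile c).biUnion
      (fun v => ω.filter (fun e => v ∈ e))) := by
    intro e he
    obtain ⟨h1, v, hv, hr⟩ := mem_pe.1 he
    have hvD : v ∈ D := by
      obtain ⟨w, rfl⟩ := Sym2.mem_iff_exists.1 hv
      exact (mem_ED.1 (hsub h1)).1
    rw [Finset.mem_biUnion]
    refine ⟨ctr v, ?_, ?_⟩
    · rw [hS, Finset.mem_union]
      by_cases ha : ctr v = ctr a
      · right; rw [ha]; simp
      · by_cases hb : ctr v = ctr b
        · right; rw [hb]; simp
        · left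
          rw [Finset.mem_filter]
          exact ⟨mem_TT.2 (ins_of hD hvD ha hb), v, ctr_tile v, hr⟩
    · rw [Finset.mem_biUnion]
      exact ⟨v, ctr_tile v, Finset.mem_filter.2 ⟨h1, hv⟩⟩
  have hScard : S.card ≤ nM D a b ω + 2 := by
    rw [hS]
    refine (Finset.card_union_le _ _).trans ?_
    have : ({ctr a, ctr b} : Finset V).card ≤ 2 := Finset.card_le_two
    unfold nM
    omega
  have h1 : ∀ c ∈ S, ((tile c).biUnion (fun v => ω.filter (fun e => v ∈ e))).card ≤ 72 := by
    intro c _
    refine (Finset.card_biUnion_le_card_mul _ _ 3 (fun v _ => card_inc hsub v)).trans ?_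
    have := card_tile c
    omega
  calc len ω a ≤ _ := Finset.card_le_card hcov
    _ ≤ S.card * 72 := Finset.card_biUnion_le_card_mul _ _ 72 h1
    _ ≤ 72 * (nM D a b ω + 2) := by
        rw [mul_comm]
        exact Nat.mul_le_mul_left 72 hScard

/-- handshake: the path ends in `b` -/
theorem reach_b {D : Finset V} {a b : V} {ω : Finset (Sym2 V)}
    (hω : ω ∈ Configs D a b) : Reach ω a b := by
  classical
  by_contra hc
  obtain ⟨hsub, hdeg, ha, hb⟩ := mem_Configs.1 hω
  set S : Finset V := (verts ω).filter (fun v => Reach ω a v) with hS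
  have hne : a ≠ b := by
    rintro rfl
    exact hc (Reach.refl _ _)
  have haS : a ∈ S := by
    rw [hS, Finset.mem_filter, mem_verts]
    refine ⟨?_, Reach.refl _ _⟩
    have h1 : (ω.filter (fun e => a ∈ e)).Nonempty := by
      rw [← Finset.card_pos]
      unfold deg at ha
      omega
    obtain ⟨e, he⟩ := h1
    rw [Finset.mem_filter] at he
    exact ⟨e, he.1, he.2⟩
  have h1 : ∑ v ∈ S, deg ω v = ∑ e ∈ ω, (S.filter (fun v => v ∈ e)).card := by
    unfold deg
    simp only [Finset.card_filter]
    exact Finset.sum_comm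
  have h2 : ∀ e ∈ ω, Even (S.filter (fun v => v ∈ e)).card := by
    intro e he
    induction e using Sym2.ind with
    | _ p q =>
      have hpq : p ≠ q := adj_ne (mem_ED.1 (hsub he)).2.2
      by_cases hp : Reach ω a p
      · have hq : Reach ω a q := hp.trans (Reach.edge he)
        have e1 : S.filter (fun v => v ∈ s(p, q)) = {p, q} := by
          ext v
          rw [Finset.mem_filter, hS, Finset.mem_filter, mem_verts, Finset.mem_insert,
            Finset.mem_singleton, Sym2.mem_iff]
          constructor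
          · exact fun h => h.2
          · rintro (rfl | rfl)
            · exact ⟨⟨⟨_, he, Sym2.mem_mk_left _ _⟩, hp⟩, Or.inl rfl⟩
            · exact ⟨⟨⟨_, he, Sym2.mem_mk_right _ _⟩, hq⟩, Or.inr rfl⟩
        rw [e1, Finset.card_pair hpq]
        exact even_two
      · have hq : ¬ Reach ω a q := fun hq => hp (hq.trans (Reach.edge he).symm)
        have e1 : S.filter (fun v => v ∈ s(p, q)) = ∅ := by
          rw [Finset.filter_eq_empty_iff]
          intro v hv hv2
          rw [hS, Finset.mem_filter] at hv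
          rw [Sym2.mem_iff] at hv2
          rcases hv2 with rfl | rfl
          · exact hp hv.2
          · exact hq hv.2
        rw [e1]
        exact Even.zero
  have h3 : Even (∑ v ∈ S, deg ω v) := by
    rw [h1]
    exact Finset.even_sum _ h2
  have h4 : Even (∑ v ∈ S.erase a, deg ω v) := by
    apply Finset.even_sum
    intro v hv
    rw [Finset.mem_erase, hS, Finset.mem_filter, mem_verts] at hv
    obtain ⟨hva, ⟨e, he, hve⟩, hr⟩ := hv
    have hvD : v ∈ D := by
      obtain ⟨w, rfl⟩ := Sym2.mem_iff_exists.1 hve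
      exact (mem_ED.1 (hsub he)).1
    have hvb : v ≠ b := by
      rintro rfl
      exact hc hr
    rcases hdeg v hvD hva hvb with h | h <;> rw [h] <;> decide
  rw [← Finset.add_sum_erase _ _ haS, ha] at h3
  rw [Nat.even_add] at h3
  have := h3.2 h4
  exact absurd this (by decide)

/-- the path has at least as many edges as the height difference of its ends -/
theorem len_ge {ω : Finset (Sym2 V)} {a b : V} (hr : Reach ω a b) (h : V → ℤ)
    (hh : ∀ p q, s(p, q) ∈ ω → |h p - h q| ≤ 1) (_ : h a ≤ h b) :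
    (h b - h a).toNat ≤ len ω a := by
  classical
  have key : ∀ v, Relation.ReflTransGen (fun u v => s(u, v) ∈ ω) a v →
      ∀ k : ℤ, h a ≤ k → k < h v → ∃ p q, s(p, q) ∈ pe ω a ∧ h p = k ∧ h q = k + 1 := by
    intro v hv
    induction hv with
    | refl => intro k h1 h2; omega
    | @tail p q h1 h2 ih =>
      intro k hk1 hk2
      by_cases hkp : k < h p
      · exact ih k hk1 hkp
      · have h3 := hh p q h2
        rw [abs_le] at h3
        refine ⟨p, q, ?_, by omega, by omega⟩
        rw [mem_pe]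
        exact ⟨h2, p, Sym2.mem_mk_left _ _, h1⟩
  have h1 : ∀ k ∈ Finset.Ico (h a) (h b), ∃ e ∈ pe ω a, ∃ p q, e = s(p, q) ∧ h p = k ∧
      h q = k + 1 := by
    intro k hk
    rw [Finset.mem_Ico] at hk
    obtain ⟨p, q, h2, h3, h4⟩ := key b hr k hk.1 hk.2
    exact ⟨s(p, q), h2, p, q, rfl, h3, h4⟩
  choose! φ hφ1 hφ2 using h1
  have hinj : Set.InjOn φ (Finset.Ico (h a) (h b) : Set ℤ) := by
    intro k hk k' hk' he
    obtain ⟨p, q, e1, e2, e3⟩ := hφ2 k (by exact_mod_cast hk)
    obtain ⟨p', q', e1', e2', e3'⟩ := hφ2 k' (by exact_mod_cast hk')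
    rw [he, e1', Sym2.eq_iff] at e1
    rcases e1 with ⟨rfl, rfl⟩ | ⟨rfl, rfl⟩ <;> omega
  calc (h b - h a).toNat = (Finset.Ico (h a) (h b)).card := (Int.card_Ico _ _).symm
    _ ≤ (pe ω a).card := Finset.card_le_card_of_injOn φ
        (fun k hk => by exact_mod_cast hφ1 k (by exact_mod_cast hk)) hinj
    _ = len ω a := rfl

theorem len_ge_abs {D : Finset V} {a b : V} {ω : Finset (Sym2 V)} (hω : ω ∈ Configs D a b)
    (h : V → ℤ) (hh : ∀ p q, Adj p q → |h p - h q| ≤ 1) : (|h a - h b|).toNat ≤ len ω a := by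
  have hsub := (mem_Configs.1 hω).1
  have hr := reach_b hω
  rcases le_total (h a) (h b) with h1 | h1
  · rw [abs_of_nonpos (by omega)]
    have := len_ge hr h (fun p q he => hh p q (mem_ED.1 (hsub he)).2.2) h1
    have e : -(h a - h b) = h b - h a := by ring
    rwa [e]
  · rw [abs_of_nonneg (by omega)]
    have := len_ge hr (fun v => - h v) (fun p q he => by
      have h2 := hh p q (mem_ED.1 (hsub he)).2.2
      have e : -h p - -h q = -(h p - h q) := by ring
      rw [e, abs_neg]
      exact h2) (by omega)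
    have e : -h b - -h a = h a - h b := by ring
    rwa [e] at this

theorem len_ge_dist {D : Finset V} {a b : V} {ω : Finset (Sym2 V)} (hω : ω ∈ Configs D a b) :
    |a.1 - b.1| + |a.2 - b.2| ≤ 2 * (len ω a : ℤ) := by
  have h1 := len_ge_abs hω (fun v => v.1) (fun p q h => by
    rw [adj_iff] at h
    rw [abs_le]
    omega)
  have h2 := len_ge_abs hω (fun v => v.2) (fun p q h => by
    rw [adj_iff] at h
    rw [abs_le]
    omega)
  have h3 := abs_nonneg (a.1 - b.1)
  have h4 := abs_nonneg (a.2 - b.2)
  omega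

end Pool.Agent.V7H29.FE
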