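import Pool.Agent.V7H29.FE.Len

set_option autoImplicit false

/-! The main estimates. -/

namespace Pool.Agent.V7H29.FE

open Finset

/-- pointwise comparison -/
theorem key_pt {μ : ℝ} (hμ : 1 < μ) {M G : ℕ} {m : ℝ} (hm : m ≤ M) :
    1 / Real.sqrt ((G : ℝ) + 1) ≤
      1 / Real.sqrt (min 1 (Real.log μ / (2 * Real.log 2))) * (1 / Real.sqrt ((M : ℝ) + 1)) +
        Real.exp (-(m * (Real.log μ / 2))) * (μ ^ M * (1 / 2) ^ G) := by
  have hl : 0 < Real.log μ := Real.log_pos hμ
  have hl2 : 0 < Real.log 2 := Real.log_pos (by norm_num)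
  set ε : ℝ := Real.log μ / (2 * Real.log 2) with hε
  have hε0 : 0 < ε := by positivity
  have hmin : 0 < min 1 ε := lt_min one_pos hε0
  have hG1 : (0 : ℝ) < (G : ℝ) + 1 := by positivity
  have hM1 : (0 : ℝ) < (M : ℝ) + 1 := by positivity
  rcases le_or_gt (G : ℝ) (ε * M) with h | h
  · have h1 : 1 / Real.sqrt ((G : ℝ) + 1) ≤ 1 := by
      rw [div_le_one (Real.sqrt_pos.2 hG1)]
      exact Real.one_le_sqrt.2 (by linarith [Nat.cast_nonneg (α := ℝ) G])
    have h2 : 1 ≤ Real.exp (-(m * (Real.log μ / 2))) * (μ ^ M * (1 / 2) ^ G) := by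
      have e1 : μ ^ M = Real.exp (M * Real.log μ) := by
        rw [mul_comm, Real.exp_mul, Real.exp_log (by linarith), Real.rpow_natCast]
      have e2 : ((1 : ℝ) / 2) ^ G = Real.exp (-(G * Real.log 2)) := by
        rw [Real.exp_neg, mul_comm, Real.exp_mul, Real.exp_log (by norm_num), Real.rpow_natCast,
          one_div, inv_pow]
      rw [e1, e2, ← Real.exp_add, ← Real.exp_add]
      apply Real.one_le_exp
      have h3 : (G : ℝ) * Real.log 2 ≤ M * (Real.log μ / 2) := by
        calc (G : ℝ) * Real.log 2 ≤ (ε * M) * Real.log 2 := by gcongr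
          _ = M * (Real.log μ / 2) := by
              rw [hε]
              field_simp
      have h4 : m * (Real.log μ / 2) ≤ M * (Real.log μ / 2) := by gcongr
      linarith
    have h3 : 0 ≤ 1 / Real.sqrt (min 1 ε) * (1 / Real.sqrt ((M : ℝ) + 1)) := by positivity
    linarith
  · have h1 : min 1 ε * ((M : ℝ) + 1) ≤ (G : ℝ) + 1 := by
      have h2 : min 1 ε * M ≤ ε * M := by
        gcongr
        exact min_le_right _ _
      have h3 : min 1 ε ≤ 1 := min_le_left _ _
      linarith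
    have h2 : 1 / Real.sqrt ((G : ℝ) + 1) ≤
        1 / Real.sqrt (min 1 ε) * (1 / Real.sqrt ((M : ℝ) + 1)) := by
      have e : 1 / Real.sqrt (min 1 ε) * (1 / Real.sqrt ((M : ℝ) + 1)) =
          1 / Real.sqrt (min 1 ε * ((M : ℝ) + 1)) := by
        rw [Real.sqrt_mul hmin.le]
        field_simp
      rw [e]
      apply one_div_le_one_div_of_le (Real.sqrt_pos.2 (by positivity))
      exact Real.sqrt_le_sqrt h1
    have h3 : 0 ≤ Real.exp (-(m * (Real.log μ / 2))) * (μ ^ M * (1 / 2) ^ G) := by positivity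
    linarith

/-- the sum of `1 / √(G+1)` -/
theorem sum_sqrt {D : Finset V} {a b : V} {n x : ℝ} (hn : 0 < n) (hx : 0 < x) (m : ℝ)
    (hm : ∀ ω ∈ Configs D a b, m ≤ nM D a b ω) :
    ∑ ω ∈ Configs D a b, wt n x a ω *
        (1 / Real.sqrt ((nA D a b ω : ℝ) + nB D a b ω + 1)) ≤
      1 / Real.sqrt (min 1 (Real.log (mu n x) / (2 * Real.log 2))) *
        ∑ ω ∈ Configs D a b, wt n x a ω * (1 / Real.sqrt ((nM D a b ω : ℝ) + 1)) +
      Real.exp (-(m * (Real.log (mu n x) / 2))) * ∑ ω ∈ Configs D a b, wt n x a ω := by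
  have h1 : ∀ ω ∈ Configs D a b, wt n x a ω *
        (1 / Real.sqrt ((nA D a b ω : ℝ) + nB D a b ω + 1)) ≤
      1 / Real.sqrt (min 1 (Real.log (mu n x) / (2 * Real.log 2))) *
        (wt n x a ω * (1 / Real.sqrt ((nM D a b ω : ℝ) + 1))) +
      Real.exp (-(m * (Real.log (mu n x) / 2))) * (wt n x a ω *
        (mu n x ^ nM D a b ω * (1 / 2) ^ (nA D a b ω + nB D a b ω))) := by
    intro ω hω
    have h2 := key_pt (mu_gt hn hx) (M := nM D a b ω) (G := nA D a b ω + nB D a b ω)
      (hm ω hω)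
    have h3 := mul_le_mul_of_nonneg_left h2 (wt_pos hn hx a ω).le
    push_cast at h3
    linarith
  refine (Finset.sum_le_sum h1).trans ?_
  rw [Finset.sum_add_distrib, ← Finset.mul_sum, ← Finset.mul_sum]
  have h2 := exp_ineq (D := D) (a := a) (b := b) hn hx
  have h3 := mul_le_mul_of_nonneg_left h2 (Real.exp_pos (-(m * (Real.log (mu n x) / 2)))).le
  linarith

/-- the mean number of good tiles -/
theorem sum_M {D : Finset V} {a b : V} {n x : ℝ} (hn : 0 < n) (hx : 0 < x) :
    Real.log (mu n x) * ∑ ω ∈ Configs D a b, wt n x a ω * (nM D a b ω : ℝ) ≤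
      Real.log 2 * ∑ ω ∈ Configs D a b, wt n x a ω * ((nA D a b ω : ℝ) + nB D a b ω) := by
  have h2 := exp_ineq (D := D) (a := a) (b := b) hn hx
  have h1 : ∀ ω ∈ Configs D a b, wt n x a ω * (1 + (Real.log (mu n x) * (nM D a b ω : ℝ) -
      Real.log 2 * ((nA D a b ω : ℝ) + nB D a b ω))) ≤
      wt n x a ω * (mu n x ^ nM D a b ω * (1 / 2) ^ (nA D a b ω + nB D a b ω)) := by
    intro ω _
    apply mul_le_mul_of_nonneg_left _ (wt_pos hn hx a ω).le
    have hμ := mu_gt hn hx
    have e1 : mu n x ^ nM D a b ω = Real.exp (nM D a b ω * Real.log (mu n x)) := by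
      rw [mul_comm, Real.exp_mul, Real.exp_log (by linarith), Real.rpow_natCast]
    have e2 : ((1 : ℝ) / 2) ^ (nA D a b ω + nB D a b ω) =
        Real.exp (-(((nA D a b ω + nB D a b ω : ℕ) : ℝ) * Real.log 2)) := by
      rw [Real.exp_neg, mul_comm, Real.exp_mul, Real.exp_log (by norm_num), Real.rpow_natCast,
        one_div, inv_pow]
    rw [e1, e2, ← Real.exp_add]
    have h3 := Real.add_one_le_exp ((nM D a b ω : ℝ) * Real.log (mu n x) +
      -(((nA D a b ω + nB D a b ω : ℕ) : ℝ) * Real.log 2))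
    push_cast at h3 ⊢
    linarith
  have h3 := (Finset.sum_le_sum h1).trans h2
  have h4 : ∑ ω ∈ Configs D a b, wt n x a ω * (1 + (Real.log (mu n x) * (nM D a b ω : ℝ) -
      Real.log 2 * ((nA D a b ω : ℝ) + nB D a b ω))) =
      ∑ ω ∈ Configs D a b, wt n x a ω +
        (Real.log (mu n x) * ∑ ω ∈ Configs D a b, wt n x a ω * (nM D a b ω : ℝ) -
        Real.log 2 * ∑ ω ∈ Configs D a b, wt n x a ω * ((nA D a b ω : ℝ) + nB D a b ω)) := by
    rw [Finset.mul_sum, Finset.mul_sum, ← Finset.sum_sub_distrib, ← Finset.sum_add_distrib]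
    exact Finset.sum_congr rfl fun ω _ => by ring
  rw [h4] at h3
  linarith

/-- few good tiles are unlikely -/
theorem tail {D : Finset V} {a b : V} {n x : ℝ} (hn : 0 < n) (hx : 0 < x) (m : ℝ)
    (hm : ∀ ω ∈ Configs D a b, m ≤ nM D a b ω) {C : ℝ} (hC : 0 < C)
    (hC' : 2 * Real.log 2 / Real.log (mu n x) ≤ C) :
    ∑ ω ∈ Configs D a b, wt n x a ω *
        (if C * ((nA D a b ω + nB D a b ω : ℕ) : ℝ) < nM D a b ω then 1 else 0) ≤
      Real.exp (-(m * (Real.log (mu n x) / 2))) * ∑ ω ∈ Configs D a b, wt n x a ω := by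
  have hl : 0 < Real.log (mu n x) := Real.log_pos (mu_gt hn hx)
  have hl2 : 0 < Real.log 2 := Real.log_pos (by norm_num)
  have hμ := mu_gt hn hx
  have h1 : ∀ ω ∈ Configs D a b, wt n x a ω *
        (if C * ((nA D a b ω + nB D a b ω : ℕ) : ℝ) < nM D a b ω then 1 else 0) ≤
      Real.exp (-(m * (Real.log (mu n x) / 2))) * (wt n x a ω *
        (mu n x ^ nM D a b ω * (1 / 2) ^ (nA D a b ω + nB D a b ω))) := by
    intro ω hω
    have hw := (wt_pos hn hx a ω).le
    split_ifs with h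
    · have h2 : 1 ≤ Real.exp (-(m * (Real.log (mu n x) / 2))) *
          (mu n x ^ nM D a b ω * (1 / 2) ^ (nA D a b ω + nB D a b ω)) := by
        have e1 : mu n x ^ nM D a b ω = Real.exp (nM D a b ω * Real.log (mu n x)) := by
          rw [mul_comm, Real.exp_mul, Real.exp_log (by linarith), Real.rpow_natCast]
        have e2 : ((1 : ℝ) / 2) ^ (nA D a b ω + nB D a b ω) =
            Real.exp (-(((nA D a b ω + nB D a b ω : ℕ) : ℝ) * Real.log 2)) := by
          rw [Real.exp_neg, mul_comm, Real.exp_mul, Real.exp_log (by norm_num),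
            Real.rpow_natCast, one_div, inv_pow]
        rw [e1, e2, ← Real.exp_add, ← Real.exp_add]
        apply Real.one_le_exp
        have hG : (0 : ℝ) ≤ ((nA D a b ω + nB D a b ω : ℕ) : ℝ) := Nat.cast_nonneg _
        generalize ((nA D a b ω + nB D a b ω : ℕ) : ℝ) = G at *
        have hmM := hm ω hω
        generalize (nM D a b ω : ℝ) = M at *
        have h3 : G * Real.log 2 ≤ M * (Real.log (mu n x) / 2) := by
          have h5 : 2 * Real.log 2 / Real.log (mu n x) * G ≤ C * G := by gcongr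
          have h6 : 2 * Real.log 2 / Real.log (mu n x) * G < M := lt_of_le_of_lt h5 h
          have h7 : 2 * Real.log 2 / Real.log (mu n x) * G * (Real.log (mu n x) / 2) ≤
              M * (Real.log (mu n x) / 2) := by gcongr
          calc G * Real.log 2 =
              2 * Real.log 2 / Real.log (mu n x) * G * (Real.log (mu n x) / 2) := by
                field_simp
            _ ≤ _ := h7
        have h4 : m * (Real.log (mu n x) / 2) ≤ M * (Real.log (mu n x) / 2) := by gcongr
        linarith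
      have h3 := mul_le_mul_of_nonneg_left h2 hw
      linarith
    · rw [mul_zero]
      have : 0 ≤ mu n x ^ nM D a b ω := by positivity
      positivity
  refine (Finset.sum_le_sum h1).trans ?_
  rw [← Finset.mul_sum]
  exact mul_le_mul_of_nonneg_left (exp_ineq hn hx) (Real.exp_pos _).le

/-- functionals which change little when a hexagon is flipped -/
def Loc (D : Finset V) (a b : V) (η : ℝ) (F : Finset (Sym2 V) → ℝ) : Prop :=
  ∀ ω ∈ Configs D a b, ∀ c ∈ TT D a b, Short ω a c → |F (fl ω c) - F ω| ≤ η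

/-- the main estimates, not normalised -/
theorem main {n x : ℝ} (hn : 0 < n) (hx : 0 < x) : ∃ C : ℝ, 1 ≤ C ∧
    ∀ (D : Finset V) (a b : V) (m : ℝ), 0 ≤ m → (∀ ω ∈ Configs D a b, m ≤ nM D a b ω) →
    (∀ (η : ℝ) (F : Finset (Sym2 V) → ℝ) (f : ℕ → ℝ), 0 ≤ η →
      (∀ ω ∈ Configs D a b, 0 ≤ F ω ∧ F ω ≤ 1) → Loc D a b η F → (∀ k, 0 ≤ f k ∧ f k ≤ 1) →
      |∑ ω ∈ Configs D a b, wt n x a ω * (F ω * f (len ω a + 2)) -
          ∑ ω ∈ Configs D a b, wt n x a ω * (F ω * f (len ω a))| ≤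
        C * (∑ ω ∈ Configs D a b, wt n x a ω * (1 / Real.sqrt ((nM D a b ω : ℝ) + 1)) +
          (Real.exp (-(m / C)) + η) * ∑ ω ∈ Configs D a b, wt n x a ω)) ∧
    ∀ t : ℝ, ∑ ω ∈ Configs D a b, wt n x a ω * (nM D a b ω : ℝ) ≤
      C * ∑ ω ∈ Configs D a b, wt n x a ω * ((len ω a : ℝ) - t) ^ 2 := by
  have hl : 0 < Real.log (mu n x) := Real.log_pos (mu_gt hn hx)
  have hl2 : 0 < Real.log 2 := Real.log_pos (by norm_num)
  have hx2 : 0 < x ^ 2 := by positivity
  set c1 : ℝ := 1 / Real.sqrt (min 1 (Real.log (mu n x) / (2 * Real.log 2))) with hc1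
  have hc10 : 0 ≤ c1 := by positivity
  set k1 : ℝ := 2 * (1 + x ^ 2) ^ 2 / x ^ 2 with hk1
  have hk10 : 0 ≤ k1 := by positivity
  set k2 : ℝ := Real.log 2 / Real.log (mu n x) * ((1 + x ^ 2) ^ 2 / (4 * x ^ 2)) with hk2
  have hk20 : 0 ≤ k2 := by positivity
  set C : ℝ := 1 + k1 * c1 + k1 + (1 + x ^ 2) + 2 / Real.log (mu n x) + k2 with hC
  have h2l : 0 ≤ 2 / Real.log (mu n x) := by positivity
  have hkc : 0 ≤ k1 * c1 := by positivity
  have hC1 : 1 ≤ C := by linarith
  refine ⟨C, hC1, ?_⟩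
  intro D a b m hm0 hm
  constructor
  · intro η F f hη hF hloc hf
    have hb := (bal (D := D) (a := a) (b := b) hn hx).shift η F f hF hf
      (bal_F hn hx η hη F f hf hloc)
    have hs := sum_sqrt hn hx m hm
    have hZ : 0 ≤ ∑ ω ∈ Configs D a b, wt n x a ω :=
      Finset.sum_nonneg fun ω _ => (wt_pos hn hx a ω).le
    have hS : 0 ≤ ∑ ω ∈ Configs D a b, wt n x a ω *
        (1 / Real.sqrt ((nM D a b ω : ℝ) + 1)) :=
      Finset.sum_nonneg fun ω _ => by
        have := (wt_pos hn hx a ω).le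
        positivity
    have he : Real.exp (-(m * (Real.log (mu n x) / 2))) ≤ Real.exp (-(m / C)) := by
      apply Real.exp_le_exp.2
      have h1 : 1 / C ≤ Real.log (mu n x) / 2 := by
        rw [div_le_iff₀ (by linarith)]
        have h2 : 2 / Real.log (mu n x) ≤ C := by linarith
        calc (1 : ℝ) = Real.log (mu n x) / 2 * (2 / Real.log (mu n x)) := by field_simp
          _ ≤ Real.log (mu n x) / 2 * C := by gcongr
      have h2 : m * (1 / C) ≤ m * (Real.log (mu n x) / 2) := by gcongr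
      have h3 : m / C = m * (1 / C) := by ring
      rw [h3]
      linarith
    generalize ∑ ω ∈ Configs D a b, wt n x a ω * (1 / Real.sqrt ((nM D a b ω : ℝ) + 1)) = S at *
    generalize ∑ ω ∈ Configs D a b, wt n x a ω = Z at *
    generalize ∑ ω ∈ Configs D a b, wt n x a ω *
        (1 / Real.sqrt ((nA D a b ω : ℝ) + nB D a b ω + 1)) = G at *
    generalize |∑ ω ∈ Configs D a b, wt n x a ω * (F ω * f (len ω a + 2)) -
          ∑ ω ∈ Configs D a b, wt n x a ω * (F ω * f (len ω a))| = T at *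
    have h1 : T ≤ k1 * G + (1 + x ^ 2) * η * Z := by
      have h2 : x ^ 2 * T ≤ x ^ 2 * (k1 * G + (1 + x ^ 2) * η * Z) := by
        refine hb.trans (le_of_eq ?_)
        rw [hk1]
        field_simp
      exact le_of_mul_le_mul_left h2 hx2
    have h2 : k1 * G ≤ k1 * (c1 * S + Real.exp (-(m / C)) * Z) := by
      apply mul_le_mul_of_nonneg_left _ hk10
      refine hs.trans ?_
      gcongr
    have h3 : k1 * c1 * S ≤ C * S := by
      apply mul_le_mul_of_nonneg_right _ hS
      linarith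
    have h4 : k1 * (Real.exp (-(m / C)) * Z) ≤ C * (Real.exp (-(m / C)) * Z) := by
      apply mul_le_mul_of_nonneg_right _ (by positivity)
      linarith
    have h5 : (1 + x ^ 2) * (η * Z) ≤ C * (η * Z) := by
      apply mul_le_mul_of_nonneg_right _ (by positivity)
      linarith
    nlinarith
  · intro t
    have h1 := (bal (D := D) (a := a) (b := b) hn hx).var t
    have h2 := sum_M (D := D) (a := a) (b := b) hn hx
    have hL : 0 ≤ ∑ ω ∈ Configs D a b, wt n x a ω * ((len ω a : ℝ) - t) ^ 2 :=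
      Finset.sum_nonneg fun ω _ => by
        have := (wt_pos hn hx a ω).le
        positivity
    generalize ∑ ω ∈ Configs D a b, wt n x a ω * ((len ω a : ℝ) - t) ^ 2 = L at *
    generalize ∑ ω ∈ Configs D a b, wt n x a ω * ((nA D a b ω : ℝ) + nB D a b ω) = G at *
    generalize ∑ ω ∈ Configs D a b, wt n x a ω * (nM D a b ω : ℝ) = M at *
    have h3 : M ≤ Real.log 2 / Real.log (mu n x) * G := by
      rw [div_mul_eq_mul_div, le_div_iff₀ hl]
      linarith
    have h4 : G ≤ (1 + x ^ 2) ^ 2 / (4 * x ^ 2) * L := by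
      rw [div_mul_eq_mul_div, le_div_iff₀ (by positivity)]
      linarith
    calc M ≤ Real.log 2 / Real.log (mu n x) * G := h3
      _ ≤ Real.log 2 / Real.log (mu n x) * ((1 + x ^ 2) ^ 2 / (4 * x ^ 2) * L) := by gcongr
      _ = k2 * L := by rw [hk2]; ring
      _ ≤ C * L := by
          apply mul_le_mul_of_nonneg_right _ hL
          linarith

end Pool.Agent.V7H29.FE
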