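import Pool.Agent.V7H29.FE.Main

set_option autoImplicit false

/-! The normalised form of the estimates. -/

namespace Pool.Agent.V7H29.FE

open Finset

/-- mean values -/
noncomputable def mv (n x : ℝ) (D : Finset V) (a b : V) (F : Finset (Sym2 V) → ℝ) : ℝ :=
  (∑ ω ∈ Configs D a b, wt n x a ω * F ω) / ∑ ω ∈ Configs D a b, wt n x a ω

theorem mv_le {n x : ℝ} (hn : 0 < n) (hx : 0 < x) {D : Finset V} {a b : V}
    {F G : Finset (Sym2 V) → ℝ} {c : ℝ} (hc : 0 ≤ c)
    (h : ∑ ω ∈ Configs D a b, wt n x a ω * F ω ≤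
      c * (∑ ω ∈ Configs D a b, wt n x a ω * G ω)) :
    mv n x D a b F ≤ c * mv n x D a b G := by
  have hZ : 0 ≤ ∑ ω ∈ Configs D a b, wt n x a ω :=
    Finset.sum_nonneg fun ω _ => (wt_pos hn hx a ω).le
  unfold mv
  rw [← mul_div_assoc]
  gcongr

theorem mv_mono {n x : ℝ} (hn : 0 < n) (hx : 0 < x) {D : Finset V} {a b : V}
    {F G : Finset (Sym2 V) → ℝ} (h : ∀ ω ∈ Configs D a b, F ω ≤ G ω) :
    mv n x D a b F ≤ mv n x D a b G := by
  have := mv_le hn hx (D := D) (a := a) (b := b) (F := F) (G := G) zero_le_one (by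
    rw [one_mul]
    exact Finset.sum_le_sum fun ω hω => mul_le_mul_of_nonneg_left (h ω hω) (wt_pos hn hx a ω).le)
  rwa [one_mul] at this

theorem mv_const {n x : ℝ} (hn : 0 < n) (hx : 0 < x) (D : Finset V) (a b : V) (c : ℝ)
    (hc : 0 ≤ c) : mv n x D a b (fun _ => c) ≤ c := by
  unfold mv
  have hZ : 0 ≤ ∑ ω ∈ Configs D a b, wt n x a ω :=
    Finset.sum_nonneg fun ω _ => (wt_pos hn hx a ω).le
  rw [← Finset.sum_mul]
  rcases eq_or_lt_of_le hZ with h | h
  · rw [← h]
    simpa using hc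
  · rw [div_le_iff₀ h]
    linarith

theorem mv_sub (n x : ℝ) (D : Finset V) (a b : V) (F G : Finset (Sym2 V) → ℝ) :
    mv n x D a b F - mv n x D a b G =
      (∑ ω ∈ Configs D a b, wt n x a ω * F ω - ∑ ω ∈ Configs D a b, wt n x a ω * G ω) /
        ∑ ω ∈ Configs D a b, wt n x a ω := by
  unfold mv
  rw [sub_div]

/-- the normalised estimates -/
theorem norm {n x : ℝ} (hn : 0 < n) (hx : 0 < x) : ∃ C : ℝ, 1 ≤ C ∧
    ∀ (D : Finset V) (a b : V) (m : ℕ), (∀ ω ∈ Configs D a b, m ≤ nM D a b ω) →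
    ∀ I : ℝ, I = mv n x D a b (fun ω => 1 / Real.sqrt ((nM D a b ω : ℝ) + 1)) +
        Real.exp (-((m : ℝ) / C)) →
    I ≤ 2 * C / Real.sqrt ((m : ℝ) + 1) ∧
    (∀ (η : ℝ) (F : Finset (Sym2 V) → ℝ) (f : ℕ → ℝ), 0 ≤ η →
      (∀ ω ∈ Configs D a b, 0 ≤ F ω ∧ F ω ≤ 1) → Loc D a b η F → (∀ k, 0 ≤ f k ∧ f k ≤ 1) →
      |mv n x D a b (fun ω => F ω * f (len ω a)) -
        mv n x D a b (fun ω => F ω * f (len ω a + 2))| ≤ C * (I + η)) ∧
    (∀ k : ℕ, mv n x D a b (fun ω => if len ω a = k then 1 else 0) ≤ C * I) ∧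
    (∀ t : ℝ, mv n x D a b (fun ω => (nM D a b ω : ℝ)) ≤
      C * mv n x D a b (fun ω => ((len ω a : ℝ) - t) ^ 2)) ∧
    (∀ (g : ℕ) (l0 : ℤ) (j : ℕ),
      mv n x D a b (fun ω => if nA D a b ω + nB D a b ω = g ∧
        (len ω a : ℤ) - 2 * nB D a b ω = l0 ∧ (len ω a : ℤ) = l0 + 2 * j then 1 else 0) =
      mv n x D a b (fun ω => if nA D a b ω + nB D a b ω = g ∧
        (len ω a : ℤ) - 2 * nB D a b ω = l0 then 1 else 0) *
        ((g.choose j : ℝ) * (x ^ 2 / (1 + x ^ 2)) ^ j * (1 / (1 + x ^ 2)) ^ (g - j))) ∧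
    mv n x D a b (fun ω => if C * ((nA D a b ω + nB D a b ω : ℕ) : ℝ) < nM D a b ω
      then 1 else 0) ≤ Real.exp (-((m : ℝ) / C)) := by
  obtain ⟨C0, hC0, hmain⟩ := main hn hx
  have hl : 0 < Real.log (mu n x) := Real.log_pos (mu_gt hn hx)
  have hl2 : 0 < Real.log 2 := Real.log_pos (by norm_num)
  set C : ℝ := C0 + 2 * Real.log 2 / Real.log (mu n x) + 2 / Real.log (mu n x) with hC
  have p1 : 0 ≤ 2 * Real.log 2 / Real.log (mu n x) := by positivity
  have p2 : 0 ≤ 2 / Real.log (mu n x) := by positivity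
  have hC1 : 1 ≤ C := by linarith
  have hCC : C0 ≤ C := by linarith
  refine ⟨C, hC1, ?_⟩
  intro D a b m hm I hI
  have hZ : 0 ≤ ∑ ω ∈ Configs D a b, wt n x a ω :=
    Finset.sum_nonneg fun ω _ => (wt_pos hn hx a ω).le
  have hm' : ∀ ω ∈ Configs D a b, (m : ℝ) ≤ nM D a b ω := fun ω hω => by
    exact_mod_cast hm ω hω
  obtain ⟨h1, h2⟩ := hmain D a b m (Nat.cast_nonneg m) hm'
  have hexp : Real.exp (-((m : ℝ) / C0)) ≤ Real.exp (-((m : ℝ) / C)) := by
    apply Real.exp_le_exp.2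
    have : (m : ℝ) / C ≤ (m : ℝ) / C0 := by gcongr
    linarith
  have hS0 : 0 ≤ mv n x D a b (fun ω => 1 / Real.sqrt ((nM D a b ω : ℝ) + 1)) := by
    unfold mv
    apply div_nonneg _ hZ
    apply Finset.sum_nonneg
    intro ω _
    have := (wt_pos hn hx a ω).le
    positivity
  have hI0 : 0 ≤ I := by
    rw [hI]
    have := Real.exp_pos (-((m : ℝ) / C))
    linarith
  have hshift : ∀ (η : ℝ) (F : Finset (Sym2 V) → ℝ) (f : ℕ → ℝ), 0 ≤ η →
      (∀ ω ∈ Configs D a b, 0 ≤ F ω ∧ F ω ≤ 1) → Loc D a b η F → (∀ k, 0 ≤ f k ∧ f k ≤ 1) →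
      |mv n x D a b (fun ω => F ω * f (len ω a)) -
        mv n x D a b (fun ω => F ω * f (len ω a + 2))| ≤ C * (I + η) := by
    intro η F f hη hF hloc hf
    have h3 := h1 η F f hη hF hloc hf
    rw [mv_sub, abs_div, abs_sub_comm, abs_of_nonneg hZ]
    rcases eq_or_lt_of_le hZ with h | h
    · rw [← h, div_zero]
      positivity
    · rw [div_le_iff₀ h]
      have h4 : mv n x D a b (fun ω => 1 / Real.sqrt ((nM D a b ω : ℝ) + 1)) *
          ∑ ω ∈ Configs D a b, wt n x a ω =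
          ∑ ω ∈ Configs D a b, wt n x a ω * (1 / Real.sqrt ((nM D a b ω : ℝ) + 1)) := by
        unfold mv
        rw [div_mul_cancel₀ _ h.ne']
      rw [← h4] at h3
      have hE := (Real.exp_pos (-((m : ℝ) / C))).le
      rw [hI]
      generalize mv n x D a b (fun ω => 1 / Real.sqrt ((nM D a b ω : ℝ) + 1)) = S at *
      generalize ∑ ω ∈ Configs D a b, wt n x a ω = Z at *
      calc _ ≤ C0 * (S * Z + (Real.exp (-((m : ℝ) / C0)) + η) * Z) := h3
        _ ≤ C * (S * Z + (Real.exp (-((m : ℝ) / C)) + η) * Z) := by gcongr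
        _ = C * (S + Real.exp (-((m : ℝ) / C)) + η) * Z := by ring
  refine ⟨?_, hshift, ?_, ?_, ?_, ?_⟩
  · rw [hI]
    have hs : 0 < Real.sqrt ((m : ℝ) + 1) := Real.sqrt_pos.2 (by positivity)
    have h3 : mv n x D a b (fun ω => 1 / Real.sqrt ((nM D a b ω : ℝ) + 1)) ≤
        1 / Real.sqrt ((m : ℝ) + 1) := by
      refine (mv_mono hn hx (G := fun _ => 1 / Real.sqrt ((m : ℝ) + 1)) ?_).trans
        (mv_const hn hx D a b _ (by positivity))
      intro ω hω
      apply one_div_le_one_div_of_le hs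
      apply Real.sqrt_le_sqrt
      have := hm' ω hω
      linarith
    have h4 : Real.exp (-((m : ℝ) / C)) ≤ C / Real.sqrt ((m : ℝ) + 1) := by
      have h5 : Real.exp (-((m : ℝ) / C)) ≤ 1 / ((m : ℝ) / C + 1) := by
        rw [Real.exp_neg, ← one_div]
        apply one_div_le_one_div_of_le (by positivity)
        exact Real.add_one_le_exp _
      have h6 : 1 / ((m : ℝ) / C + 1) ≤ C / ((m : ℝ) + 1) := by
        rw [div_le_div_iff₀ (by positivity) (by positivity)]
        have : C * ((m : ℝ) / C + 1) = m + C := by field_simp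
        linarith
      have h7 : C / ((m : ℝ) + 1) ≤ C / Real.sqrt ((m : ℝ) + 1) := by
        apply div_le_div_of_nonneg_left (by linarith) hs
        rw [Real.sqrt_le_left (by positivity)]
        have : (0 : ℝ) ≤ m := Nat.cast_nonneg m
        nlinarith
      linarith
    have h5 : 1 / Real.sqrt ((m : ℝ) + 1) ≤ C / Real.sqrt ((m : ℝ) + 1) := by gcongr
    have h6 : 2 * C / Real.sqrt ((m : ℝ) + 1) =
        C / Real.sqrt ((m : ℝ) + 1) + C / Real.sqrt ((m : ℝ) + 1) := by ring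
    linarith
  · intro k
    have h3 := hshift 0 (fun _ => 1) (fun l => if l ≤ k ∧ l % 2 = k % 2 then 1 else 0)
      (le_refl _) (fun _ _ => ⟨zero_le_one, le_refl _⟩)
      (fun ω _ c _ _ => by simp) (fun l => by
        by_cases hl : l ≤ k ∧ l % 2 = k % 2
        · rw [if_pos hl]; exact ⟨zero_le_one, le_refl _⟩
        · rw [if_neg hl]; exact ⟨le_refl _, zero_le_one⟩)
    rw [add_zero] at h3
    refine le_trans (le_of_eq ?_) ((le_abs_self _).trans h3)
    unfold mv
    rw [← sub_div, ← Finset.sum_sub_distrib]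
    congr 1
    refine Finset.sum_congr rfl fun ω _ => ?_
    rw [← mul_sub]
    congr 1
    simp only [one_mul]
    generalize len ω a = l
    by_cases hlk : l = k
    · rw [if_pos hlk, if_pos ⟨by omega, by omega⟩, if_neg (by omega)]
      norm_num
    · by_cases hl : l ≤ k ∧ l % 2 = k % 2
      · rw [if_neg hlk, if_pos hl, if_pos (by omega)]
        norm_num
      · rw [if_neg hlk, if_neg hl, if_neg (by omega)]
        norm_num
  · intro t
    apply mv_le hn hx (by linarith)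
    refine (h2 t).trans ?_
    have : 0 ≤ ∑ ω ∈ Configs D a b, wt n x a ω * ((len ω a : ℝ) - t) ^ 2 :=
      Finset.sum_nonneg fun ω _ => by
        have := (wt_pos hn hx a ω).le
        positivity
    gcongr
  · intro g l0 j
    have h3 := (bal (D := D) (a := a) (b := b) hn hx).mixture g l0 j
    unfold mv
    rw [h3]
    ring
  · have h3 := tail (D := D) (a := a) (b := b) hn hx m hm' (C := C) (by linarith) (by linarith)
    have h4 : Real.exp (-((m : ℝ) * (Real.log (mu n x) / 2))) ≤ Real.exp (-((m : ℝ) / C)) := by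
      apply Real.exp_le_exp.2
      have h5 : 1 / C ≤ Real.log (mu n x) / 2 := by
        rw [div_le_iff₀ (by linarith)]
        have h6 : 2 / Real.log (mu n x) ≤ C := by linarith
        calc (1 : ℝ) = Real.log (mu n x) / 2 * (2 / Real.log (mu n x)) := by field_simp
          _ ≤ Real.log (mu n x) / 2 * C := by gcongr
      have h6 : (m : ℝ) * (1 / C) ≤ m * (Real.log (mu n x) / 2) := by gcongr
      have h7 : (m : ℝ) / C = m * (1 / C) := by ring
      rw [h7]
      linarith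
    have h5 : mv n x D a b (fun ω => if C * ((nA D a b ω + nB D a b ω : ℕ) : ℝ) < nM D a b ω
        then 1 else 0) ≤ Real.exp (-((m : ℝ) * (Real.log (mu n x) / 2))) := by
      unfold mv
      rcases eq_or_lt_of_le hZ with h | h
      · rw [← h, div_zero]
        positivity
      · rw [div_le_iff₀ h]
        exact h3
    linarith

end Pool.Agent.V7H29.FE
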