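import Pool.Agent.V7H29.FE.Base

set_option autoImplicit false

/-! Connectivity: the path, the loops, and local changes. -/

namespace Pool.Agent.V7H29.FE

open Finset

/-- connected by edges of `ω` -/
def Reach (ω : Finset (Sym2 V)) (u v : V) : Prop :=
  Relation.ReflTransGen (fun u v => s(u, v) ∈ ω) u v

theorem Reach.refl (ω : Finset (Sym2 V)) (u : V) : Reach ω u u := Relation.ReflTransGen.refl

theorem Reach.trans {ω : Finset (Sym2 V)} {u v w : V} (h1 : Reach ω u v) (h2 : Reach ω v w) :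
    Reach ω u w := Relation.ReflTransGen.trans h1 h2

theorem Reach.edge {ω : Finset (Sym2 V)} {u v : V} (h : s(u, v) ∈ ω) : Reach ω u v :=
  Relation.ReflTransGen.single h

theorem Reach.symm {ω : Finset (Sym2 V)} {u v : V} (h : Reach ω u v) : Reach ω v u := by
  unfold Reach at *
  induction h with
  | refl => exact Relation.ReflTransGen.refl
  | tail _ h2 ih => exact Relation.ReflTransGen.head (by rw [Sym2.eq_swap]; exact h2) ih

theorem Reach.mono {ω ω' : Finset (Sym2 V)} {u v : V} (h : Reach ω u v)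
    (hs : ∀ e ∈ ω, e ∈ ω') : Reach ω' u v := by
  unfold Reach at *
  induction h with
  | refl => exact Relation.ReflTransGen.refl
  | tail _ h2 ih => exact Relation.ReflTransGen.tail ih (hs _ h2)

/-- the sets of vertices of the loops -/
def loopSets (ω : Finset (Sym2 V)) (a : V) : Set (Set V) :=
  {S | ∃ e ∈ ω, ∃ v ∈ e, ¬ Reach ω a v ∧ S = {u | Reach ω v u}}

/-- the number of loops -/
noncomputable def loops (ω : Finset (Sym2 V)) (a : V) : ℕ := (loopSets ω a).ncard

/-- the edges of the path -/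
noncomputable def pe (ω : Finset (Sym2 V)) (a : V) : Finset (Sym2 V) :=
  open scoped Classical in ω.filter (fun e => ∃ v ∈ e, Reach ω a v)

theorem mem_pe {ω : Finset (Sym2 V)} {a : V} {e : Sym2 V} :
    e ∈ pe ω a ↔ e ∈ ω ∧ ∃ v ∈ e, Reach ω a v := by
  classical
  unfold pe
  rw [Finset.mem_filter]

/-- the length of the path -/
noncomputable def len (ω : Finset (Sym2 V)) (a : V) : ℕ := (pe ω a).card

/-- the weight -/
noncomputable def wt (n x : ℝ) (a : V) (ω : Finset (Sym2 V)) : ℝ := x ^ ω.card * n ^ loops ω a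

theorem wt_pos {n x : ℝ} (hn : 0 < n) (hx : 0 < x) (a : V) (ω : Finset (Sym2 V)) :
    0 < wt n x a ω := by
  unfold wt
  positivity

/-- `ω` and `ω'` agree on the edges with an end outside `W` -/
def Agree (W : Set V) (ω ω' : Finset (Sym2 V)) : Prop :=
  ∀ e, (∃ v ∈ e, v ∉ W) → (e ∈ ω ↔ e ∈ ω')

theorem Agree.symm {W : Set V} {ω ω' : Finset (Sym2 V)} (h : Agree W ω ω') : Agree W ω' ω :=
  fun e he => (h e he).symm

theorem cls_sub {W : Set V} {ω ω' : Finset (Sym2 V)} (h : Agree W ω ω') {v : V}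
    (hv : ∀ u, Reach ω v u → u ∉ W) {u : V} (hu : Reach ω v u) : Reach ω' v u := by
  unfold Reach at *
  induction hu with
  | refl => exact Relation.ReflTransGen.refl
  | tail h1 h2 ih =>
    refine Relation.ReflTransGen.tail ih ?_
    exact (h _ ⟨_, Sym2.mem_mk_left _ _, hv _ h1⟩).1 h2

theorem cls_sub' {W : Set V} {ω ω' : Finset (Sym2 V)} (h : Agree W ω ω') {v : V}
    (hv : ∀ u, Reach ω v u → u ∉ W) {u : V} (hu : Reach ω' v u) : Reach ω v u := by
  have key : ∀ u, Relation.ReflTransGen (fun u v => s(u, v) ∈ ω') v u → Reach ω v u := by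
    clear hu
    intro u h0
    induction h0 with
    | refl => exact Reach.refl _ _
    | tail h1 h2 ih =>
      refine Reach.trans ih (Reach.edge ?_)
      exact (h _ ⟨_, Sym2.mem_mk_left _ _, hv _ ih⟩).2 h2
  exact key u hu

theorem cls_eq {W : Set V} {ω ω' : Finset (Sym2 V)} (h : Agree W ω ω') {v : V}
    (hv : ∀ u, Reach ω v u → u ∉ W) (u : V) : Reach ω v u ↔ Reach ω' v u :=
  ⟨cls_sub h hv, cls_sub' h hv⟩

/-- the vertices of the edges -/
def verts (ω : Finset (Sym2 V)) : Finset V := ω.biUnion (fun e => e.toFinset)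

theorem mem_verts {ω : Finset (Sym2 V)} {v : V} : v ∈ verts ω ↔ ∃ e ∈ ω, v ∈ e := by
  unfold verts
  simp only [Finset.mem_biUnion, Sym2.mem_toFinset]

theorem loopSets_finite (ω : Finset (Sym2 V)) (a : V) : (loopSets ω a).Finite := by
  apply Set.Finite.subset ((verts ω).finite_toSet.image (fun v => {u | Reach ω v u}))
  rintro S ⟨e, he, v, hv, _, rfl⟩
  exact ⟨v, by exact_mod_cast mem_verts.2 ⟨e, he, hv⟩, rfl⟩

theorem loops_le {W : Finset V} {ω ω' : Finset (Sym2 V)} (h : Agree (W : Set V) ω ω') (a : V) :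
    loops ω a ≤ loops ω' a + W.card := by
  unfold loops
  have hsub : loopSets ω a ⊆ loopSets ω' a ∪ (fun v => {u | Reach ω v u}) '' (W : Set V) := by
    rintro S ⟨e, he, v, hv, hna, rfl⟩
    by_cases hW : ∀ u, Reach ω v u → u ∉ (W : Set V)
    · left
      have hvW := hW v (Reach.refl _ _)
      refine ⟨e, (h e ⟨v, hv, hvW⟩).1 he, v, hv, ?_, ?_⟩
      · intro h1
        exact hna ((cls_eq h hW a).2 h1.symm).symm
      · ext u
        exact cls_eq h hW u
    · right
      push Not at hW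
      obtain ⟨w, hw, hwW⟩ := hW
      refine ⟨w, hwW, ?_⟩
      ext u
      exact ⟨fun h1 => hw.trans h1, fun h1 => hw.symm.trans h1⟩
  calc (loopSets ω a).ncard
      ≤ (loopSets ω' a ∪ (fun v => {u | Reach ω v u}) '' (W : Set V)).ncard :=
        Set.ncard_le_ncard hsub ((loopSets_finite ω' a).union (W.finite_toSet.image _))
    _ ≤ (loopSets ω' a).ncard + ((fun v => {u | Reach ω v u}) '' (W : Set V)).ncard :=
        Set.ncard_union_le _ _
    _ ≤ (loopSets ω' a).ncard + W.card := by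
        gcongr
        calc ((fun v => {u | Reach ω v u}) '' (W : Set V)).ncard ≤ (W : Set V).ncard :=
              Set.ncard_image_le W.finite_toSet
          _ = W.card := Set.ncard_coe_finset W

/-- the vertices of `W` which are on `ω` are on the path -/
def OnPath (W : Set V) (ω : Finset (Sym2 V)) (a : V) : Prop :=
  ∀ w ∈ W, (∃ e ∈ ω, w ∈ e) → Reach ω a w

theorem away {W : Set V} {ω : Finset (Sym2 V)} {a : V} (hH : OnPath W ω a)
    {v : V} (hv : ∃ e ∈ ω, v ∈ e) (hna : ¬ Reach ω a v) : ∀ u, Reach ω v u → u ∉ W := by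
  intro u hu huW
  have hinc : ∃ e ∈ ω, u ∈ e := by
    unfold Reach at hu
    rcases Relation.ReflTransGen.cases_tail hu with h | ⟨c, _, h⟩
    · rw [h]
      exact hv
    · exact ⟨_, h, Sym2.mem_mk_right _ _⟩
  exact hna ((hH u huW hinc).trans hu.symm)

theorem nonpath_sub {W : Set V} {ω ω' : Finset (Sym2 V)} {a : V} (h : Agree W ω ω')
    (hH : OnPath W ω a) {e : Sym2 V} (he : e ∈ ω) (hne : e ∉ pe ω a) :
    e ∈ ω' ∧ e ∉ pe ω' a := by
  have hna : ∀ v ∈ e, ¬ Reach ω a v := fun v hv hr => hne (mem_pe.2 ⟨he, v, hv, hr⟩)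
  have hex : ∃ v, v ∈ e := by
    induction e using Sym2.ind with
    | _ p q => exact ⟨p, Sym2.mem_mk_left _ _⟩
  obtain ⟨v0, hv0⟩ := hex
  have h0 := away hH ⟨e, he, hv0⟩ (hna v0 hv0)
  refine ⟨(h e ⟨v0, hv0, h0 v0 (Reach.refl _ _)⟩).1 he, ?_⟩
  intro hp
  obtain ⟨_, v, hv, hr⟩ := mem_pe.1 hp
  have h1 := away hH ⟨e, he, hv⟩ (hna v hv)
  exact hna v hv ((cls_eq h h1 a).2 hr.symm).symm

theorem loopSets_sub {W : Set V} {ω ω' : Finset (Sym2 V)} {a : V} (h : Agree W ω ω')
    (hH : OnPath W ω a) : loopSets ω a ⊆ loopSets ω' a := by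
  rintro S ⟨e, he, v, hv, hna, rfl⟩
  have h1 := away hH ⟨e, he, hv⟩ hna
  refine ⟨e, (h e ⟨v, hv, h1 v (Reach.refl _ _)⟩).1 he, v, hv, ?_, ?_⟩
  · intro h2
    exact hna ((cls_eq h h1 a).2 h2.symm).symm
  · ext u
    exact cls_eq h h1 u

theorem loops_eq {W : Set V} {ω ω' : Finset (Sym2 V)} {a : V} (h : Agree W ω ω')
    (hH : OnPath W ω a) (hH' : OnPath W ω' a) : loops ω a = loops ω' a := by
  unfold loops
  rw [Set.Subset.antisymm (loopSets_sub h hH) (loopSets_sub h.symm hH')]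

theorem nonpath_eq {W : Set V} {ω ω' : Finset (Sym2 V)} {a : V} (h : Agree W ω ω')
    (hH : OnPath W ω a) (hH' : OnPath W ω' a) : ω \ pe ω a = ω' \ pe ω' a := by
  ext e
  rw [Finset.mem_sdiff, Finset.mem_sdiff]
  exact ⟨fun h1 => nonpath_sub h hH h1.1 h1.2, fun h1 => nonpath_sub h.symm hH' h1.1 h1.2⟩

theorem pe_sub (ω : Finset (Sym2 V)) (a : V) : pe ω a ⊆ ω := fun _ h => (mem_pe.1 h).1

theorem len_card {ω ω' : Finset (Sym2 V)} {a : V} (h : ω \ pe ω a = ω' \ pe ω' a) :
    len ω a + ω'.card = len ω' a + ω.card := by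
  have h1 := Finset.card_sdiff_add_card_eq_card (pe_sub ω a)
  have h2 := Finset.card_sdiff_add_card_eq_card (pe_sub ω' a)
  have h3 := congrArg Finset.card h
  unfold len
  omega

end Pool.Agent.V7H29.FE
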