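import Pool.Agent.V7H29.FE.Tile

set_option autoImplicit false

/-! The local pattern. -/

namespace Pool.Agent.V7H29.FE

open Finset

/-- translation of an edge -/
def tr (c : V) (e : Sym2 V) : Sym2 V := Sym2.map (fun v => v + c) e

theorem tr_mk (c p q : V) : tr c s(p, q) = s(p + c, q + c) := rfl

theorem tr_inj (c : V) : Function.Injective (tr c) :=
  Sym2.map.injective (add_left_injective c)

theorem tr_inj_iff (c : V) {e e' : Sym2 V} : tr c e = tr c e' ↔ e = e' := (tr_inj c).eq_iff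

/-- translation of a set of edges -/
def trS (c : V) (S : Finset (Sym2 V)) : Finset (Sym2 V) := S.image (tr c)

theorem mem_trS {c : V} {S : Finset (Sym2 V)} {e : Sym2 V} : tr c e ∈ trS c S ↔ e ∈ S := by
  unfold trS
  rw [Finset.mem_image]
  constructor
  · rintro ⟨e', h, he⟩
    rw [← tr_inj c he]
    exact h
  · exact fun h => ⟨e, h, rfl⟩

theorem mem_tr {c v : V} {e : Sym2 V} : v ∈ tr c e ↔ ∃ w ∈ e, v = w + c := by
  unfold tr
  rw [Sym2.mem_map]
  exact ⟨fun ⟨w, h1, h2⟩ => ⟨w, h1, h2.symm⟩, fun ⟨w, h1, h2⟩ => ⟨w, h1, h2.symm⟩⟩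

/-- sums of the seven cycles -/
def X (A : Fin 7 → Bool) : Finset (Sym2 V) :=
  symmDiff (if A 0 then E 0 else ∅) (symmDiff (if A 1 then E 1 else ∅)
    (symmDiff (if A 2 then E 2 else ∅) (symmDiff (if A 3 then E 3 else ∅)
    (symmDiff (if A 4 then E 4 else ∅) (symmDiff (if A 5 then E 5 else ∅)
      (if A 6 then E 6 else ∅))))))

theorem mem_ite_E (A : Bool) (S : Finset (Sym2 V)) (e : Sym2 V) :
    e ∈ (if A then S else ∅) ↔ (A && decide (e ∈ S)) = true := by
  cases A <;> simp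

theorem xor_iff (p q : Prop) (a b : Bool) (h1 : p ↔ a = true) (h2 : q ↔ b = true) :
    ((p ∧ ¬ q) ∨ (q ∧ ¬ p)) ↔ (xor a b) = true := by
  rw [h1, h2]
  cases a <;> cases b <;> simp

theorem mem_X (A : Fin 7 → Bool) (e : Sym2 V) : e ∈ X A ↔
    (xor (A 0 && decide (e ∈ E 0)) (xor (A 1 && decide (e ∈ E 1))
      (xor (A 2 && decide (e ∈ E 2)) (xor (A 3 && decide (e ∈ E 3))
        (xor (A 4 && decide (e ∈ E 4)) (xor (A 5 && decide (e ∈ E 5))
          (A 6 && decide (e ∈ E 6)))))))) = true := by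
  unfold X
  simp only [Finset.mem_symmDiff]
  refine xor_iff _ _ _ _ (mem_ite_E _ _ _) (xor_iff _ _ _ _ (mem_ite_E _ _ _)
    (xor_iff _ _ _ _ (mem_ite_E _ _ _) (xor_iff _ _ _ _ (mem_ite_E _ _ _)
    (xor_iff _ _ _ _ (mem_ite_E _ _ _) (xor_iff _ _ _ _ (mem_ite_E _ _ _) (mem_ite_E _ _ _))))))

theorem g_mem_X (A : Fin 7 → Bool) (k : Fin 6) : g k ∈ X A ↔ A (Fin.castSucc k) = true := by
  rw [mem_X]
  have h : ∀ k' : Fin 7, decide (g k ∈ E k') = decide (k' = Fin.castSucc k) := by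
    intro k'
    rw [decide_eq_decide, g_mem_E, Fin.ext_iff, Fin.val_castSucc]
  simp only [h]
  fin_cases k <;> simp

theorem ep_mem_X (A : Fin 7 → Bool) (i : Fin 12) : ep i ∈ X A ↔ (xor (A (kf i)) (A 6)) = true := by
  rw [mem_X]
  have h : ∀ k' : Fin 7, decide (ep i ∈ E k') = decide (k' = kf i ∨ k' = 6) := by
    intro k'
    rw [decide_eq_decide, ep_mem_E]
  simp only [h]
  fin_cases i <;> simp [kf]

theorem eo_mem {l : List V} {e : Sym2 V} (h : e ∈ eo l) :
    ∃ p ∈ l.zip (l.rotate 1), e = s(p.1, p.2) := by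
  unfold eo at h
  rw [List.mem_toFinset, List.mem_map] at h
  obtain ⟨p, h1, h2⟩ := h
  exact ⟨p, h1, h2.symm⟩

theorem cyc_zip : ∀ k : Fin 7, ∀ p ∈ (cyc k).zip ((cyc k).rotate 1),
    p.1 ∈ TV ∧ p.2 ∈ TV ∧ Adj p.1 p.2 := by decide +kernel

theorem E_mem (k : Fin 7) {e : Sym2 V} (h : e ∈ E k) :
    ∃ p q, e = s(p, q) ∧ p ∈ TV ∧ q ∈ TV ∧ Adj p q := by
  obtain ⟨p, h1, h2⟩ := eo_mem h
  obtain ⟨h3, h4, h5⟩ := cyc_zip k p h1
  exact ⟨p.1, p.2, h2, h3, h4, h5⟩

theorem X_mem {A : Fin 7 → Bool} {e : Sym2 V} (h : e ∈ X A) :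
    ∃ p q, e = s(p, q) ∧ p ∈ TV ∧ q ∈ TV ∧ Adj p q := by
  by_contra hc
  have h1 : ∀ k, decide (e ∈ E k) = false := by
    intro k
    rw [decide_eq_false_iff_not]
    exact fun h2 => hc (E_mem k h2)
  rw [mem_X] at h
  simp [h1] at h

theorem pr_empty (v : V) : pr ∅ v = false := by
  unfold pr
  simp

theorem pr_E (k : Fin 7) (v : V) : pr (E k) v = false := by
  by_cases h : v ∈ TV
  · exact E_pr k v h
  · have h1 : ∀ e, v ∈ e → e ∉ E k := by
      intro e he hE
      obtain ⟨p, q, rfl, hp, hq, _⟩ := E_mem k hE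
      rw [Sym2.mem_iff] at he
      rcases he with rfl | rfl
      · exact h hp
      · exact h hq
    unfold pr
    simp [h1 _ (mem_eR v), h1 _ (mem_eL v), h1 _ (mem_eT v)]

theorem pr_X (A : Fin 7 → Bool) (v : V) : pr (X A) v = false := by
  have h : ∀ (b : Bool) (k : Fin 7), pr (if b then E k else ∅) v = false := by
    intro b k
    cases b
    · exact pr_empty v
    · exact pr_E k v
  unfold X
  simp only [pr_symm, h]
  rfl

theorem eR_add (v c : V) : eR (v + c) = tr c (eR v) := by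
  have e : (((v + c).1 + 1, (v + c).2) : V) = ((v.1 + 1, v.2) : V) + c := by
    ext
    · show v.1 + c.1 + 1 = v.1 + 1 + c.1
      ring
    · rfl
  unfold eR
  rw [tr_mk, e]

theorem eL_add (v c : V) : eL (v + c) = tr c (eL v) := by
  have e : (((v + c).1 - 1, (v + c).2) : V) = ((v.1 - 1, v.2) : V) + c := by
    ext
    · show v.1 + c.1 - 1 = v.1 - 1 + c.1
      ring
    · rfl
  unfold eL
  rw [tr_mk, e]

theorem tn_add (v c : V) (hc : (c.1 + c.2) % 2 = 0) : tn (v + c) = tn v + c := by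
  unfold tn
  simp only [Prod.fst_add, Prod.snd_add]
  by_cases h : (v.1 + v.2) % 2 = 0
  · rw [if_pos (by omega), if_pos h]
    ext
    · simp
    · simp only [Prod.snd_add]; ring
  · rw [if_neg (by omega), if_neg h]
    ext
    · simp
    · simp only [Prod.snd_add]; ring

theorem eT_add (v c : V) (hc : (c.1 + c.2) % 2 = 0) : eT (v + c) = tr c (eT v) := by
  unfold eT
  rw [tr_mk, tn_add v c hc]

theorem adj_add {p q c : V} (hc : (c.1 + c.2) % 2 = 0) : Adj (p + c) (q + c) ↔ Adj p q := by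
  rw [adj_iff, adj_iff]
  simp only [Prod.fst_add, Prod.snd_add]
  omega

theorem pr_trS (c : V) (hc : (c.1 + c.2) % 2 = 0) (S : Finset (Sym2 V)) (v : V) :
    pr (trS c S) v = pr S (v - c) := by
  have e : v = (v - c) + c := by simp
  unfold pr
  conv_lhs => rw [e]
  rw [eR_add, eL_add, eT_add _ _ hc]
  simp only [mem_trS]

/-- the tile with centre `c` -/
def tile (c : V) : Finset V := TV.image (fun v => v + c)

theorem mem_tile {c v : V} : v ∈ tile c ↔ v - c ∈ TV := by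
  unfold tile
  rw [Finset.mem_image]
  constructor
  · rintro ⟨w, h, rfl⟩
    simpa using h
  · intro h
    exact ⟨v - c, h, by simp⟩

theorem add_mem_tile {c v : V} (h : v ∈ TV) : v + c ∈ tile c := by
  rw [mem_tile]
  simpa using h

/-- the possible centres -/
def IsC (c : V) : Prop := c.1 % 6 = 0 ∧ (c.2 - 2 * (c.1 / 6)) % 4 = 0

theorem IsC.even {c : V} (h : IsC c) : (c.1 + c.2) % 2 = 0 := by
  unfold IsC at h
  omega

/-- the index of the column of the tile -/
def ci (v : V) : ℤ :=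
  if v.1 - 6 * ((v.1 + 1) / 6) = 4 ∧ ((v.2 - 2 * ((v.1 + 1) / 6) + 1) % 4 = 0 ∨
    (v.2 - 2 * ((v.1 + 1) / 6) + 1) % 4 = 3) then (v.1 + 1) / 6 + 1 else (v.1 + 1) / 6

/-- the centre of the tile of `v` -/
def ctr (v : V) : V := (6 * ci v, v.2 + 1 - (v.2 - 2 * ci v + 1) % 4)

theorem ctr_isC (v : V) : IsC (ctr v) := by
  unfold IsC ctr
  generalize ci v = p
  simp only
  omega

theorem ctr_tile (v : V) : v ∈ tile (ctr v) := by
  rw [mem_tile, mem_TV]
  unfold ctr ci
  simp only [Prod.fst_sub, Prod.snd_sub]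
  split_ifs with h <;> omega

theorem ctr_unique {c v : V} (hc : IsC c) (h : v ∈ tile c) : ctr v = c := by
  rw [mem_tile, mem_TV] at h
  unfold IsC at hc
  obtain ⟨c1, c2⟩ := c
  obtain ⟨v1, v2⟩ := v
  simp only [Prod.fst_sub, Prod.snd_sub] at h hc
  have hci : 6 * ci (v1, v2) = c1 := by
    unfold ci
    simp only
    split_ifs with h2 <;> omega
  unfold ctr
  rw [Prod.mk.injEq]
  refine ⟨hci, ?_⟩
  simp only
  omega

/-- the pattern used by a path which enters the tile at `att i` -/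
def ga (i : Fin 12) (k : Fin 6) : Bool := decide (k = ks i ∨ k = ks i + 1)

/-- the coefficients, for the outer faces -/
def Ak (ω : Finset (Sym2 V)) (c : V) (i : Fin 12) (k : Fin 7) : Bool :=
  if h : k.val < 6 then xor (decide (tr c (g ⟨k.val, h⟩) ∈ ω)) (ga i ⟨k.val, h⟩) else false

/-- the coefficients -/
def Af (ω : Finset (Sym2 V)) (c : V) (i : Fin 12) (k : Fin 7) : Bool :=
  if k = 6 then !(xor (decide (tr c (ep i) ∈ ω)) (Ak ω c i (kf i))) else Ak ω c i k

/-- the changed configuration -/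
def st (ω : Finset (Sym2 V)) (c : V) (i : Fin 12) : Finset (Sym2 V) :=
  symmDiff ω (trS c (X (Af ω c i)))

theorem kf_ne (i : Fin 12) : kf i ≠ 6 := by
  fin_cases i <;> decide

theorem st_g (ω : Finset (Sym2 V)) (c : V) (i : Fin 12) (k : Fin 6) :
    tr c (g k) ∈ st ω c i ↔ k = ks i ∨ k = ks i + 1 := by
  unfold st
  rw [Finset.mem_symmDiff, mem_trS, g_mem_X]
  have h : Af ω c i (Fin.castSucc k) = xor (decide (tr c (g k) ∈ ω)) (ga i k) := by
    unfold Af Ak
    have h1 : (Fin.castSucc k : Fin 7) ≠ 6 := by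
      intro h
      have := congrArg Fin.val h
      simp at this
      omega
    rw [if_neg h1, dif_pos (by simp)]
    rfl
  rw [h]
  unfold ga
  by_cases h1 : tr c (g k) ∈ ω <;> by_cases h2 : (k = ks i ∨ k = ks i + 1) <;> simp [h1, h2]

theorem st_ep (ω : Finset (Sym2 V)) (c : V) (i : Fin 12) : tr c (ep i) ∈ st ω c i := by
  unfold st
  rw [Finset.mem_symmDiff, mem_trS, ep_mem_X]
  have h1 : Af ω c i (kf i) = Ak ω c i (kf i) := by
    unfold Af
    rw [if_neg (kf_ne i)]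
  have h2 : Af ω c i 6 = !(xor (decide (tr c (ep i) ∈ ω)) (Ak ω c i (kf i))) := by
    unfold Af
    rw [if_pos rfl]
  rw [h1, h2]
  cases Ak ω c i (kf i) <;> by_cases h : tr c (ep i) ∈ ω <;> simp [h]

/-- the tile is inside the domain and does not contain the ends of the path -/
def Ins (D : Finset V) (a b c : V) : Prop :=
  IsC c ∧ (∀ v ∈ tile c, v ∈ D) ∧ a ∉ tile c ∧ b ∉ tile c

theorem trS_sub {D : Finset V} {a b c : V} (hI : Ins D a b c) {S : Finset (Sym2 V)}
    (hS : ∀ e ∈ S, ∃ p q, e = s(p, q) ∧ p ∈ TV ∧ q ∈ TV ∧ Adj p q) :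
    trS c S ⊆ ED D ∧ (∀ e ∈ trS c S, a ∉ e ∧ b ∉ e) ∧
      ∀ e ∈ trS c S, ∀ v ∈ e, v ∈ tile c := by
  have h0 : ∀ e ∈ trS c S, e ∈ ED D ∧ ∀ v ∈ e, v ∈ tile c := by
    intro e he
    unfold trS at he
    rw [Finset.mem_image] at he
    obtain ⟨e', h1, rfl⟩ := he
    obtain ⟨p, q, rfl, hp, hq, ha⟩ := hS e' h1
    rw [tr_mk]
    refine ⟨mem_ED.2 ⟨hI.2.1 _ (add_mem_tile hp), hI.2.1 _ (add_mem_tile hq),
      (adj_add hI.1.even).2 ha⟩, ?_⟩
    intro v hv
    rw [Sym2.mem_iff] at hv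
    rcases hv with rfl | rfl
    · exact add_mem_tile hp
    · exact add_mem_tile hq
  refine ⟨fun e he => (h0 e he).1, fun e he => ⟨fun h => ?_, fun h => ?_⟩,
    fun e he => (h0 e he).2⟩
  · exact hI.2.2.1 ((h0 e he).2 a h)
  · exact hI.2.2.2 ((h0 e he).2 b h)

theorem st_config {D : Finset V} {a b c : V} (hI : Ins D a b c) {ω : Finset (Sym2 V)}
    (hω : ω ∈ Configs D a b) (i : Fin 12) : st ω c i ∈ Configs D a b := by
  obtain ⟨h1, h2, _⟩ := trS_sub hI (S := X (Af ω c i)) (fun e he => X_mem he)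
  refine flip_config hω h1 (fun v => ?_) h2
  rw [pr_trS c hI.1.even, pr_X]

theorem agree_symm {W : Set V} {ω η : Finset (Sym2 V)} (h : ∀ e ∈ η, ∀ v ∈ e, v ∈ W) :
    Agree W ω (symmDiff ω η) := by
  rintro e ⟨v, hv, hvW⟩
  rw [Finset.mem_symmDiff]
  have : e ∉ η := fun he => hvW (h e he v hv)
  tauto

theorem st_agree {D : Finset V} {a b c : V} (hI : Ins D a b c) (ω : Finset (Sym2 V))
    (i : Fin 12) : Agree (tile c : Set V) ω (st ω c i) := by
  apply agree_symm
  intro e he v hv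
  exact_mod_cast (trS_sub hI (S := X (Af ω c i)) (fun e he => X_mem he)).2.2 e he v hv

/-- at most 128 configurations lead to the same one -/
theorem st_fiber (F : Finset (Finset (Sym2 V))) (c : V) (i : Fin 12) (ω' : Finset (Sym2 V)) :
    (F.filter (fun ω => st ω c i = ω')).card ≤ 128 := by
  have h : F.filter (fun ω => st ω c i = ω') ⊆
      (Finset.univ : Finset (Fin 7 → Bool)).image (fun A => symmDiff ω' (trS c (X A))) := by
    intro ω hω
    rw [Finset.mem_filter] at hω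
    rw [Finset.mem_image]
    refine ⟨Af ω c i, Finset.mem_univ _, ?_⟩
    rw [← hω.2]
    unfold st
    rw [symmDiff_assoc, symmDiff_self]
    simp
  calc (F.filter (fun ω => st ω c i = ω')).card
      ≤ ((Finset.univ : Finset (Fin 7 → Bool)).image
          (fun A => symmDiff ω' (trS c (X A)))).card := Finset.card_le_card h
    _ ≤ (Finset.univ : Finset (Fin 7 → Bool)).card := Finset.card_image_le
    _ = 128 := by simp

/-- spokes -/
def spk (k : Fin 6) : Sym2 V := s(u k, sp k)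

theorem perm : ∀ k : Fin 6,
    (eR (u k) = g k ∧ eL (u k) = g (k + 5) ∧ eT (u k) = spk k) ∨
    (eR (u k) = spk k ∧ eL (u k) = g (k + 5) ∧ eT (u k) = g k) ∨
    (eR (u k) = spk k ∧ eL (u k) = g k ∧ eT (u k) = g (k + 5)) ∨
    (eR (u k) = g (k + 5) ∧ eL (u k) = g k ∧ eT (u k) = spk k) ∨
    (eR (u k) = g (k + 5) ∧ eL (u k) = spk k ∧ eT (u k) = g k) ∨
    (eR (u k) = g k ∧ eL (u k) = spk k ∧ eT (u k) = g (k + 5)) := by
  decide +kernel

theorem u_TV : ∀ k : Fin 6, u k ∈ TV := by decide +kernel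

theorem att_TV : ∀ i : Fin 12, att i ∈ TV := by decide +kernel

/-- parity at the vertices of the central hexagon -/
theorem pr_u {c : V} (hc : (c.1 + c.2) % 2 = 0) (ω : Finset (Sym2 V)) (k : Fin 6) :
    pr ω (u k + c) = xor (decide (tr c (g k) ∈ ω)) (xor (decide (tr c (g (k + 5)) ∈ ω))
      (decide (tr c (spk k) ∈ ω))) := by
  unfold pr
  rw [eR_add, eL_add, eT_add _ _ hc]
  rcases perm k with h | h | h | h | h | h <;> rw [h.1, h.2.1, h.2.2] <;>
    cases decide (tr c (g k) ∈ ω) <;> cases decide (tr c (g (k + 5)) ∈ ω) <;>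
    cases decide (tr c (spk k) ∈ ω) <;> rfl

/-- parity at the vertices of the central hexagon, for configurations -/
theorem pr_conf {D : Finset V} {a b c : V} (hI : Ins D a b c) {ω : Finset (Sym2 V)}
    (hω : ω ∈ Configs D a b) {v : V} (hv : v ∈ tile c) : pr ω v = false := by
  rw [mem_Configs] at hω
  rw [← deg_pr hω.1]
  refine hω.2.1 v (hI.2.1 v hv) ?_ ?_
  · rintro rfl
    exact hI.2.2.1 hv
  · rintro rfl
    exact hI.2.2.2 hv

end Pool.Agent.V7H29.FE
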