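import Pool.Agent.V7H29.FE.Reach

set_option autoImplicit false

/-! The tile of 24 vertices. -/

namespace Pool.Agent.V7H29.FE

open Finset

/-- vertices of the tile -/
def TV : Finset V :=
  {(-1, -1), (0, -1), (1, -1), (2, -1), (3, -1),
   (-2, 0), (-1, 0), (0, 0), (1, 0), (2, 0), (3, 0), (4, 0),
   (-2, 1), (-1, 1), (0, 1), (1, 1), (2, 1), (3, 1), (4, 1),
   (-1, 2), (0, 2), (1, 2), (2, 2), (3, 2)}

theorem mem_TV (v : V) : v ∈ TV ↔ -2 ≤ v.1 ∧ v.1 ≤ 4 ∧ -1 ≤ v.2 ∧ v.2 ≤ 2 ∧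
    ((v.1 = -2 ∨ v.1 = 4) → (v.2 = 0 ∨ v.2 = 1)) := by
  constructor
  · revert v
    have h : ∀ v ∈ TV, -2 ≤ v.1 ∧ v.1 ≤ 4 ∧ -1 ≤ v.2 ∧ v.2 ≤ 2 ∧
      ((v.1 = -2 ∨ v.1 = 4) → (v.2 = 0 ∨ v.2 = 1)) := by decide +kernel
    exact h
  · rintro ⟨h1, h2, h3, h4, h5⟩
    obtain ⟨x, y⟩ := v
    simp only at *
    interval_cases x <;> interval_cases y <;> first | decide +kernel | omega

/-- the seven cycles: the outer faces and the boundary -/
def cyc : Fin 7 → List V :=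
  ![[(1, -1), (2, -1), (3, -1), (3, 0), (2, 0), (1, 0)],
    [(3, 0), (4, 0), (4, 1), (3, 1), (2, 1), (2, 0)],
    [(3, 1), (3, 2), (2, 2), (1, 2), (1, 1), (2, 1)],
    [(1, 2), (0, 2), (-1, 2), (-1, 1), (0, 1), (1, 1)],
    [(-1, 1), (-2, 1), (-2, 0), (-1, 0), (0, 0), (0, 1)],
    [(-1, 0), (-1, -1), (0, -1), (1, -1), (1, 0), (0, 0)],
    [(-1, -1), (0, -1), (1, -1), (2, -1), (3, -1), (3, 0), (4, 0), (4, 1), (3, 1), (3, 2),
      (2, 2), (1, 2), (0, 2), (-1, 2), (-1, 1), (-2, 1), (-2, 0), (-1, 0)]]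

/-- the edges of a cycle -/
def eo (l : List V) : Finset (Sym2 V) := ((l.zip (l.rotate 1)).map (fun p => s(p.1, p.2))).toFinset

/-- the edge sets of the seven cycles -/
def E (k : Fin 7) : Finset (Sym2 V) := eo (cyc k)

/-- the central hexagon -/
def u : Fin 6 → V := ![(1, 0), (2, 0), (2, 1), (1, 1), (0, 1), (0, 0)]

/-- the other ends of the spokes -/
def sp : Fin 6 → V := ![(1, -1), (3, 0), (3, 1), (1, 2), (-1, 1), (-1, 0)]

/-- the edges of the central hexagon -/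
def g (k : Fin 6) : Sym2 V := s(u k, u (k + 1))

/-- the hexagon as a set of edges -/
def H : Finset (Sym2 V) := Finset.univ.image g

/-- the vertices with a neighbour outside -/
def att : Fin 12 → V := ![(2, -1), (4, 0), (3, 2), (0, 2), (-2, 1), (-1, -1),
  (3, -1), (4, 1), (2, 2), (-1, 2), (-2, 0), (0, -1)]

/-- the spoke next to such a vertex -/
def ks : Fin 12 → Fin 6 := ![0, 1, 2, 3, 4, 5, 1, 2, 3, 4, 5, 0]

/-- the outer face of such a vertex -/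
def kf : Fin 12 → Fin 7 := ![0, 1, 2, 3, 4, 5, 0, 1, 2, 3, 4, 5]

/-- the edge to the end of the spoke -/
def ep (i : Fin 12) : Sym2 V := s(att i, sp (ks i))

theorem g_mem_E : ∀ k : Fin 6, ∀ k' : Fin 7, (g k ∈ E k' ↔ k'.val = k.val) := by
  decide +kernel

theorem ep_mem_E : ∀ i : Fin 12, ∀ k' : Fin 7, (ep i ∈ E k' ↔ k' = kf i ∨ k' = 6) := by
  decide +kernel

theorem E_TV : ∀ k : Fin 7, ∀ e ∈ E k, ∀ v ∈ TV, ∀ w ∈ TV, e = s(v, w) → Adj v w := by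
  decide +kernel

theorem cyc_TV : ∀ k : Fin 7, ∀ v ∈ cyc k, v ∈ TV := by
  decide +kernel

theorem E_pr : ∀ k : Fin 7, ∀ v ∈ TV, pr (E k) v = false := by
  decide +kernel

theorem H_pr : ∀ v ∈ TV, pr H v = false := by
  decide +kernel

theorem att_out : ∀ v ∈ TV, ∀ w, w = (v.1 + 1, v.2) ∨ w = (v.1 - 1, v.2) ∨ w = tn v → w ∉ TV →
    ∃ i, v = att i := by
  have h : ∀ v ∈ TV, ∀ w ∈ ({(v.1 + 1, v.2), (v.1 - 1, v.2), tn v} : Finset V), w ∉ TV →
    ∃ i, v = att i := by decide +kernel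
  intro v hv w hw
  exact h v hv w (by simpa using hw)

theorem card_TV : TV.card = 24 := by decide +kernel

end Pool.Agent.V7H29.FE
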